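import Pool.Agent.Lib.MP_721eb4_an.LB.AlgRank

set_option autoImplicit false

namespace GLB
namespace Alg

/-- dichotomy used to remove the variable `V` -/
theorem claimB (R x U e w k : ℝ) (hR : 0 ≤ R) (hR1 : R ≤ 1) (hU : 0 < U)
    (he : e = -9/16 * (1 - R) + (9/25 + 2/5*(R*x) - 1/5*x^2) * U)
    (hw : w = -7/32 * (1 - R) + (8/25 - 1/5*(R*x) + 3/5*x^2) * U)
    (hk : k = R * (U * (1 + x)^2)) (he0 : 0 < e) (hw0 : 0 ≤ w) :
    3 * e^2 ≤ k - 2 * e ∨ e ≤ w + 3 * w^2 := by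
  by_contra hcon
  push Not at hcon
  obtain ⟨h1, h2⟩ := hcon
  set y := R * x with hy
  have hy2 : y^2 ≤ x^2 := by
    rw [hy, mul_pow]
    have : R^2 ≤ 1 := by nlinarith
    nlinarith [mul_nonneg (sub_nonneg.mpr this) (sq_nonneg x)]
  set r := 1 - R with hr
  have hr0 : 0 ≤ r := by linarith
  -- (2.2 β - α) U < 0.12
  have h3 : (43/125 - 21/25*y + 38/25*x^2) * U < 3/25 := by
    have h4 : 3 * w^2 ≥ 6/5 * w - 3/25 := by nlinarith [sq_nonneg (w - 1/5)]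
    have h5 : 11/5 * w - 3/25 < e := by linarith
    rw [he, hw] at h5
    have e1 : 11/5 * (-7/32 * r + (8/25 - 1/5*y + 3/5*x^2) * U) - 3/25 - (-9/16 * r + (9/25 + 2/5*y - 1/5*x^2) * U)
      = (43/125 - 21/25*y + 38/25*x^2) * U - 3/25 + 13/160 * r := by ring
    linarith
  have h6 : 0 < 1/25 + 3/5*y - 4/5*x^2 := by
    have h7 : w < e := by nlinarith [sq_nonneg w]
    rw [he, hw] at h7
    have e1 : (-9/16 * r + (9/25 + 2/5*y - 1/5*x^2) * U) - (-7/32 * r + (8/25 - 1/5*y + 3/5*x^2) * U)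
      = (1/25 + 3/5*y - 4/5*x^2) * U - 11/32 * r := by ring
    have h8 : 0 < (1/25 + 3/5*y - 4/5*x^2) * U := by linarith
    exact (mul_pos_iff_of_pos_right hU).mp h8
  have hy1 : -1/10 ≤ y := by nlinarith
  have hy3 : y ≤ 17/20 := by nlinarith
  have hx2 : x^2 ≤ 11/16 := by nlinarith
  have hD0 : 0 < 43/125 - 21/25*y + 38/25*y^2 := by nlinarith [sq_nonneg (y - 21/76)]
  have hD1 : (43/125 - 21/25*y + 38/25*y^2) * U < 3/25 := by
    have : (43/125 - 21/25*y + 38/25*y^2) * U ≤ (43/125 - 21/25*y + 38/25*x^2) * U :=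
      mul_le_mul_of_nonneg_right (by linarith) hU.le
    linarith
  have hU1 : U ≤ 27/50 := by
    have h9 : 2/9 ≤ 43/125 - 21/25*y + 38/25*y^2 := by nlinarith [sq_nonneg (y - 21/76)]
    have := mul_le_mul_of_nonneg_right h9 hU.le
    linarith
  -- lower bound for k - 2 e
  have hk2 : U * (7/25 + 6/5*y + 7/5*x^2) ≤ k - 2 * e := by
    have e1 : k - 2 * e = U * (7/25 + 6/5*y + 7/5*x^2) + r * (9/8 - U - U * x^2) := by
      rw [hk, he, hy, hr]; ring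
    have h10 : U * x^2 ≤ 27/50 * (11/16) := mul_le_mul hU1 hx2 (sq_nonneg _) (by norm_num)
    have h11 := mul_nonneg hr0 (by linarith : 0 ≤ 9/8 - U - U * x^2)
    linarith
  have hal : 0 < 9/25 + 2/5*y - 1/5*x^2 := by
    have h8 : 0 < (9/25 + 2/5*y - 1/5*x^2) * U := by rw [he] at he0; linarith
    exact (mul_pos_iff_of_pos_right hU).mp h8
  have he2 : e ≤ (9/25 + 2/5*y - 1/5*y^2) * U := by
    rw [he]
    have : (9/25 + 2/5*y - 1/5*x^2) * U ≤ (9/25 + 2/5*y - 1/5*y^2) * U :=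
      mul_le_mul_of_nonneg_right (by linarith) hU.le
    linarith
  set a := 9/25 + 2/5*y - 1/5*y^2 with ha
  set g := 7/25 + 6/5*y + 7/5*y^2 with hg
  set D := 43/125 - 21/25*y + 38/25*y^2 with hDd
  have hV := V1 y (by linarith) (by linarith)
  have he3 : e^2 ≤ (a * U)^2 := pow_le_pow_left₀ he0.le he2 2
  -- 3 a² U D ≤ 9/25 a² ≤ g D
  have h12 : 3 * a^2 * (D * U) ≤ 3 * a^2 * (3/25) := mul_le_mul_of_nonneg_left hD1.le (by positivity)
  have h13 : D * (3 * a^2 * U) ≤ D * g := by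
    have e1 : D * (3 * a^2 * U) = 3 * a^2 * (D * U) := by ring
    have e2 : g * D - 9/25 * a^2 = (7/25 + 6/5*y + 7/5*y^2)*(43/125 - 21/25*y + 38/25*y^2) - 9/25*(9/25 + 2/5*y - 1/5*y^2)^2 := by
      rw [ha, hg, hDd]
    have e3 : 3 * a^2 * (3/25) = 9/25 * a^2 := by ring
    rw [e1]; linarith
  have h14 : 3 * a^2 * U ≤ g := le_of_mul_le_mul_left h13 hD0
  have h15 : U * (3 * a^2 * U) ≤ U * g := mul_le_mul_of_nonneg_left h14 hU.le
  have h16 : U * g ≤ U * (7/25 + 6/5*y + 7/5*x^2) := mul_le_mul_of_nonneg_left (by rw [hg]; linarith) hU.le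
  have e4 : U * (3 * a^2 * U) = 3 * (a * U)^2 := by ring
  linarith

theorem vred (e w k v : ℝ) (hw0 : 0 ≤ w) (hv : 0 ≤ v)
    (h : 3 * e^2 ≤ k - 2 * e ∨ e ≤ w + 3 * w^2) (hf : (1 + 2*w + e)^2 - k ≤ (1 + w)^4) :
    (1 + 2*(w+v) + e)^2 - k ≤ (1 + (w + v))^4 := by
  rcases h with h | h
  · have e1 : (1 + (w + v))^4 - ((1 + 2*(w+v) + e)^2 - k) =
      (k - 2*e - 3*e^2) + 2*((w+v)-e)^2 + 4*(w+v)^3 + (w+v)^4 := by ring
    have : 0 ≤ 2*((w+v)-e)^2 + 4*(w+v)^3 + (w+v)^4 := by positivity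
    linarith
  · have e1 : ((1 + (w + v))^4 - (1 + 2*(w+v) + e)^2) - ((1 + w)^4 - (1 + 2*w + e)^2) =
      4 * v * (w + 3*w^2 - e) + 2*v^2 + 12*w*v^2 + 4*v^3 + 4*w^3*v + 6*w^2*v^2 + 4*w*v^3 + v^4 := by ring
    have h1 : 0 ≤ 4 * v * (w + 3*w^2 - e) := mul_nonneg (by positivity) (by linarith)
    have h2 : 0 ≤ 2*v^2 + 12*w*v^2 + 4*v^3 + 4*w^3*v + 6*w^2*v^2 + 4*w*v^3 + v^4 := by positivity
    linarith

theorem zred (e w k z R : ℝ) (hw0 : 0 ≤ w) (hz : 0 ≤ z) (hR : 0 ≤ R) (hew : e ≤ 3/2 * w)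
    (hf : (1 + 2*w + e)^2 - k ≤ (1 + w)^4) :
    (1 + 2*w + e + z)^2 - (k + R * z) ≤ (1 + (w + 3/5*z))^4 := by
  have e1 : (1 + (w + 3/5*z))^4 - ((1 + 2*w + e + z)^2 - (k + R * z)) - ((1 + w)^4 - ((1 + 2*w + e)^2 - k)) =
    z * (2/5 + 16/5*w - 2*e + R) + (29/25)*z^2 + 36/5*w^2*z + 12/5*w^3*z + 108/25*w*z^2 + 54/25*w^2*z^2 + 108/125*z^3
     + 108/125*w*z^3 + 81/625*z^4 := by ring
  have h1 : 0 ≤ z * (2/5 + 16/5*w - 2*e + R) := mul_nonneg hz (by linarith)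
  have h2 : 0 ≤ (29/25)*z^2 + 36/5*w^2*z + 12/5*w^3*z + 108/25*w*z^2 + 54/25*w^2*z^2 + 108/125*z^3
     + 108/125*w*z^3 + 81/625*z^4 := by positivity
  linarith

end Alg

theorem alg_bound (R U V Z X : ℝ) (hR : 0 ≤ R) (hR1 : R ≤ 1) (hU : 0 ≤ U) (hV : 0 ≤ V)
    (hZ : 0 ≤ Z) (hX : X ^ 2 ≤ U * Z) :
    (R + U + V + Z) ^ 2 - R * (U + Z + 2 * X)
      ≤ (25 / 32 + 7 / 32 * R + 8 / 25 * U + V / 2 + 3 / 5 * Z - 1 / 5 * R * X) ^ 4 := by
  rcases hU.eq_or_lt with hU0 | hUpos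
  · subst hU0
    have hX0 : X = 0 := by
      have : X^2 ≤ 0 := by simpa using hX
      exact pow_eq_zero_iff (two_ne_zero) |>.mp (le_antisymm this (sq_nonneg X))
    subst hX0
    have h1 : R + V + Z ≤ (25/32 + 7/32*R + V/2 + 3/5*Z)^2 := by nlinarith [sq_nonneg (25/32 + 7/32*R + V/2 + 3/5*Z - 1)]
    have h2 : 0 ≤ R + V + Z := by positivity
    have h3 := pow_le_pow_left₀ h2 h1 2
    have h4 : 0 ≤ R * Z := mul_nonneg hR hZ
    have e1 : (25 / 32 + 7 / 32 * R + 8 / 25 * 0 + V / 2 + 3 / 5 * Z - 1 / 5 * R * 0) ^ 4 = ((25/32 + 7/32*R + V/2 + 3/5*Z)^2)^2 := by ring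
    have e2 : (R + 0 + V + Z) ^ 2 - R * (0 + Z + 2 * 0) = (R + V + Z)^2 - R * Z := by ring
    rw [e1, e2]; linarith
  obtain ⟨x, rfl⟩ : ∃ x, X = x * U := ⟨X / U, by field_simp⟩
  have hz : 0 ≤ Z - x^2 * U := by
    have h1 : U * (x^2 * U) ≤ U * Z := by
      calc U * (x^2 * U) = (x * U)^2 := by ring
        _ ≤ _ := hX
    have := le_of_mul_le_mul_left h1 hUpos
    linarith
  obtain ⟨z, rfl⟩ : ∃ z, Z = x^2 * U + z := ⟨Z - x^2 * U, by ring⟩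
  replace hz : 0 ≤ z := by linarith
  have hV2 : 0 ≤ V / 2 := by linarith
  -- notation
  have hk0 : 0 ≤ R * (U + (x^2*U + z) + 2 * (x * U)) := by
    have e1 : U + (x^2*U + z) + 2 * (x * U) = U * (1 + x)^2 + z := by ring
    rw [e1]; positivity
  rcases le_or_gt (R + U + V + (x^2*U + z)) ((25 / 32 + 7 / 32 * R + 8 / 25 * U + V / 2 + 3 / 5 * (x^2*U + z) - 1 / 5 * R * (x*U))^2) with hD | hD
  · have h2 : 0 ≤ R + U + V + (x^2*U + z) := by positivity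
    have h3 := pow_le_pow_left₀ h2 hD 2
    have e1 : ((25 / 32 + 7 / 32 * R + 8 / 25 * U + V / 2 + 3 / 5 * (x^2*U + z) - 1 / 5 * R * (x*U))^2)^2 = (25 / 32 + 7 / 32 * R + 8 / 25 * U + V / 2 + 3 / 5 * (x^2*U + z) - 1 / 5 * R * (x*U))^4 := by ring
    rw [e1] at h3
    linarith
  -- rank one quantities
  obtain ⟨w, hw⟩ : ∃ w, w = -7/32 * (1 - R) + (8/25 - 1/5*(R*x) + 3/5*x^2) * U := ⟨_, rfl⟩
  obtain ⟨e, he⟩ : ∃ e, e = -9/16 * (1 - R) + (9/25 + 2/5*(R*x) - 1/5*x^2) * U := ⟨_, rfl⟩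
  obtain ⟨k, hk⟩ : ∃ k, k = R * (U * (1 + x)^2) := ⟨_, rfl⟩
  have hL : 25 / 32 + 7 / 32 * R + 8 / 25 * U + V / 2 + 3 / 5 * (x^2*U + z) - 1 / 5 * R * (x*U) = 1 + (w + V/2 + 3/5*z) := by
    rw [hw]; ring
  have hP : R + U + V + (x^2*U + z) = 1 + 2*(w + V/2) + e + z := by rw [hw, he]; ring
  have hk' : R * (U + (x^2*U + z) + 2 * (x * U)) = k + R * z := by rw [hk]; ring
  rw [hL, hP] at hD
  rw [hL, hP, hk']
  have hepos : 0 < e - z/5 := by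
    have e1 : (1 + (w + V/2 + 3/5*z))^2 = 1 + 2*(w + V/2) + 6/5*z + (w + V/2 + 3/5*z)^2 := by ring
    have := sq_nonneg (w + V/2 + 3/5*z)
    linarith
  have hepos' : 0 < e := by linarith
  have hRx : (R*x)^2 ≤ x^2 := by
    rw [mul_pow]
    have : R^2 ≤ 1 := by nlinarith
    nlinarith [mul_nonneg (sub_nonneg.mpr this) (sq_nonneg x)]
  have hew : e ≤ 3/2 * w := by
    have e1 : 3/2 * w - e = 15/64 * (1 - R) + (3/25 - 7/10*(R*x) + 11/10*x^2) * U := by rw [hw, he]; ring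
    have h1 : 0 ≤ 3/25 - 7/10*(R*x) + 11/10*x^2 := by nlinarith [sq_nonneg (R*x - 7/22)]
    have := mul_nonneg h1 hU
    linarith
  have hw0 : 0 ≤ w := by linarith
  have hal : 0 < 9/25 + 2/5*(R*x) - 1/5*x^2 := by
    have h8 : 0 < (9/25 + 2/5*(R*x) - 1/5*x^2) * U := by rw [he] at hepos'; linarith
    exact (mul_pos_iff_of_pos_right hUpos).mp h8
  have hx1 : -27/20 ≤ x := by
    by_contra hx
    push Not at hx
    have : R * x ≤ 0 := mul_nonpos_of_nonneg_of_nonpos hR (by linarith)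
    nlinarith
  have hx2 : x ≤ 67/25 := by
    by_contra hx
    push Not at hx
    have : R * x ≤ x := by nlinarith
    nlinarith
  have hrank : (1 + 2*w + e)^2 - k ≤ (1 + w)^4 := by
    have e1 : 25/32 + 7/32 * R + (8/25 - 1/5*(R*x) + 3/5*x^2) * U = 1 + w := by rw [hw]; ring
    have e2 : R + U * (1 + x^2) = 1 + 2*w + e := by rw [hw, he]; ring
    rcases le_or_gt (1 + 2*w + e) ((1 + w)^2) with h | h
    · have h3 := pow_le_pow_left₀ (by linarith : 0 ≤ 1 + 2*w + e) h 2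
      have e3 : ((1 + w)^2)^2 = (1 + w)^4 := by ring
      have : 0 ≤ k := by rw [hk]; positivity
      rw [e3] at h3; linarith
    · have := Alg.rankOne R x U hR hR1 hUpos hx1 hx2 (by rw [e1, e2]; exact h)
      rw [e1, e2, ← hk] at this
      exact this
  have hcl := Alg.claimB R x U e w k hR hR1 hUpos he hw hk hepos' hw0
  have hv := Alg.vred e w k (V/2) hw0 hV2 hcl hrank
  exact Alg.zred e (w + V/2) k z R (by linarith) hz hR (by linarith) hv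

end GLB
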