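import Mathlib.Tactic

set_option autoImplicit false

namespace GLB
namespace Alg

private theorem A1_bern (s t : ℝ) (hs : 0 ≤ s) (ht : 0 ≤ t) :
    0 ≤ (903852725/104060401)*(s^0*t^4) + (1441270760/104060401)*(s^1*t^3) + (845067736/104060401)*(s^2*t^2) + (939951008/520302005)*(s^3*t^1) + (26264144/2601510025)*(s^4*t^0) := by
  positivity

theorem A1 (x : ℝ) (h1 : (-27/20) ≤ x) (h2 : x ≤ (-17/50)) :
    0 ≤ -(3*(9/25 + 2/5*x - 1/5*x^2)^2 - 2*((8/25 - 1/5*x + 3/5*x^2) - (9/25 + 2/5*x - 1/5*x^2))^2) := by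
  have h := A1_bern (x - (-27/20)) ((-17/50) - x) (by linarith) (by linarith)
  calc (0:ℝ) ≤ _ := h
    _ = _ := by ring

private theorem A2a_bern (s t : ℝ) (hs : 0 ≤ s) (ht : 0 ≤ t) :
    0 ≤ (191885424643/28397140000)*(s^0*t^5) + (226770396057/5679428000)*(s^1*t^4) + (83629727911/1135885600)*(s^2*t^3) + (14411341291/227177120)*(s^3*t^2) + (627442745/22717712)*(s^4*t^1) + (4315325/1419857)*(s^5*t^0) := by
  positivity

theorem A2a (x : ℝ) (h1 : (-17/50) ≤ x) (h2 : x ≤ 0) :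
    0 ≤ (7/25 + 6/5*x + 7/5*x^2) - (4*((83/200) + (11/10)*x^1)^2 + 2*((83/200) + (11/10)*x^1)^3)*(8/25 - 1/5*x + 3/5*x^2) := by
  have h := A2a_bern (x - (-17/50)) (0 - x) (by linarith) (by linarith)
  calc (0:ℝ) ≤ _ := h
    _ = _ := by ring

private theorem A2b_bern (s t : ℝ) (hs : 0 ≤ s) (ht : 0 ≤ t) :
    0 ≤ (12526716052827/241375690000)*(s^0*t^6) + (6944761422671/24137569000)*(s^1*t^5) + (5533933334423/9655027600)*(s^2*t^4) + (51277592369/96550276)*(s^3*t^3) + (22753282195/96550276)*(s^4*t^2) + (1093803000/24137569)*(s^5*t^1) + (113680000/24137569)*(s^6*t^0) := by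
  positivity

theorem A2b (x : ℝ) (h1 : (-17/50) ≤ x) (h2 : x ≤ 0) :
    0 ≤ (8*((83/200) + (11/10)*x^1) + 3*((83/200) + (11/10)*x^1)^2)*(8/25 - 1/5*x + 3/5*x^2)^2 - (3*(9/25 + 2/5*x - 1/5*x^2)^2 - 2*((8/25 - 1/5*x + 3/5*x^2) - (9/25 + 2/5*x - 1/5*x^2))^2) := by
  have h := A2b_bern (x - (-17/50)) (0 - x) (by linarith) (by linarith)
  calc (0:ℝ) ≤ _ := h
    _ = _ := by ring

private theorem A3a_bern (s t : ℝ) (hs : 0 ≤ s) (ht : 0 ≤ t) :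
    0 ≤ (17210287/15625)*(s^0*t^5) + (1311162809/250000)*(s^1*t^4) + (12089094323/1250000)*(s^2*t^3) + (10455943073/1250000)*(s^3*t^2) + (15761565449/5000000)*(s^4*t^1) + (6289182639/20000000)*(s^5*t^0) := by
  positivity

theorem A3a (x : ℝ) (h1 : 0 ≤ x) (h2 : x ≤ (1/10)) :
    0 ≤ (7/25 + 6/5*x + 7/5*x^2) - (4*((417/1000) + (199/200)*x^1)^2 + 2*((417/1000) + (199/200)*x^1)^3)*(8/25 - 1/5*x + 3/5*x^2) := by
  have h := A3a_bern (x - 0) ((1/10) - x) (by linarith) (by linarith)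
  calc (0:ℝ) ≤ _ := h
    _ = _ := by ring

private theorem A3b_bern (s t : ℝ) (hs : 0 ≤ s) (ht : 0 ≤ t) :
    0 ≤ (5890688/625)*(s^0*t^6) + (23359528/625)*(s^1*t^5) + (712027871/12500)*(s^2*t^4) + (27676913/625)*(s^3*t^3) + (2947719969/125000)*(s^4*t^2) + (741757913/62500)*(s^5*t^1) + (3558411203/1000000)*(s^6*t^0) := by
  positivity

theorem A3b (x : ℝ) (h1 : 0 ≤ x) (h2 : x ≤ (1/10)) :
    0 ≤ (8*((417/1000) + (199/200)*x^1) + 3*((417/1000) + (199/200)*x^1)^2)*(8/25 - 1/5*x + 3/5*x^2)^2 - (3*(9/25 + 2/5*x - 1/5*x^2)^2 - 2*((8/25 - 1/5*x + 3/5*x^2) - (9/25 + 2/5*x - 1/5*x^2))^2) := by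
  have h := A3b_bern (x - 0) ((1/10) - x) (by linarith) (by linarith)
  calc (0:ℝ) ≤ _ := h
    _ = _ := by ring

private theorem A4a_bern (s t : ℝ) (hs : 0 ≤ s) (ht : 0 ≤ t) :
    0 ≤ (6289182639/20000000)*(s^0*t^5) + (68258812783/20000000)*(s^1*t^4) + (201563855611/20000000)*(s^2*t^3) + (50525487593/4000000)*(s^3*t^2) + (70811913917/10000000)*(s^4*t^1) + (3572290917/2500000)*(s^5*t^0) := by
  positivity

theorem A4a (x : ℝ) (h1 : (1/10) ≤ x) (h2 : x ≤ (1/5)) :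
    0 ≤ (7/25 + 6/5*x + 7/5*x^2) - (4*((873/2000) + (4/5)*x^1)^2 + 2*((873/2000) + (4/5)*x^1)^3)*(8/25 - 1/5*x + 3/5*x^2) := by
  have h := A4a_bern (x - (1/10)) ((1/5) - x) (by linarith) (by linarith)
  calc (0:ℝ) ≤ _ := h
    _ = _ := by ring

private theorem A4b_bern (s t : ℝ) (hs : 0 ≤ s) (ht : 0 ≤ t) :
    0 ≤ (3558411203/1000000)*(s^0*t^6) + (1056712153/100000)*(s^1*t^5) + (17153129863/1000000)*(s^2*t^4) + (8970822931/250000)*(s^3*t^3) + (14326549383/250000)*(s^4*t^2) + (1378750651/31250)*(s^5*t^1) + (196146667/15625)*(s^6*t^0) := by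
  positivity

theorem A4b (x : ℝ) (h1 : (1/10) ≤ x) (h2 : x ≤ (1/5)) :
    0 ≤ (8*((873/2000) + (4/5)*x^1) + 3*((873/2000) + (4/5)*x^1)^2)*(8/25 - 1/5*x + 3/5*x^2)^2 - (3*(9/25 + 2/5*x - 1/5*x^2)^2 - 2*((8/25 - 1/5*x + 3/5*x^2) - (9/25 + 2/5*x - 1/5*x^2))^2) := by
  have h := A4b_bern (x - (1/10)) ((1/5) - x) (by linarith) (by linarith)
  calc (0:ℝ) ≤ _ := h
    _ = _ := by ring

private theorem A5a_bern (s t : ℝ) (hs : 0 ≤ s) (ht : 0 ≤ t) :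
    0 ≤ (4358379/2500)*(s^0*t^5) + (193034573/10000)*(s^1*t^4) + (1195763087/20000)*(s^2*t^3) + (64679163/800)*(s^3*t^2) + (1626445/32)*(s^4*t^1) + (390575/32)*(s^5*t^0) := by
  positivity

theorem A5a (x : ℝ) (h1 : (1/5) ≤ x) (h2 : x ≤ (3/10)) :
    0 ≤ (7/25 + 6/5*x + 7/5*x^2) - (4*((107/200) + (3/10)*x^1)^2 + 2*((107/200) + (3/10)*x^1)^3)*(8/25 - 1/5*x + 3/5*x^2) := by
  have h := A5a_bern (x - (1/5)) ((3/10) - x) (by linarith) (by linarith)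
  calc (0:ℝ) ≤ _ := h
    _ = _ := by ring

private theorem A5b_bern (s t : ℝ) (hs : 0 ≤ s) (ht : 0 ≤ t) :
    0 ≤ (6843052/625)*(s^0*t^6) + (27076362/625)*(s^1*t^5) + (185968503/2500)*(s^2*t^4) + (210878193/2500)*(s^3*t^3) + (760701167/10000)*(s^4*t^2) + (9146207/200)*(s^5*t^1) + (191971/16)*(s^6*t^0) := by
  positivity

theorem A5b (x : ℝ) (h1 : (1/5) ≤ x) (h2 : x ≤ (3/10)) :
    0 ≤ (8*((107/200) + (3/10)*x^1) + 3*((107/200) + (3/10)*x^1)^2)*(8/25 - 1/5*x + 3/5*x^2)^2 - (3*(9/25 + 2/5*x - 1/5*x^2)^2 - 2*((8/25 - 1/5*x + 3/5*x^2) - (9/25 + 2/5*x - 1/5*x^2))^2) := by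
  have h := A5b_bern (x - (1/5)) ((3/10) - x) (by linarith) (by linarith)
  calc (0:ℝ) ≤ _ := h
    _ = _ := by ring

private theorem A6a_bern (s t : ℝ) (hs : 0 ≤ s) (ht : 0 ≤ t) :
    0 ≤ (4595/213248)*(s^0*t^2) + (81287/106624)*(s^1*t^1) + (30333/33320)*(s^2*t^0) := by
  positivity

theorem A6a (x : ℝ) (h1 : (3/10) ≤ x) (h2 : x ≤ (67/25)) :
    0 ≤ (7/25 + 6/5*x + 7/5*x^2) - (4*((5/8))^2 + 2*((5/8))^3)*(8/25 - 1/5*x + 3/5*x^2) := by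
  have h := A6a_bern (x - (3/10)) ((67/25) - x) (by linarith) (by linarith)
  calc (0:ℝ) ≤ _ := h
    _ = _ := by ring

private theorem A6b_0_bern (s t : ℝ) (hs : 0 ≤ s) (ht : 0 ≤ t) :
    0 ≤ (11998187500000000/4785448563124474679)*(s^0*t^9) + (6869387500000000/4785448563124474679)*(s^1*t^8) + (2962131046250000000/4785448563124474679)*(s^2*t^7) + (3352349715250000000/683635509017782097)*(s^3*t^6) + (12035522383581250000/683635509017782097)*(s^4*t^5) + (24850294920406250000/683635509017782097)*(s^5*t^4) + (31193271769562500000/683635509017782097)*(s^6*t^3) + (164280511124437500000/4785448563124474679)*(s^7*t^2) + (68078031563343750000/4785448563124474679)*(s^8*t^1) + (11947826907568750000/4785448563124474679)*(s^9*t^0) := by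
  positivity

theorem A6b_0 (x : ℝ) (h1 : (3/10) ≤ x) (h2 : x ≤ (149/100)) :
    0 ≤ (8*((5/8)) + 3*((5/8))^2)*(8/25 - 1/5*x + 3/5*x^2)^2 - (3*(9/25 + 2/5*x - 1/5*x^2)^2 - 2*((8/25 - 1/5*x + 3/5*x^2) - (9/25 + 2/5*x - 1/5*x^2))^2) := by
  have h := A6b_0_bern (x - (3/10)) ((149/100) - x) (by linarith) (by linarith)
  calc (0:ℝ) ≤ _ := h
    _ = _ := by ring

private theorem A6b_1_bern (s t : ℝ) (hs : 0 ≤ s) (ht : 0 ≤ t) :
    0 ≤ (1911652305211/320854273600)*(s^0*t^4) + (1744874364701/40106784200)*(s^1*t^3) + (2398222205499/20053392100)*(s^2*t^2) + (736869614928/5013348025)*(s^3*t^1) + (342508308224/5013348025)*(s^4*t^0) := by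
  positivity

theorem A6b_1 (x : ℝ) (h1 : (149/100) ≤ x) (h2 : x ≤ (67/25)) :
    0 ≤ (8*((5/8)) + 3*((5/8))^2)*(8/25 - 1/5*x + 3/5*x^2)^2 - (3*(9/25 + 2/5*x - 1/5*x^2)^2 - 2*((8/25 - 1/5*x + 3/5*x^2) - (9/25 + 2/5*x - 1/5*x^2))^2) := by
  have h := A6b_1_bern (x - (149/100)) ((67/25) - x) (by linarith) (by linarith)
  calc (0:ℝ) ≤ _ := h
    _ = _ := by ring

theorem A6b (x : ℝ) (h1 : (3/10) ≤ x) (h2 : x ≤ (67/25)) :
    0 ≤ (8*((5/8)) + 3*((5/8))^2)*(8/25 - 1/5*x + 3/5*x^2)^2 - (3*(9/25 + 2/5*x - 1/5*x^2)^2 - 2*((8/25 - 1/5*x + 3/5*x^2) - (9/25 + 2/5*x - 1/5*x^2))^2) := by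
  rcases le_total x (149/100) with h3 | h3
  · exact A6b_0 x (by linarith) (by linarith)
  exact A6b_1 x (by linarith) (by linarith)

private theorem B1a_bern (s t : ℝ) (hs : 0 ≤ s) (ht : 0 ≤ t) :
    0 ≤ (87014196211/24137569000)*(s^0*t^6) + (35033596197/965502760)*(s^1*t^5) + (223689298061/2413756900)*(s^2*t^4) + (2540994759/24137569)*(s^3*t^3) + (7044957021/120687845)*(s^4*t^2) + (339931760/24137569)*(s^5*t^1) + (18654128/24137569)*(s^6*t^0) := by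
  positivity

theorem B1a (x : ℝ) (h1 : (-27/20) ≤ x) (h2 : x ≤ (-1/2)) :
    0 ≤ ((7/25 + 6/5*x + 7/5*x^2) - 12*(7/32)^2*(8/25 - 1/5*x + 3/5*x^2) + 12*(7/32)*(1/5)*x) - (1/2)^2*(4*(8/25 - 1/5*x + 3/5*x^2)^3 + 12*(1/5)*((7/32*(8/25 - 1/5*x + 3/5*x^2) - x/5)*(x*(8/25 - 1/5*x + 3/5*x^2)))) + 2*(365/512)*((-5/4) + (-39/10)*x^1) := by
  have h := B1a_bern (x - (-27/20)) ((-1/2) - x) (by linarith) (by linarith)
  calc (0:ℝ) ≤ _ := h
    _ = _ := by ring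

private theorem B1b_bern (s t : ℝ) (hs : 0 ≤ s) (ht : 0 ≤ t) :
    0 ≤ (2435318233749/69757574410)*(s^0*t^8) + (4873682539974/34878787205)*(s^1*t^7) + (7449298572257/34878787205)*(s^2*t^6) + (1027656571018/6975757441)*(s^3*t^5) + (532742606633/13951514882)*(s^4*t^4) + (20957075660/6975757441)*(s^5*t^3) + (52230957730/6975757441)*(s^6*t^2) + (33050364400/6975757441)*(s^7*t^1) + (4406720200/6975757441)*(s^8*t^0) := by
  positivity

theorem B1b (x : ℝ) (h1 : (-27/20) ≤ x) (h2 : x ≤ (-1/2)) :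
    0 ≤ 2*(1/2)*(4*(8/25 - 1/5*x + 3/5*x^2)^3 + 12*(1/5)*((7/32*(8/25 - 1/5*x + 3/5*x^2) - x/5)*(x*(8/25 - 1/5*x + 3/5*x^2)))) - ((3*(9/25 + 2/5*x - 1/5*x^2)^2 - 2*((8/25 - 1/5*x + 3/5*x^2) - (9/25 + 2/5*x - 1/5*x^2))^2) + 6*((7/32*(8/25 - 1/5*x + 3/5*x^2) - x/5)^2 - 2*(7/32)*(x*(8/25 - 1/5*x + 3/5*x^2)/5))) - (365/512)*((-5/4) + (-39/10)*x^1)^2 := by
  have h := B1b_bern (x - (-27/20)) ((-1/2) - x) (by linarith) (by linarith)
  calc (0:ℝ) ≤ _ := h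
    _ = _ := by ring

private theorem B2a_bern (s t : ℝ) (hs : 0 ≤ s) (ht : 0 ≤ t) :
    0 ≤ (2181003/1024)*(s^0*t^6) + (6978657/512)*(s^1*t^5) + (172220149/5120)*(s^2*t^4) + (53398047/1280)*(s^3*t^3) + (704773029/25600)*(s^4*t^2) + (116485297/12800)*(s^5*t^1) + (147217083/128000)*(s^6*t^0) := by
  positivity

theorem B2a (x : ℝ) (h1 : (-1/2) ≤ x) (h2 : x ≤ (-3/10)) :
    0 ≤ ((7/25 + 6/5*x + 7/5*x^2) - 12*(7/32)^2*(8/25 - 1/5*x + 3/5*x^2) + 12*(7/32)*(1/5)*x) - 1^2*(4*(8/25 - 1/5*x + 3/5*x^2)^3 + 12*(1/5)*((7/32*(8/25 - 1/5*x + 3/5*x^2) - x/5)*(x*(8/25 - 1/5*x + 3/5*x^2)))) + 2*(365/512)*((-1/10) + (-2)*x^1) := by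
  have h := B2a_bern (x - (-1/2)) ((-3/10) - x) (by linarith) (by linarith)
  calc (0:ℝ) ≤ _ := h
    _ = _ := by ring

private theorem B2b_bern (s t : ℝ) (hs : 0 ≤ s) (ht : 0 ≤ t) :
    0 ≤ (67980577/8192)*(s^0*t^6) + (158320163/4096)*(s^1*t^5) + (3077027491/40960)*(s^2*t^4) + (796976273/10240)*(s^3*t^3) + (9243849911/204800)*(s^4*t^2) + (1410014123/102400)*(s^5*t^1) + (1737069797/1024000)*(s^6*t^0) := by
  positivity

theorem B2b (x : ℝ) (h1 : (-1/2) ≤ x) (h2 : x ≤ (-3/10)) :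
    0 ≤ 2*1*(4*(8/25 - 1/5*x + 3/5*x^2)^3 + 12*(1/5)*((7/32*(8/25 - 1/5*x + 3/5*x^2) - x/5)*(x*(8/25 - 1/5*x + 3/5*x^2)))) - ((3*(9/25 + 2/5*x - 1/5*x^2)^2 - 2*((8/25 - 1/5*x + 3/5*x^2) - (9/25 + 2/5*x - 1/5*x^2))^2) + 6*((7/32*(8/25 - 1/5*x + 3/5*x^2) - x/5)^2 - 2*(7/32)*(x*(8/25 - 1/5*x + 3/5*x^2)/5))) - (365/512)*((-1/10) + (-2)*x^1)^2 := by
  have h := B2b_bern (x - (-1/2)) ((-3/10) - x) (by linarith) (by linarith)
  calc (0:ℝ) ≤ _ := h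
    _ = _ := by ring

private theorem B3a_bern (s t : ℝ) (hs : 0 ≤ s) (ht : 0 ≤ t) :
    0 ≤ (2258533147/36450000)*(s^0*t^6) + (371355979/405000)*(s^1*t^5) + (3404161051/1215000)*(s^2*t^4) + (2702527807/729000)*(s^3*t^3) + (48861103/20250)*(s^4*t^2) + (70504889/97200)*(s^5*t^1) + (10162891/145800)*(s^6*t^0) := by
  positivity

theorem B3a (x : ℝ) (h1 : (-3/10) ≤ x) (h2 : x ≤ 0) :
    0 ≤ ((7/25 + 6/5*x + 7/5*x^2) - 12*(7/32)^2*(8/25 - 1/5*x + 3/5*x^2) + 12*(7/32)*(1/5)*x) - (19/10)^2*(4*(8/25 - 1/5*x + 3/5*x^2)^3 + 12*(1/5)*((7/32*(8/25 - 1/5*x + 3/5*x^2) - x/5)*(x*(8/25 - 1/5*x + 3/5*x^2)))) + 2*(365/512)*((3/10) + (-23/10)*x^1) := by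
  have h := B3a_bern (x - (-3/10)) (0 - x) (by linarith) (by linarith)
  calc (0:ℝ) ≤ _ := h
    _ = _ := by ring

private theorem B3b_bern (s t : ℝ) (hs : 0 ≤ s) (ht : 0 ≤ t) :
    0 ≤ (49729711/405000)*(s^0*t^6) + (22746107/72000)*(s^1*t^5) + (21937849/48000)*(s^2*t^4) + (19363039/32400)*(s^3*t^3) + (1679263/3200)*(s^4*t^2) + (307751/1440)*(s^5*t^1) + (336239/12960)*(s^6*t^0) := by
  positivity

theorem B3b (x : ℝ) (h1 : (-3/10) ≤ x) (h2 : x ≤ 0) :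
    0 ≤ 2*(19/10)*(4*(8/25 - 1/5*x + 3/5*x^2)^3 + 12*(1/5)*((7/32*(8/25 - 1/5*x + 3/5*x^2) - x/5)*(x*(8/25 - 1/5*x + 3/5*x^2)))) - ((3*(9/25 + 2/5*x - 1/5*x^2)^2 - 2*((8/25 - 1/5*x + 3/5*x^2) - (9/25 + 2/5*x - 1/5*x^2))^2) + 6*((7/32*(8/25 - 1/5*x + 3/5*x^2) - x/5)^2 - 2*(7/32)*(x*(8/25 - 1/5*x + 3/5*x^2)/5))) - (365/512)*((3/10) + (-23/10)*x^1)^2 := by
  have h := B3b_bern (x - (-3/10)) (0 - x) (by linarith) (by linarith)
  calc (0:ℝ) ≤ _ := h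
    _ = _ := by ring

private theorem B4a_bern (s t : ℝ) (hs : 0 ≤ s) (ht : 0 ≤ t) :
    0 ≤ (12137929/12800)*(s^0*t^6) + (40468137/6400)*(s^1*t^5) + (1025553437/64000)*(s^2*t^4) + (323445037/16000)*(s^3*t^3) + (4273796427/320000)*(s^4*t^2) + (680420837/160000)*(s^5*t^1) + (733996319/1600000)*(s^6*t^0) := by
  positivity

theorem B4a (x : ℝ) (h1 : 0 ≤ x) (h2 : x ≤ (1/5)) :
    0 ≤ ((7/25 + 6/5*x + 7/5*x^2) - 12*(7/32)^2*(8/25 - 1/5*x + 3/5*x^2) + 12*(7/32)*(1/5)*x) - (11/5)^2*(4*(8/25 - 1/5*x + 3/5*x^2)^3 + 12*(1/5)*((7/32*(8/25 - 1/5*x + 3/5*x^2) - x/5)*(x*(8/25 - 1/5*x + 3/5*x^2)))) + 2*(365/512)*((21/50) + (-9/5)*x^1) := by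
  have h := B4a_bern (x - 0) ((1/5) - x) (by linarith) (by linarith)
  calc (0:ℝ) ≤ _ := h
    _ = _ := by ring

private theorem B4b_bern (s t : ℝ) (hs : 0 ≤ s) (ht : 0 ≤ t) :
    0 ≤ (5754063/10240)*(s^0*t^6) + (14667639/5120)*(s^1*t^5) + (321374489/51200)*(s^2*t^4) + (92878939/12800)*(s^3*t^3) + (1149690269/256000)*(s^4*t^2) + (173266039/128000)*(s^5*t^1) + (190258643/1280000)*(s^6*t^0) := by
  positivity

theorem B4b (x : ℝ) (h1 : 0 ≤ x) (h2 : x ≤ (1/5)) :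
    0 ≤ 2*(11/5)*(4*(8/25 - 1/5*x + 3/5*x^2)^3 + 12*(1/5)*((7/32*(8/25 - 1/5*x + 3/5*x^2) - x/5)*(x*(8/25 - 1/5*x + 3/5*x^2)))) - ((3*(9/25 + 2/5*x - 1/5*x^2)^2 - 2*((8/25 - 1/5*x + 3/5*x^2) - (9/25 + 2/5*x - 1/5*x^2))^2) + 6*((7/32*(8/25 - 1/5*x + 3/5*x^2) - x/5)^2 - 2*(7/32)*(x*(8/25 - 1/5*x + 3/5*x^2)/5))) - (365/512)*((21/50) + (-9/5)*x^1)^2 := by
  have h := B4b_bern (x - 0) ((1/5) - x) (by linarith) (by linarith)
  calc (0:ℝ) ≤ _ := h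
    _ = _ := by ring

private theorem B5a_bern (s t : ℝ) (hs : 0 ≤ s) (ht : 0 ≤ t) :
    0 ≤ (797313401/100000)*(s^0*t^6) + (12823740997/50000)*(s^1*t^5) + (4585423761/4000)*(s^2*t^4) + (10894922897/5000)*(s^3*t^3) + (8413747931/4000)*(s^4*t^2) + (51039559077/50000)*(s^5*t^1) + (19848034211/100000)*(s^6*t^0) := by
  positivity

theorem B5a (x : ℝ) (h1 : (1/5) ≤ x) (h2 : x ≤ (3/10)) :
    0 ≤ ((7/25 + 6/5*x + 7/5*x^2) - 12*(7/32)^2*(8/25 - 1/5*x + 3/5*x^2) + 12*(7/32)*(1/5)*x) - (11/5)^2*(4*(8/25 - 1/5*x + 3/5*x^2)^3 + 12*(1/5)*((7/32*(8/25 - 1/5*x + 3/5*x^2) - x/5)*(x*(8/25 - 1/5*x + 3/5*x^2)))) + 2*(365/512)*((9/200)) := by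
  have h := B5a_bern (x - (1/5)) ((3/10) - x) (by linarith) (by linarith)
  calc (0:ℝ) ≤ _ := h
    _ = _ := by ring

private theorem B5b_bern (s t : ℝ) (hs : 0 ≤ s) (ht : 0 ≤ t) :
    0 ≤ (3403435163/3200)*(s^0*t^8) + (2196389131/400)*(s^1*t^7) + (8712243233/800)*(s^2*t^6) + (3882724199/400)*(s^3*t^5) + (951153359/320)*(s^4*t^4) + (2020459/400)*(s^5*t^3) + (1140259343/800)*(s^6*t^2) + (641784711/400)*(s^7*t^1) + (1458368943/3200)*(s^8*t^0) := by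
  positivity

theorem B5b (x : ℝ) (h1 : (1/5) ≤ x) (h2 : x ≤ (3/10)) :
    0 ≤ 2*(11/5)*(4*(8/25 - 1/5*x + 3/5*x^2)^3 + 12*(1/5)*((7/32*(8/25 - 1/5*x + 3/5*x^2) - x/5)*(x*(8/25 - 1/5*x + 3/5*x^2)))) - ((3*(9/25 + 2/5*x - 1/5*x^2)^2 - 2*((8/25 - 1/5*x + 3/5*x^2) - (9/25 + 2/5*x - 1/5*x^2))^2) + 6*((7/32*(8/25 - 1/5*x + 3/5*x^2) - x/5)^2 - 2*(7/32)*(x*(8/25 - 1/5*x + 3/5*x^2)/5))) - (365/512)*((9/200))^2 := by
  have h := B5b_bern (x - (1/5)) ((3/10) - x) (by linarith) (by linarith)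
  calc (0:ℝ) ≤ _ := h
    _ = _ := by ring

private theorem B6a_bern (s t : ℝ) (hs : 0 ≤ s) (ht : 0 ≤ t) :
    0 ≤ (6716009293/36450000)*(s^0*t^6) + (10968281071/6075000)*(s^1*t^5) + (290422781/48600)*(s^2*t^4) + (4283880943/455625)*(s^3*t^3) + (735523111/97200)*(s^4*t^2) + (17584877191/6075000)*(s^5*t^1) + (845171137/2278125)*(s^6*t^0) := by
  positivity

theorem B6a (x : ℝ) (h1 : (3/10) ≤ x) (h2 : x ≤ (3/5)) :
    0 ≤ ((7/25 + 6/5*x + 7/5*x^2) - 12*(7/32)^2*(8/25 - 1/5*x + 3/5*x^2) + 12*(7/32)*(1/5)*x) - (11/5)^2*(4*(8/25 - 1/5*x + 3/5*x^2)^3 + 12*(1/5)*((7/32*(8/25 - 1/5*x + 3/5*x^2) - x/5)*(x*(8/25 - 1/5*x + 3/5*x^2)))) + 2*(365/512)*(0) := by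
  have h := B6a_bern (x - (3/10)) ((3/5) - x) (by linarith) (by linarith)
  calc (0:ℝ) ≤ _ := h
    _ = _ := by ring

private theorem B6b_bern (s t : ℝ) (hs : 0 ≤ s) (ht : 0 ≤ t) :
    0 ≤ (160026839/19440000)*(s^0*t^6) + (144073861/1080000)*(s^1*t^5) + (47087501/51840)*(s^2*t^4) + (2529799781/972000)*(s^3*t^3) + (15765019/4320)*(s^4*t^2) + (255067249/101250)*(s^5*t^1) + (105279022/151875)*(s^6*t^0) := by
  positivity

theorem B6b (x : ℝ) (h1 : (3/10) ≤ x) (h2 : x ≤ (3/5)) :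
    0 ≤ 2*(11/5)*(4*(8/25 - 1/5*x + 3/5*x^2)^3 + 12*(1/5)*((7/32*(8/25 - 1/5*x + 3/5*x^2) - x/5)*(x*(8/25 - 1/5*x + 3/5*x^2)))) - ((3*(9/25 + 2/5*x - 1/5*x^2)^2 - 2*((8/25 - 1/5*x + 3/5*x^2) - (9/25 + 2/5*x - 1/5*x^2))^2) + 6*((7/32*(8/25 - 1/5*x + 3/5*x^2) - x/5)^2 - 2*(7/32)*(x*(8/25 - 1/5*x + 3/5*x^2)/5))) - (365/512)*(0)^2 := by
  have h := B6b_bern (x - (3/10)) ((3/5) - x) (by linarith) (by linarith)
  calc (0:ℝ) ≤ _ := h
    _ = _ := by ring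

private theorem B7a_bern (s t : ℝ) (hs : 0 ≤ s) (ht : 0 ≤ t) :
    0 ≤ (2773146433/200000)*(s^0*t^6) + (68065316001/800000)*(s^1*t^5) + (428283757/2000)*(s^2*t^4) + (22550975879/80000)*(s^3*t^3) + (25423923/125)*(s^4*t^2) + (60354945121/800000)*(s^5*t^1) + (2202263677/200000)*(s^6*t^0) := by
  positivity

theorem B7a (x : ℝ) (h1 : (3/5) ≤ x) (h2 : x ≤ (4/5)) :
    0 ≤ ((7/25 + 6/5*x + 7/5*x^2) - 12*(7/32)^2*(8/25 - 1/5*x + 3/5*x^2) + 12*(7/32)*(1/5)*x) - (8/5)^2*(4*(8/25 - 1/5*x + 3/5*x^2)^3 + 12*(1/5)*((7/32*(8/25 - 1/5*x + 3/5*x^2) - x/5)*(x*(8/25 - 1/5*x + 3/5*x^2)))) + 2*(365/512)*(0) := by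
  have h := B7a_bern (x - (3/5)) ((4/5) - x) (by linarith) (by linarith)
  calc (0:ℝ) ≤ _ := h
    _ = _ := by ring

private theorem B7b_bern (s t : ℝ) (hs : 0 ≤ s) (ht : 0 ≤ t) :
    0 ≤ (56446149/20000)*(s^0*t^6) + (1028870289/40000)*(s^1*t^5) + (1174715069/12800)*(s^2*t^4) + (5376784873/32000)*(s^3*t^3) + (2158681981/12800)*(s^4*t^2) + (3547318469/40000)*(s^5*t^1) + (383761181/20000)*(s^6*t^0) := by
  positivity

theorem B7b (x : ℝ) (h1 : (3/5) ≤ x) (h2 : x ≤ (4/5)) :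
    0 ≤ 2*(8/5)*(4*(8/25 - 1/5*x + 3/5*x^2)^3 + 12*(1/5)*((7/32*(8/25 - 1/5*x + 3/5*x^2) - x/5)*(x*(8/25 - 1/5*x + 3/5*x^2)))) - ((3*(9/25 + 2/5*x - 1/5*x^2)^2 - 2*((8/25 - 1/5*x + 3/5*x^2) - (9/25 + 2/5*x - 1/5*x^2))^2) + 6*((7/32*(8/25 - 1/5*x + 3/5*x^2) - x/5)^2 - 2*(7/32)*(x*(8/25 - 1/5*x + 3/5*x^2)/5))) - (365/512)*(0)^2 := by
  have h := B7b_bern (x - (3/5)) ((4/5) - x) (by linarith) (by linarith)
  calc (0:ℝ) ≤ _ := h
    _ = _ := by ring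

private theorem B8a_bern (s t : ℝ) (hs : 0 ≤ s) (ht : 0 ≤ t) :
    0 ≤ (205311493/512000)*(s^0*t^6) + (2561564459/1024000)*(s^1*t^5) + (51662187/8192)*(s^2*t^4) + (830130319/102400)*(s^3*t^3) + (1392431/256)*(s^4*t^2) + (1713658719/1024000)*(s^5*t^1) + (137521271/1024000)*(s^6*t^0) := by
  positivity

theorem B8a (x : ℝ) (h1 : (4/5) ≤ x) (h2 : x ≤ (6/5)) :
    0 ≤ ((7/25 + 6/5*x + 7/5*x^2) - 12*(7/32)^2*(8/25 - 1/5*x + 3/5*x^2) + 12*(7/32)*(1/5)*x) - 1^2*(4*(8/25 - 1/5*x + 3/5*x^2)^3 + 12*(1/5)*((7/32*(8/25 - 1/5*x + 3/5*x^2) - x/5)*(x*(8/25 - 1/5*x + 3/5*x^2)))) + 2*(365/512)*(0) := by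
  have h := B8a_bern (x - (4/5)) ((6/5) - x) (by linarith) (by linarith)
  calc (0:ℝ) ≤ _ := h
    _ = _ := by ring

private theorem B8b_bern (s t : ℝ) (hs : 0 ≤ s) (ht : 0 ≤ t) :
    0 ≤ (31667257/256000)*(s^0*t^6) + (325056833/256000)*(s^1*t^5) + (41255941/8192)*(s^2*t^4) + (130681639/12800)*(s^3*t^3) + (46473313/4096)*(s^4*t^2) + (1694422203/256000)*(s^5*t^1) + (1632226833/1024000)*(s^6*t^0) := by
  positivity

theorem B8b (x : ℝ) (h1 : (4/5) ≤ x) (h2 : x ≤ (6/5)) :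
    0 ≤ 2*1*(4*(8/25 - 1/5*x + 3/5*x^2)^3 + 12*(1/5)*((7/32*(8/25 - 1/5*x + 3/5*x^2) - x/5)*(x*(8/25 - 1/5*x + 3/5*x^2)))) - ((3*(9/25 + 2/5*x - 1/5*x^2)^2 - 2*((8/25 - 1/5*x + 3/5*x^2) - (9/25 + 2/5*x - 1/5*x^2))^2) + 6*((7/32*(8/25 - 1/5*x + 3/5*x^2) - x/5)^2 - 2*(7/32)*(x*(8/25 - 1/5*x + 3/5*x^2)/5))) - (365/512)*(0)^2 := by
  have h := B8b_bern (x - (4/5)) ((6/5) - x) (by linarith) (by linarith)
  calc (0:ℝ) ≤ _ := h
    _ = _ := by ring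

private theorem B9a_bern (s t : ℝ) (hs : 0 ≤ s) (ht : 0 ≤ t) :
    0 ≤ (751368599/1024000)*(s^0*t^6) + (4614051477/1024000)*(s^1*t^5) + (1159745483/102400)*(s^2*t^4) + (1517453429/102400)*(s^3*t^3) + (2156693919/204800)*(s^4*t^2) + (3867560537/1024000)*(s^5*t^1) + (16363503/32000)*(s^6*t^0) := by
  positivity

theorem B9a (x : ℝ) (h1 : (6/5) ≤ x) (h2 : x ≤ (8/5)) :
    0 ≤ ((7/25 + 6/5*x + 7/5*x^2) - 12*(7/32)^2*(8/25 - 1/5*x + 3/5*x^2) + 12*(7/32)*(1/5)*x) - (1/2)^2*(4*(8/25 - 1/5*x + 3/5*x^2)^3 + 12*(1/5)*((7/32*(8/25 - 1/5*x + 3/5*x^2) - x/5)*(x*(8/25 - 1/5*x + 3/5*x^2)))) + 2*(365/512)*(0) := by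
  have h := B9a_bern (x - (6/5)) ((8/5) - x) (by linarith) (by linarith)
  calc (0:ℝ) ≤ _ := h
    _ = _ := by ring

private theorem B9b_bern (s t : ℝ) (hs : 0 ≤ s) (ht : 0 ≤ t) :
    0 ≤ (813763729/1024000)*(s^0*t^6) + (205388331/32000)*(s^1*t^5) + (2189099443/102400)*(s^2*t^4) + (241205299/6400)*(s^3*t^3) + (7611741949/204800)*(s^4*t^2) + (311523443/16000)*(s^5*t^1) + (33907747/8000)*(s^6*t^0) := by
  positivity

theorem B9b (x : ℝ) (h1 : (6/5) ≤ x) (h2 : x ≤ (8/5)) :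
    0 ≤ 2*(1/2)*(4*(8/25 - 1/5*x + 3/5*x^2)^3 + 12*(1/5)*((7/32*(8/25 - 1/5*x + 3/5*x^2) - x/5)*(x*(8/25 - 1/5*x + 3/5*x^2)))) - ((3*(9/25 + 2/5*x - 1/5*x^2)^2 - 2*((8/25 - 1/5*x + 3/5*x^2) - (9/25 + 2/5*x - 1/5*x^2))^2) + 6*((7/32*(8/25 - 1/5*x + 3/5*x^2) - x/5)^2 - 2*(7/32)*(x*(8/25 - 1/5*x + 3/5*x^2)/5))) - (365/512)*(0)^2 := by
  have h := B9b_bern (x - (6/5)) ((8/5) - x) (by linarith) (by linarith)
  calc (0:ℝ) ≤ _ := h
    _ = _ := by ring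

private theorem B10a_bern (s t : ℝ) (hs : 0 ≤ s) (ht : 0 ≤ t) :
    0 ≤ (559722715/172186884)*(s^0*t^6) + (26565952517/1224440064)*(s^1*t^5) + (53553356065/918330048)*(s^2*t^4) + (2186896545443/27549901440)*(s^3*t^3) + (9429996829/170061120)*(s^4*t^2) + (38493469176511/2295825120000)*(s^5*t^1) + (3403778117479/4304672100000)*(s^6*t^0) := by
  positivity

theorem B10a (x : ℝ) (h1 : (8/5) ≤ x) (h2 : x ≤ (67/25)) :
    0 ≤ ((7/25 + 6/5*x + 7/5*x^2) - 12*(7/32)^2*(8/25 - 1/5*x + 3/5*x^2) + 12*(7/32)*(1/5)*x) - (1/5)^2*(4*(8/25 - 1/5*x + 3/5*x^2)^3 + 12*(1/5)*((7/32*(8/25 - 1/5*x + 3/5*x^2) - x/5)*(x*(8/25 - 1/5*x + 3/5*x^2)))) + 2*(365/512)*(0) := by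
  have h := B10a_bern (x - (8/5)) ((67/25) - x) (by linarith) (by linarith)
  calc (0:ℝ) ≤ _ := h
    _ = _ := by ring

private theorem B10b_bern (s t : ℝ) (hs : 0 ≤ s) (ht : 0 ≤ t) :
    0 ≤ (2101277975/387420489)*(s^0*t^6) + (27742565065/516560652)*(s^1*t^5) + (14433102642575/66119763456)*(s^2*t^4) + (46483575464677/99179645184)*(s^3*t^3) + (37217985178223/66119763456)*(s^4*t^2) + (185814741989569/516560652000)*(s^5*t^1) + (185669843979157/1937102445000)*(s^6*t^0) := by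
  positivity

theorem B10b (x : ℝ) (h1 : (8/5) ≤ x) (h2 : x ≤ (67/25)) :
    0 ≤ 2*(1/5)*(4*(8/25 - 1/5*x + 3/5*x^2)^3 + 12*(1/5)*((7/32*(8/25 - 1/5*x + 3/5*x^2) - x/5)*(x*(8/25 - 1/5*x + 3/5*x^2)))) - ((3*(9/25 + 2/5*x - 1/5*x^2)^2 - 2*((8/25 - 1/5*x + 3/5*x^2) - (9/25 + 2/5*x - 1/5*x^2))^2) + 6*((7/32*(8/25 - 1/5*x + 3/5*x^2) - x/5)^2 - 2*(7/32)*(x*(8/25 - 1/5*x + 3/5*x^2)/5))) - (365/512)*(0)^2 := by
  have h := B10b_bern (x - (8/5)) ((67/25) - x) (by linarith) (by linarith)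
  calc (0:ℝ) ≤ _ := h
    _ = _ := by ring

private theorem C3_0_bern (s t : ℝ) (hs : 0 ≤ s) (ht : 0 ≤ t) :
    0 ≤ (156038705493125000/2664210032449121601)*(s^0*t^8) + (197215278066625000/2664210032449121601)*(s^1*t^7) + (107546403975125000/2664210032449121601)*(s^2*t^6) + (187929791409475000/2664210032449121601)*(s^3*t^5) + (110330176756850000/2664210032449121601)*(s^4*t^4) + (31091498677201600/2664210032449121601)*(s^5*t^3) + (39589923144381440/2664210032449121601)*(s^6*t^2) + (658221566558080/2664210032449121601)*(s^7*t^1) + (3389580350378240/2664210032449121601)*(s^8*t^0) := by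
  positivity

theorem C3_0 (x : ℝ) (h1 : (-27/20) ≤ x) (h2 : x ≤ (33/50)) :
    0 ≤ (4*(8/25 - 1/5*x + 3/5*x^2)^3 + 12*(1/5)*((7/32*(8/25 - 1/5*x + 3/5*x^2) - x/5)*(x*(8/25 - 1/5*x + 3/5*x^2)))) := by
  have h := C3_0_bern (x - (-27/20)) ((33/50) - x) (by linarith) (by linarith)
  calc (0:ℝ) ≤ _ := h
    _ = _ := by ring

private theorem C3_1_bern (s t : ℝ) (hs : 0 ≤ s) (ht : 0 ≤ t) :
    0 ≤ (2648109648733/530760075300500)*(s^0*t^6) + (36662138496279/530760075300500)*(s^1*t^5) + (24607832980023/53076007530050)*(s^2*t^4) + (48695925904361/26538003765025)*(s^3*t^3) + (119009705468646/26538003765025)*(s^4*t^2) + (844289489898816/132690018825125)*(s^5*t^1) + (554348693104128/132690018825125)*(s^6*t^0) := by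
  positivity

theorem C3_1 (x : ℝ) (h1 : (33/50) ≤ x) (h2 : x ≤ (67/25)) :
    0 ≤ (4*(8/25 - 1/5*x + 3/5*x^2)^3 + 12*(1/5)*((7/32*(8/25 - 1/5*x + 3/5*x^2) - x/5)*(x*(8/25 - 1/5*x + 3/5*x^2)))) := by
  have h := C3_1_bern (x - (33/50)) ((67/25) - x) (by linarith) (by linarith)
  calc (0:ℝ) ≤ _ := h
    _ = _ := by ring

theorem C3 (x : ℝ) (h1 : (-27/20) ≤ x) (h2 : x ≤ (67/25)) :
    0 ≤ (4*(8/25 - 1/5*x + 3/5*x^2)^3 + 12*(1/5)*((7/32*(8/25 - 1/5*x + 3/5*x^2) - x/5)*(x*(8/25 - 1/5*x + 3/5*x^2)))) := by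
  rcases le_total x (33/50) with h3 | h3
  · exact C3_0 x (by linarith) (by linarith)
  exact C3_1 x (by linarith) (by linarith)

private theorem C4_0_bern (s t : ℝ) (hs : 0 ≤ s) (ht : 0 ≤ t) :
    0 ≤ (679286540052006250000/107636749520976961802001)*(s^0*t^10) + (718972945832732500000/107636749520976961802001)*(s^1*t^9) + (51631244215528250000/11959638835664106866889)*(s^2*t^8) + (333052388399348800000/35878916506992320600667)*(s^3*t^7) + (168895223606644000000/35878916506992320600667)*(s^4*t^6) + (28910901338836096000/11959638835664106866889)*(s^5*t^5) + (95891156849245657600/35878916506992320600667)*(s^6*t^4) + (3953076994229002240/35878916506992320600667)*(s^7*t^3) + (5600867155101507584/11959638835664106866889)*(s^8*t^2) + (513577863860887552/107636749520976961802001)*(s^9*t^1) + (1966348171508617216/107636749520976961802001)*(s^10*t^0) := by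
  positivity

theorem C4_0 (x : ℝ) (h1 : (-27/20) ≤ x) (h2 : x ≤ (33/50)) :
    0 ≤ ((8/25 - 1/5*x + 3/5*x^2)^4 - 6/25*(x^2*(8/25 - 1/5*x + 3/5*x^2)^2)) := by
  have h := C4_0_bern (x - (-27/20)) ((33/50) - x) (by linarith) (by linarith)
  calc (0:ℝ) ≤ _ := h
    _ = _ := by ring

private theorem C4_1_bern (s t : ℝ) (hs : 0 ≤ s) (ht : 0 ≤ t) :
    0 ≤ (480065471559721/6767854410175500625)*(s^0*t^8) + (8539053314644264/6767854410175500625)*(s^1*t^7) + (79439603317623552/6767854410175500625)*(s^2*t^6) + (475082312532844192/6767854410175500625)*(s^3*t^5) + (388726391579922704/1353570882035100125)*(s^4*t^4) + (5459351944033747968/6767854410175500625)*(s^5*t^3) + (10197605582873634432/6767854410175500625)*(s^6*t^2) + (11550677519863812096/6767854410175500625)*(s^7*t^1) + (6149607551741362176/6767854410175500625)*(s^8*t^0) := by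
  positivity

theorem C4_1 (x : ℝ) (h1 : (33/50) ≤ x) (h2 : x ≤ (67/25)) :
    0 ≤ ((8/25 - 1/5*x + 3/5*x^2)^4 - 6/25*(x^2*(8/25 - 1/5*x + 3/5*x^2)^2)) := by
  have h := C4_1_bern (x - (33/50)) ((67/25) - x) (by linarith) (by linarith)
  calc (0:ℝ) ≤ _ := h
    _ = _ := by ring

theorem C4 (x : ℝ) (h1 : (-27/20) ≤ x) (h2 : x ≤ (67/25)) :
    0 ≤ ((8/25 - 1/5*x + 3/5*x^2)^4 - 6/25*(x^2*(8/25 - 1/5*x + 3/5*x^2)^2)) := by
  rcases le_total x (33/50) with h3 | h3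
  · exact C4_0 x (by linarith) (by linarith)
  exact C4_1 x (by linarith) (by linarith)

private theorem D1_0_bern (s t : ℝ) (hs : 0 ≤ s) (ht : 0 ≤ t) :
    0 ≤ (337916800000/6975757441)*(s^0*t^8) + (2310365120000/6975757441)*(s^1*t^7) + (6948529388600/6975757441)*(s^2*t^6) + (11922481149480/6975757441)*(s^3*t^5) + (4054511128123259/2232242381120)*(s^4*t^4) + (6770313709992857/5580605952800)*(s^5*t^3) + (274462053999903277/558060595280000)*(s^6*t^2) + (304964064182124341/2790302976400000)*(s^7*t^1) + (5682949231467418579/558060595280000000)*(s^8*t^0) := by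
  positivity

theorem D1_0 (x : ℝ) (h1 : 0 ≤ x) (h2 : x ≤ (17/50)) :
    0 ≤ 51/125*(8/25 - 1/5*x + 3/5*x^2)^4 - (x*(9/25 + 2/5*x - 1/5*x^2)/5 - 7/32*(8/25 - 1/5*x + 3/5*x^2)^2)*(25/32*(8/25 - 1/5*x + 3/5*x^2)^2 + (8/25 + 3/5*x^2)*(9/25 + 2/5*x - 1/5*x^2)) := by
  have h := D1_0_bern (x - 0) ((17/50) - x) (by linarith) (by linarith)
  calc (0:ℝ) ≤ _ := h
    _ = _ := by ring

private theorem D1_1_bern (s t : ℝ) (hs : 0 ≤ s) (ht : 0 ≤ t) :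
    0 ≤ (5682949231467418579/439502693200312500)*(s^0*t^8) + (7597779150474380204/109875673300078125)*(s^1*t^7) + (59865629185250657053/439502693200312500)*(s^2*t^6) + (11437781279540338607/109875673300078125)*(s^3*t^5) + (6658156556693666053/703204309120500000)*(s^4*t^4) + (13704580023991869857/439502693200312500)*(s^5*t^3) + (891518023197769157053/7032043091205000000)*(s^6*t^2) + (201127227865356751301/1758010772801250000)*(s^7*t^1) + (3770277501277758418579/112512689459280000000)*(s^8*t^0) := by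
  positivity

theorem D1_1 (x : ℝ) (h1 : (17/50) ≤ x) (h2 : x ≤ (67/100)) :
    0 ≤ 51/125*(8/25 - 1/5*x + 3/5*x^2)^4 - (x*(9/25 + 2/5*x - 1/5*x^2)/5 - 7/32*(8/25 - 1/5*x + 3/5*x^2)^2)*(25/32*(8/25 - 1/5*x + 3/5*x^2)^2 + (8/25 + 3/5*x^2)*(9/25 + 2/5*x - 1/5*x^2)) := by
  have h := D1_1_bern (x - (17/50)) ((67/100) - x) (by linarith) (by linarith)
  calc (0:ℝ) ≤ _ := h
    _ = _ := by ring

private theorem D1_2_bern (s t : ℝ) (hs : 0 ≤ s) (ht : 0 ≤ t) :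
    0 ≤ (3770277501277758418579/32485414204531280000000)*(s^0*t^8) + (2039572393878368357277/1015169193891602500000)*(s^1*t^7) + (29614704068828862742953/2030338387783205000000)*(s^2*t^6) + (14649929822545893095389/253792298472900625000)*(s^3*t^5) + (27960860691585078857853/203033838778320500000)*(s^4*t^4) + (13012752099341941865839/63448074618225156250)*(s^5*t^3) + (23845991598740535274753/126896149236450312500)*(s^6*t^2) + (3096281353422537060654/31724037309112578125)*(s^7*t^1) + (2811686136233410513379/126896149236450312500)*(s^8*t^0) := by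
  positivity

theorem D1_2 (x : ℝ) (h1 : (67/100) ≤ x) (h2 : x ≤ (67/50)) :
    0 ≤ 51/125*(8/25 - 1/5*x + 3/5*x^2)^4 - (x*(9/25 + 2/5*x - 1/5*x^2)/5 - 7/32*(8/25 - 1/5*x + 3/5*x^2)^2)*(25/32*(8/25 - 1/5*x + 3/5*x^2)^2 + (8/25 + 3/5*x^2)*(9/25 + 2/5*x - 1/5*x^2)) := by
  have h := D1_2_bern (x - (67/100)) ((67/50) - x) (by linarith) (by linarith)
  calc (0:ℝ) ≤ _ := h
    _ = _ := by ring

private theorem D1_3_bern (s t : ℝ) (hs : 0 ≤ s) (ht : 0 ≤ t) :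
    0 ≤ (2811686136233410513379/32485414204531280000000)*(s^0*t^8) + (5338777055277694479483/4060676775566410000000)*(s^1*t^7) + (35469200668849420535081/4060676775566410000000)*(s^2*t^6) + (33699981035309004076531/1015169193891602500000)*(s^3*t^5) + (32096961587034140268231/406067677556641000000)*(s^4*t^4) + (3835592853806391416507/31724037309112578125)*(s^5*t^3) + (3685264879571469178032/31724037309112578125)*(s^6*t^2) + (2036073896932630831104/31724037309112578125)*(s^7*t^1) + (495891744091476606976/31724037309112578125)*(s^8*t^0) := by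
  positivity

theorem D1_3 (x : ℝ) (h1 : (67/50) ≤ x) (h2 : x ≤ (67/25)) :
    0 ≤ 51/125*(8/25 - 1/5*x + 3/5*x^2)^4 - (x*(9/25 + 2/5*x - 1/5*x^2)/5 - 7/32*(8/25 - 1/5*x + 3/5*x^2)^2)*(25/32*(8/25 - 1/5*x + 3/5*x^2)^2 + (8/25 + 3/5*x^2)*(9/25 + 2/5*x - 1/5*x^2)) := by
  have h := D1_3_bern (x - (67/50)) ((67/25) - x) (by linarith) (by linarith)
  calc (0:ℝ) ≤ _ := h
    _ = _ := by ring

theorem D1 (x : ℝ) (h1 : 0 ≤ x) (h2 : x ≤ (67/25)) :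
    0 ≤ 51/125*(8/25 - 1/5*x + 3/5*x^2)^4 - (x*(9/25 + 2/5*x - 1/5*x^2)/5 - 7/32*(8/25 - 1/5*x + 3/5*x^2)^2)*(25/32*(8/25 - 1/5*x + 3/5*x^2)^2 + (8/25 + 3/5*x^2)*(9/25 + 2/5*x - 1/5*x^2)) := by
  rcases le_total x (17/50) with h3 | h3
  · exact D1_0 x (by linarith) (by linarith)
  rcases le_total x (67/100) with h4 | h4
  · exact D1_1 x (by linarith) (by linarith)
  rcases le_total x (67/50) with h5 | h5
  · exact D1_2 x (by linarith) (by linarith)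
  exact D1_3 x (by linarith) (by linarith)

private theorem V1_bern (s t : ℝ) (hs : 0 ≤ s) (ht : 0 ≤ t) :
    0 ≤ (4071216/81450625)*(s^0*t^4) + (26539696/81450625)*(s^1*t^3) + (37915776/81450625)*(s^2*t^2) + (507796/81450625)*(s^3*t^1) + (157214541/81450625)*(s^4*t^0) := by
  positivity

theorem V1 (x : ℝ) (h1 : (-1/10) ≤ x) (h2 : x ≤ (17/20)) :
    0 ≤ (7/25 + 6/5*x + 7/5*x^2)*(43/125 - 21/25*x + 38/25*x^2) - 9/25*(9/25 + 2/5*x - 1/5*x^2)^2 := by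
  have h := V1_bern (x - (-1/10)) ((17/20) - x) (by linarith) (by linarith)
  calc (0:ℝ) ≤ _ := h
    _ = _ := by ring


theorem exists_c (x : ℝ) (h1 : -27/20 ≤ x) (h2 : x ≤ 67/25) :
    ∃ c : ℝ, 0 ≤ c ∧ 0 ≤ (7/25 + 6/5*x + 7/5*x^2) - (4*c^2 + 2*c^3)*(8/25 - 1/5*x + 3/5*x^2) ∧ 0 ≤ (8*c + 3*c^2)*(8/25 - 1/5*x + 3/5*x^2)^2 - (3*(9/25 + 2/5*x - 1/5*x^2)^2 - 2*((8/25 - 1/5*x + 3/5*x^2) - (9/25 + 2/5*x - 1/5*x^2))^2) := by
  rcases le_total x (-17/50) with h | h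
  · refine ⟨0, le_refl _, ?_, ?_⟩
    · nlinarith [sq_nonneg (x + 3/7)]
    · have := A1 x (by linarith) (by linarith)
      linarith

  rcases le_total x 0 with h5 | h5
  · exact ⟨((83/200) + (11/10)*x^1), by nlinarith, A2a x (by linarith) (by linarith), A2b x (by linarith) (by linarith)⟩
  rcases le_total x (1/10) with h6 | h6
  · exact ⟨((417/1000) + (199/200)*x^1), by nlinarith, A3a x (by linarith) (by linarith), A3b x (by linarith) (by linarith)⟩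
  rcases le_total x (1/5) with h7 | h7
  · exact ⟨((873/2000) + (4/5)*x^1), by nlinarith, A4a x (by linarith) (by linarith), A4b x (by linarith) (by linarith)⟩
  rcases le_total x (3/10) with h8 | h8
  · exact ⟨((107/200) + (3/10)*x^1), by nlinarith, A5a x (by linarith) (by linarith), A5b x (by linarith) (by linarith)⟩
  exact ⟨((5/8)), by nlinarith, A6a x (by linarith) (by linarith), A6b x (by linarith) (by linarith)⟩


theorem exists_cp (x : ℝ) (h1 : -27/20 ≤ x) (h2 : x ≤ 67/25) :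
    ∃ c p : ℝ, 0 ≤ ((7/25 + 6/5*x + 7/5*x^2) - 12*(7/32)^2*(8/25 - 1/5*x + 3/5*x^2) + 12*(7/32)*(1/5)*x) - c^2*(4*(8/25 - 1/5*x + 3/5*x^2)^3 + 12*(1/5)*((7/32*(8/25 - 1/5*x + 3/5*x^2) - x/5)*(x*(8/25 - 1/5*x + 3/5*x^2)))) + 2*(365/512)*p ∧ 0 ≤ 2*c*(4*(8/25 - 1/5*x + 3/5*x^2)^3 + 12*(1/5)*((7/32*(8/25 - 1/5*x + 3/5*x^2) - x/5)*(x*(8/25 - 1/5*x + 3/5*x^2)))) - ((3*(9/25 + 2/5*x - 1/5*x^2)^2 - 2*((8/25 - 1/5*x + 3/5*x^2) - (9/25 + 2/5*x - 1/5*x^2))^2) + 6*((7/32*(8/25 - 1/5*x + 3/5*x^2) - x/5)^2 - 2*(7/32)*(x*(8/25 - 1/5*x + 3/5*x^2)/5))) - (365/512)*p^2 := by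
  rcases le_total x (-1/2) with h3 | h3
  · exact ⟨(1/2), ((-5/4) + (-39/10)*x^1), B1a x (by linarith) (by linarith), B1b x (by linarith) (by linarith)⟩
  rcases le_total x (-3/10) with h4 | h4
  · exact ⟨1, ((-1/10) + (-2)*x^1), B2a x (by linarith) (by linarith), B2b x (by linarith) (by linarith)⟩
  rcases le_total x 0 with h5 | h5
  · exact ⟨(19/10), ((3/10) + (-23/10)*x^1), B3a x (by linarith) (by linarith), B3b x (by linarith) (by linarith)⟩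
  rcases le_total x (1/5) with h6 | h6
  · exact ⟨(11/5), ((21/50) + (-9/5)*x^1), B4a x (by linarith) (by linarith), B4b x (by linarith) (by linarith)⟩
  rcases le_total x (3/10) with h7 | h7
  · exact ⟨(11/5), ((9/200)), B5a x (by linarith) (by linarith), B5b x (by linarith) (by linarith)⟩
  rcases le_total x (3/5) with h8 | h8
  · exact ⟨(11/5), (0), B6a x (by linarith) (by linarith), B6b x (by linarith) (by linarith)⟩
  rcases le_total x (4/5) with h9 | h9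
  · exact ⟨(8/5), (0), B7a x (by linarith) (by linarith), B7b x (by linarith) (by linarith)⟩
  rcases le_total x (6/5) with h10 | h10
  · exact ⟨1, (0), B8a x (by linarith) (by linarith), B8b x (by linarith) (by linarith)⟩
  rcases le_total x (8/5) with h11 | h11
  · exact ⟨(1/2), (0), B9a x (by linarith) (by linarith), B9b x (by linarith) (by linarith)⟩
  exact ⟨(1/5), (0), B10a x (by linarith) (by linarith), B10b x (by linarith) (by linarith)⟩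

end Alg
end GLB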