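import Pool.Agent.Lib.MP_721eb4_an.LB.AlgPoly

set_option autoImplicit false

namespace GLB
namespace Alg

theorem beta_pos (x : ℝ) : 0 < 8/25 - 1/5*x + 3/5*x^2 := by nlinarith [sq_nonneg (x - 1/6)]

theorem gamma_pos (x : ℝ) : 0 < 7/25 + 6/5*x + 7/5*x^2 := by nlinarith [sq_nonneg (x + 3/7)]

/-- the case `R = 1`, rank one -/
theorem quartA (x U : ℝ) (hU : 0 ≤ U) (h1 : -27/20 ≤ x) (h2 : x ≤ 67/25) :
    (1 + U * (1 + x^2))^2 - U * (1 + x)^2 ≤ (1 + (8/25 - 1/5*x + 3/5*x^2) * U)^4 := by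
  obtain ⟨c, hc, hA, hB⟩ := exists_c x h1 h2
  have hb := beta_pos x
  set b := 8/25 - 1/5*x + 3/5*x^2 with hbdef
  have key : 0 ≤ b * ((b*U - c)^2 * (4 + b*U + 2*c)) := by
    have : 0 ≤ b * U := mul_nonneg hb.le hU
    positivity
  have h3 : 0 ≤ U * ((7/25 + 6/5*x + 7/5*x^2) - (3*(9/25 + 2/5*x - 1/5*x^2)^2 - 2*(b - (9/25 + 2/5*x - 1/5*x^2))^2) * U
      + 4 * b^3 * U^2 + b^4 * U^3) := by
    apply mul_nonneg hU
    have e : (7/25 + 6/5*x + 7/5*x^2) - (3*(9/25 + 2/5*x - 1/5*x^2)^2 - 2*(b - (9/25 + 2/5*x - 1/5*x^2))^2) * U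
      + 4 * b^3 * U^2 + b^4 * U^3 = b * ((b*U - c)^2 * (4 + b*U + 2*c)) +
      ((7/25 + 6/5*x + 7/5*x^2) - (4*c^2 + 2*c^3)*b) + U * ((8*c + 3*c^2)*b^2 - (3*(9/25 + 2/5*x - 1/5*x^2)^2 - 2*(b - (9/25 + 2/5*x - 1/5*x^2))^2)) := by ring
    have := mul_nonneg hU hB
    rw [e]; linarith
  have h4 : (1 + b * U)^4 - ((1 + U * (1 + x^2))^2 - U * (1 + x)^2) =
      U * ((7/25 + 6/5*x + 7/5*x^2) - (3*(9/25 + 2/5*x - 1/5*x^2)^2 - 2*(b - (9/25 + 2/5*x - 1/5*x^2))^2) * U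
      + 4 * b^3 * U^2 + b^4 * U^3) := by
    rw [hbdef]; ring
  linarith

/-- the second inequality at `R = 1` -/
theorem quartB (x U : ℝ) (hU : 0 ≤ U) (h1 : -27/20 ≤ x) (h2 : x ≤ 67/25) :
    0 ≤ (1 + (8/25 - 1/5*x + 3/5*x^2) * U)^4 - ((1 + U * (1 + x^2))^2 - U * (1 + x)^2) + 1
      - 6 * (7/32 - x * U / 5)^2 * (1 + (8/25 - 1/5*x + 3/5*x^2) * U)^2 := by
  obtain ⟨c, p, hA, hB⟩ := exists_cp x h1 h2
  have h3 := C3 x (by linarith) (by linarith)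
  have h4 := C4 x (by linarith) (by linarith)
  set k1 := (7/25 + 6/5*x + 7/5*x^2) - 12*(7/32)^2*(8/25 - 1/5*x + 3/5*x^2) + 12*(7/32)*(1/5)*x with hk1
  set k2 := (3*(9/25 + 2/5*x - 1/5*x^2)^2 - 2*((8/25 - 1/5*x + 3/5*x^2) - (9/25 + 2/5*x - 1/5*x^2))^2) + 6*((7/32*(8/25 - 1/5*x + 3/5*x^2) - x/5)^2 - 2*(7/32)*(x*(8/25 - 1/5*x + 3/5*x^2)/5)) with hk2
  set k3 := 4*(8/25 - 1/5*x + 3/5*x^2)^3 + 12*(1/5)*((7/32*(8/25 - 1/5*x + 3/5*x^2) - x/5)*(x*(8/25 - 1/5*x + 3/5*x^2))) with hk3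
  set k4 := (8/25 - 1/5*x + 3/5*x^2)^4 - 6/25*(x^2*(8/25 - 1/5*x + 3/5*x^2)^2) with hk4
  have e1 : (1 + (8/25 - 1/5*x + 3/5*x^2) * U)^4 - ((1 + U * (1 + x^2))^2 - U * (1 + x)^2) + 1
      - 6 * (7/32 - x * U / 5)^2 * (1 + (8/25 - 1/5*x + 3/5*x^2) * U)^2
      = 365/512 + k1 * U - k2 * U^2 + k3 * U^3 + k4 * U^4 := by
    rw [hk1, hk2, hk3, hk4]; ring
  rw [e1]
  have e2 : 0 ≤ k3 * (U * (U - c)^2) := mul_nonneg h3 (mul_nonneg hU (sq_nonneg _))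
  have e3 : 0 ≤ k4 * U^4 := mul_nonneg h4 (by positivity)
  have e4 : 0 ≤ (k1 - c^2*k3 + 2*(365/512)*p) * U := mul_nonneg hA hU
  have e5 : 0 ≤ (2*c*k3 - k2 - (365/512)*p^2) * U^2 := mul_nonneg hB (sq_nonneg _)
  have e6 : 365/512 + k1 * U - k2 * U^2 + k3 * U^3 + k4 * U^4 =
      365/512 * (1 - p * U)^2 + k3 * (U * (U - c)^2) + k4 * U^4 + (k1 - c^2*k3 + 2*(365/512)*p) * U
      + (2*c*k3 - k2 - (365/512)*p^2) * U^2 := by ring
  rw [e6]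
  have e7 : 0 ≤ 365/512 * (1 - p * U)^2 := by positivity
  linarith

theorem f0 (x U : ℝ) (hU : 0 ≤ U) :
    (U * (1 + x^2))^2 ≤ (25/32 + (8/25 + 3/5*x^2) * U)^4 := by
  have h1 : U * (1 + x^2) ≤ (25/32 + (8/25 + 3/5*x^2) * U)^2 := by
    have h2 : 0 ≤ x^2 * U := mul_nonneg (sq_nonneg _) hU
    have h3 : 25/32 + 8/25 * (U * (1 + x^2)) ≤ 25/32 + (8/25 + 3/5*x^2) * U := by nlinarith
    have h4 : 0 ≤ 25/32 + 8/25 * (U * (1 + x^2)) := by positivity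
    have h5 := pow_le_pow_left₀ h4 h3 2
    nlinarith [sq_nonneg (25/32 - 8/25 * (U * (1 + x^2)))]
  have h2 : 0 ≤ U * (1 + x^2) := by positivity
  have := pow_le_pow_left₀ h2 h1 2
  calc _ ≤ _ := this
    _ = _ := by ring

/-- rank one, all `R` -/
theorem rankOne (R x U : ℝ) (hR : 0 ≤ R) (hR1 : R ≤ 1) (hU : 0 < U) (h1 : -27/20 ≤ x) (h2 : x ≤ 67/25)
    (hD : (25/32 + 7/32 * R + (8/25 - 1/5*(R*x) + 3/5*x^2) * U)^2 < R + U * (1 + x^2)) :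
    (R + U * (1 + x^2))^2 - R * (U * (1 + x)^2) ≤
      (25/32 + 7/32 * R + (8/25 - 1/5*(R*x) + 3/5*x^2) * U)^4 := by
  have hb := beta_pos x
  have hA := quartA x U hU.le h1 h2
  have hB := quartB x U hU.le h1 h2
  have h0 := f0 x U hU.le
  set l0 := 25/32 + (8/25 + 3/5*x^2) * U with hl0
  set m := 7/32 - x * U / 5 with hm
  have hL : 25/32 + 7/32 * R + (8/25 - 1/5*(R*x) + 3/5*x^2) * U = l0 + m * R := by
    rw [hl0, hm]; ring
  have hL1 : 1 + (8/25 - 1/5*x + 3/5*x^2) * U = l0 + m := by rw [hl0, hm]; ring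
  rw [hL] at hD ⊢
  rw [hL1] at hA hB
  have hl0pos : 0 < l0 := by rw [hl0]; positivity
  have hL1pos : 0 < l0 + m := by rw [← hL1]; positivity
  set N := U * (1 + x^2) with hN
  set q := U * (1 + x)^2 with hq
  have ident : (l0 + m * R)^4 - ((R + N)^2 - R * q) =
      (1 - R) * (l0^4 - N^2) + R * ((l0 + m)^4 - ((1 + N)^2 - q)) +
      R * (1 - R) * (1 - m^2 * (6*l0^2 + 4*l0*m*(1+R) + m^2*(1+R+R^2))) := by ring
  have t1 : 0 ≤ (1 - R) * (l0^4 - N^2) := mul_nonneg (by linarith) (by linarith)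
  have t2 : 0 ≤ R * (1 - R) := mul_nonneg hR (by linarith)
  rcases le_total 0 m with hm0 | hm0
  · have hK : 6*l0^2 + 4*l0*m*(1+R) + m^2*(1+R+R^2) ≤ 6 * (l0 + m)^2 := by
      have h5 : 0 ≤ l0 * m := mul_nonneg hl0pos.le hm0
      have h6 : (0:ℝ) ≤ 5 - R - R^2 := by nlinarith
      have h7 := mul_nonneg h5 (by linarith : (0:ℝ) ≤ 8 - 4*R)
      have h8 := mul_nonneg (sq_nonneg m) h6
      have e : 6 * (l0 + m)^2 - (6*l0^2 + 4*l0*m*(1+R) + m^2*(1+R+R^2)) =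
        l0 * m * (8 - 4*R) + m^2 * (5 - R - R^2) := by ring
      linarith
    have hK2 : m^2 * (6*l0^2 + 4*l0*m*(1+R) + m^2*(1+R+R^2)) ≤ m^2 * (6 * (l0 + m)^2) :=
      mul_le_mul_of_nonneg_left hK (sq_nonneg _)
    have t3 : 0 ≤ R * (1 - R) * ((l0 + m)^4 - ((1 + N)^2 - q) + 1 - 6 * m^2 * (l0 + m)^2) :=
      mul_nonneg t2 (by linarith)
    have t4 : R * (1 - R) * (1 - m^2 * (6 * (l0 + m)^2)) ≤ R * (1 - R) * (1 - m^2 * (6*l0^2 + 4*l0*m*(1+R) + m^2*(1+R+R^2))) :=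
      mul_le_mul_of_nonneg_left (by linarith) t2
    have t5 : 0 ≤ R * R * ((l0 + m)^4 - ((1 + N)^2 - q)) := mul_nonneg (mul_nonneg hR hR) (by linarith)
    have t6 : R * ((l0 + m)^4 - ((1 + N)^2 - q)) + R * (1 - R) * (1 - m^2 * (6 * (l0 + m)^2)) =
      R * (1 - R) * ((l0 + m)^4 - ((1 + N)^2 - q) + 1 - 6 * m^2 * (l0 + m)^2) +
      R * R * ((l0 + m)^4 - ((1 + N)^2 - q)) := by ring
    linarith
  · -- m < 0
    have hK : 6*l0^2 + 4*l0*m*(1+R) + m^2*(1+R+R^2) ≤ 6 * l0^2 := by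
      have h4 : 0 ≤ 4*l0*(1+R) + m*(1+R+R^2) := by
        have h5 : -l0 * (1+R+R^2) ≤ m * (1+R+R^2) :=
          mul_le_mul_of_nonneg_right (by linarith) (by positivity)
        have h6 : (0:ℝ) ≤ 3 + 3*R - R^2 := by nlinarith
        have h7 := mul_nonneg hl0pos.le h6
        have e : 4*l0*(1+R) + -l0 * (1+R+R^2) = l0 * (3 + 3*R - R^2) := by ring
        linarith
      have h8 := mul_nonneg (neg_nonneg.mpr hm0) h4
      have e : 6 * l0^2 - (6*l0^2 + 4*l0*m*(1+R) + m^2*(1+R+R^2)) = -m * (4*l0*(1+R) + m*(1+R+R^2)) := by ring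
      linarith
    have hx0 : 0 ≤ x := by
      by_contra hx
      push Not at hx
      have : x * U < 0 := mul_neg_of_neg_of_pos hx hU
      rw [hm] at hm0
      linarith
    -- D < 0 at R = 1
    have hD1 : (8/25 - 1/5*x + 3/5*x^2)^2 * U ≤ 9/25 + 2/5*x - 1/5*x^2 := by
      have h6 : l0 + m ≤ l0 + m * R := by
        have := mul_nonneg (neg_nonneg.mpr hm0) (sub_nonneg.mpr hR1)
        have e : -m * (1 - R) = m * R - m := by ring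
        linarith
      have h7 : (l0 + m)^2 ≤ (l0 + m * R)^2 := pow_le_pow_left₀ hL1pos.le h6 2
      have h8 : (l0 + m)^2 < 1 + N := by linarith
      rw [← hL1, hN] at h8
      have h9 : U * ((8/25 - 1/5*x + 3/5*x^2)^2 * U) < U * (9/25 + 2/5*x - 1/5*x^2) := by
        have e1 : (1 + (8/25 - 1/5*x + 3/5*x^2) * U)^2 - (1 + U * (1 + x^2)) =
          U * ((8/25 - 1/5*x + 3/5*x^2)^2 * U) - U * (9/25 + 2/5*x - 1/5*x^2) := by ring
        linarith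
      exact (lt_of_mul_lt_mul_left h9 hU.le).le
    have hD2 := D1 x hx0 (by linarith)
    set b := 8/25 - 1/5*x + 3/5*x^2 with hbdef
    set a := 9/25 + 2/5*x - 1/5*x^2 with hadef
    have g1 : 0 ≤ (-m) * b^2 := mul_nonneg (by linarith) (sq_nonneg _)
    have g2 : (-m) * b^2 ≤ x*a/5 - 7/32*b^2 := by
      have e : (-m) * b^2 = x*(b^2*U)/5 - 7/32*b^2 := by rw [hm]; ring
      have := mul_le_mul_of_nonneg_left hD1 hx0
      rw [e]; linarith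
    have g3 : l0 * b^2 ≤ 25/32*b^2 + (8/25 + 3/5*x^2)*a := by
      have e : l0 * b^2 = 25/32*b^2 + (8/25 + 3/5*x^2)*(b^2*U) := by rw [hl0]; ring
      have h : 0 ≤ 8/25 + 3/5*x^2 := by positivity
      have := mul_le_mul_of_nonneg_left hD1 h
      rw [e]; linarith
    have g4 : 0 ≤ l0 * b^2 := by positivity
    have g5 : ((-m) * b^2) * (l0 * b^2) ≤ (x*a/5 - 7/32*b^2) * (25/32*b^2 + (8/25 + 3/5*x^2)*a) :=
      mul_le_mul g2 g3 g4 (le_trans g1 g2)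
    have g6 : b^4 * ((-m) * l0) ≤ b^4 * (51/125) := by
      have e : b^4 * ((-m) * l0) = ((-m) * b^2) * (l0 * b^2) := by ring
      rw [e]; linarith
    have g7 : (-m) * l0 ≤ 51/125 := le_of_mul_le_mul_left g6 (by positivity)
    have g8 : 0 ≤ (-m) * l0 := mul_nonneg (by linarith) hl0pos.le
    have g9 : m^2 * (6 * l0^2) ≤ 1 := by
      have e : m^2 * (6 * l0^2) = 6 * ((-m) * l0)^2 := by ring
      have := pow_le_pow_left₀ g8 g7 2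
      rw [e]; linarith
    have g10 : m^2 * (6*l0^2 + 4*l0*m*(1+R) + m^2*(1+R+R^2)) ≤ m^2 * (6 * l0^2) :=
      mul_le_mul_of_nonneg_left hK (sq_nonneg _)
    have t3 : 0 ≤ R * (1 - R) * (1 - m^2 * (6*l0^2 + 4*l0*m*(1+R) + m^2*(1+R+R^2))) :=
      mul_nonneg t2 (by linarith)
    have t4 : 0 ≤ R * ((l0 + m)^4 - ((1 + N)^2 - q)) := mul_nonneg hR (by linarith)
    linarith

end Alg
end GLB
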