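import Pool.Agent.Lib.MP_721eb4_an.LB.CertNum

set_option autoImplicit false

open MeasureTheory Complex Set
open scoped ComplexConjugate ENNReal

namespace GLB

theorem of_num (s l0 l A c : ℝ) (hs : 0 < s) (hs1 : s ≤ 1) (hl : 0 < l) (hN : Num s l0 A)
    (hl0 : l0 ≤ l) (h : l * A ≤ 1 / (69 / 50) - c ^ 2 + 2 * c * l - 9 / 128 * l ^ 2) :
    ∃ l β η₁ η₂ η₃ : ℝ, ∀ b1 b10 b11 b0 b20 b01 : ℂ,
    ∫ z, (‖af l β z + ((16 / 25 : ℝ) : ℂ) * qp b1 b10 b11 b0 b20 b01 z‖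
        + ‖af l β z - ((16 / 25 : ℝ) : ℂ) * qp b1 b10 b11 b0 b20 b01 z‖) ∂cg
      ≤ 1 / (69 / 50) - c ^ 2 + 2 * c * l - 2 * l ^ 2 * β ^ 2 / (16 / 25)
        + 16 / 25 * (‖b1‖ ^ 2 + ‖b10‖ ^ 2 + ‖b11‖ ^ 2 + ‖b0‖ ^ 2 + ‖b20‖ ^ 2 + ‖b01‖ ^ 2)
        + η₁ * (b1 * conj b10).re + η₂ * (b1 * b01).re + η₃ * (b11 * conj b0).re := by
  obtain ⟨n0, n1, n3, n4, n6, n7⟩ := hN
  obtain ⟨η₁, η₂, η₃, H⟩ := piece_num s l A hs hs1 hl n0 (n1.trans hl0) (n3.trans hl0)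
    (n4.trans hl0) (n6.trans hl0) (n7.trans hl0)
  refine ⟨l, 3 / 20, η₁, η₂, η₃, fun b1 b10 b11 b0 b20 b01 => ?_⟩
  refine (H b1 b10 b11 b0 b20 b01).trans ?_
  have : 2 * l ^ 2 * (3 / 20 : ℝ) ^ 2 / (16 / 25) = 9 / 128 * l ^ 2 := by ring
  rw [this]
  linarith

theorem two_norm_le (a u : ℂ) :
    ‖a + u‖ + ‖a - u‖ ≤ 16 / 25 + (‖a‖ ^ 2 + ‖u‖ ^ 2) / (16 / 25) := by
  have h := parallelogram_law_with_norm ℝ a u
  have h1 : 0 ≤ (‖a + u‖ - ‖a - u‖) ^ 2 := sq_nonneg _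
  have h2 : 0 ≤ (‖a + u‖ + ‖a - u‖ - 32 / 25) ^ 2 := sq_nonneg _
  rw [div_eq_mul_inv]
  norm_num
  nlinarith

theorem integrable_qp_sq (b1 b10 b11 b0 b20 b01 : ℂ) :
    Integrable (fun z => ‖qp b1 b10 b11 b0 b20 b01 z‖ ^ 2) cg := by
  have hc : Continuous (fun z => qp b1 b10 b11 b0 b20 b01 z) := by
    unfold qp; fun_prop
  have hPB : OV.PB (fun z => qp b1 b10 b11 b0 b20 b01 z) :=
    ⟨hc, 2 * (‖b1‖ + ‖b10‖ + ‖b11‖ + ‖b0‖ + ‖b20‖ + ‖b01‖), 3,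
      fun z => growth_qp b1 b10 b11 b0 b20 b01 z⟩
  have h := (hPB.mul hPB.conj).integrable.norm
  refine h.congr (Filter.Eventually.of_forall fun z => ?_)
  simp only [norm_mul, RCLike.norm_conj]
  ring

theorem small_c (c : ℝ) (hc : 0 ≤ c) (hc1 : c ≤ 4848 / 10000) :
    ∃ l β η₁ η₂ η₃ : ℝ, ∀ b1 b10 b11 b0 b20 b01 : ℂ,
    ∫ z, (‖af l β z + ((16 / 25 : ℝ) : ℂ) * qp b1 b10 b11 b0 b20 b01 z‖
        + ‖af l β z - ((16 / 25 : ℝ) : ℂ) * qp b1 b10 b11 b0 b20 b01 z‖) ∂cg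
      ≤ 1 / (69 / 50) - c ^ 2 + 2 * c * l - 2 * l ^ 2 * β ^ 2 / (16 / 25)
        + 16 / 25 * (‖b1‖ ^ 2 + ‖b10‖ ^ 2 + ‖b11‖ ^ 2 + ‖b0‖ ^ 2 + ‖b20‖ ^ 2 + ‖b01‖ ^ 2)
        + η₁ * (b1 * conj b10).re + η₂ * (b1 * b01).re + η₃ * (b11 * conj b0).re := by
  refine ⟨16 / 25 * c, 0, 0, 0, 0, fun b1 b10 b11 b0 b20 b01 => ?_⟩
  have haf : ∀ z, ‖af (16 / 25 * c) 0 z‖ ^ 2 = (16 / 25 * c) ^ 2 * ‖z‖ ^ 2 := by
    intro z
    unfold af
    rw [zero_mul, add_zero, Complex.ofReal_one, mul_one, norm_mul, Complex.norm_real,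
      Real.norm_eq_abs, mul_pow, sq_abs]
  have hu : ∀ z, ‖((16 / 25 : ℝ) : ℂ) * qp b1 b10 b11 b0 b20 b01 z‖ ^ 2
      = (16 / 25) ^ 2 * ‖qp b1 b10 b11 b0 b20 b01 z‖ ^ 2 := by
    intro z
    rw [norm_mul, Complex.norm_real, Real.norm_eq_abs, mul_pow, sq_abs]
  have hpt : ∀ z, ‖af (16 / 25 * c) 0 z + ((16 / 25 : ℝ) : ℂ) * qp b1 b10 b11 b0 b20 b01 z‖
        + ‖af (16 / 25 * c) 0 z - ((16 / 25 : ℝ) : ℂ) * qp b1 b10 b11 b0 b20 b01 z‖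
      ≤ 16 / 25 + (16 / 25 * c ^ 2) * ‖z‖ ^ 2
        + 16 / 25 * ‖qp b1 b10 b11 b0 b20 b01 z‖ ^ 2 := by
    intro z
    have h := two_norm_le (af (16 / 25 * c) 0 z)
      (((16 / 25 : ℝ) : ℂ) * qp b1 b10 b11 b0 b20 b01 z)
    rw [haf, hu] at h
    refine h.trans (le_of_eq ?_)
    ring
  have hi1 : Integrable (fun z : ℂ => (16 / 25 * c ^ 2) * ‖z‖ ^ 2) cg :=
    (integrable_norm_pow_cg 2).const_mul _
  have hi2 : Integrable (fun z : ℂ => 16 / 25 * ‖qp b1 b10 b11 b0 b20 b01 z‖ ^ 2) cg :=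
    (integrable_qp_sq b1 b10 b11 b0 b20 b01).const_mul _
  have hi0 : Integrable (fun z : ℂ => (16 / 25 : ℝ)) cg := integrable_const _
  have h3 : Integrable (fun z : ℂ => 16 / 25 + (16 / 25 * c ^ 2) * ‖z‖ ^ 2) cg := hi0.add hi1
  have h4 : Integrable (fun z : ℂ => 16 / 25 + (16 / 25 * c ^ 2) * ‖z‖ ^ 2
        + 16 / 25 * ‖qp b1 b10 b11 b0 b20 b01 z‖ ^ 2) cg := h3.add hi2
  have h5 : ∫ z, (‖af (16 / 25 * c) 0 z + ((16 / 25 : ℝ) : ℂ) * qp b1 b10 b11 b0 b20 b01 z‖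
        + ‖af (16 / 25 * c) 0 z - ((16 / 25 : ℝ) : ℂ) * qp b1 b10 b11 b0 b20 b01 z‖) ∂cg
      ≤ ∫ z, (16 / 25 + (16 / 25 * c ^ 2) * ‖z‖ ^ 2
        + 16 / 25 * ‖qp b1 b10 b11 b0 b20 b01 z‖ ^ 2) ∂cg :=
    integral_mono_of_nonneg (Filter.Eventually.of_forall fun z => by positivity) h4
      (Filter.Eventually.of_forall hpt)
  rw [integral_add h3 hi2, integral_add hi0 hi1, integral_const_mul, integral_const_mul,
    integral_qp_sq, integral_norm_sq_cg] at h5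
  have h6 : ∫ _z : ℂ, (16 / 25 : ℝ) ∂cg = 16 / 25 := by
    rw [integral_const]; simp
  rw [h6] at h5
  refine h5.trans ?_
  norm_num
  nlinarith

theorem one_cert : One (16 / 25) (1 / (69 / 50)) := by
  intro c hc hc1
  by_cases h1 : c ≤ 4848 / 10000
  · exact small_c c hc h1
  · push Not at h1
    by_cases h2 : c ≤ 75 / 100
    · refine of_num (6 / 10) (619 / 1000) (619 / 1000) (17096 / 10000) c (by norm_num)
        (by norm_num) (by norm_num) num_c le_rfl ?_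
      norm_num
      nlinarith
    · push Not at h2
      by_cases h3 : c ≤ 84 / 100
      · refine of_num (3 / 10) (78 / 100) (78 / 100) (16481 / 10000) c (by norm_num)
          (by norm_num) (by norm_num) num_b le_rfl ?_
        norm_num
        nlinarith
      · push Not at h3
        by_cases h4 : c ≤ 849 / 1000
        · refine of_num (18 / 100) (849 / 1000) (849 / 1000) (16414 / 10000) c (by norm_num)
            (by norm_num) (by norm_num) num_a le_rfl ?_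
          norm_num
          nlinarith
        · push Not at h4
          refine of_num (18 / 100) (849 / 1000) c (16414 / 10000) c (by norm_num)
            (by norm_num) (by linarith) num_a h4.le ?_
          norm_num
          nlinarith [sq_nonneg (c - 88278 / 100000)]

end GLB
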