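import Mathlib

/-! Module Theta: the mean over a circle of `|a+u| + |a-u|`, `u` a trigonometric polynomial. -/

set_option autoImplicit false

open MeasureTheory Complex Set
open scoped ComplexConjugate ENNReal

namespace GLB

/-- the trigonometric polynomial -/
noncomputable def up (c1 c2 c3 c4 : ℂ) (θ : ℝ) : ℂ :=
  c1 * exp (-(θ : ℂ) * I) + c2 + c3 * exp (-(2 * θ : ℂ) * I) + c4 * exp ((θ : ℂ) * I)

namespace Theta

/-- mean value property on the unit circle -/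
theorem int_analytic (f : ℂ → ℂ) (hf : DiffContOnCl ℂ f (Metric.ball 0 1)) :
    ∫ θ in (-Real.pi)..Real.pi, f (exp ((θ : ℂ) * I)) = 2 * Real.pi * f 0 := by
  have h1 : Real.circleAverage f 0 1 = f 0 :=
    DiffContOnCl.circleAverage (by simpa using hf)
  rw [Real.circleAverage_def] at h1
  have hper : Function.Periodic (fun θ : ℝ => f (exp ((θ : ℂ) * I))) (2 * Real.pi) := by
    intro θ
    have : ((θ + 2 * Real.pi : ℝ) : ℂ) * I = (θ : ℂ) * I + 2 * Real.pi * I := by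
      push_cast; ring
    simp only [this, Complex.exp_periodic _]
  have h2 := hper.intervalIntegral_add_eq (-Real.pi) 0
  have e1 : -Real.pi + 2 * Real.pi = Real.pi := by ring
  rw [e1, zero_add] at h2
  rw [h2]
  have h3 : ∀ θ : ℝ, circleMap 0 1 θ = exp ((θ : ℂ) * I) := by
    intro θ; simp [circleMap]
  simp only [h3] at h1
  rw [← h1]
  have hpi : (Real.pi : ℂ) ≠ 0 := by exact_mod_cast Real.pi_ne_zero
  rw [Complex.real_smul]
  push_cast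
  rw [← mul_assoc, mul_inv_cancel₀ (by simpa using hpi), one_mul]

theorem int_pow (n : ℕ) (hn : n ≠ 0) :
    ∫ θ in (-Real.pi)..Real.pi, (exp ((θ : ℂ) * I)) ^ n = 0 := by
  rw [int_analytic (fun z => z ^ n) (by fun_prop : Differentiable ℂ fun z : ℂ => z ^ n).diffContOnCl]
  simp [hn]

theorem int_conj_pow (n : ℕ) (hn : n ≠ 0) :
    ∫ θ in (-Real.pi)..Real.pi, (exp (-(θ : ℂ) * I)) ^ n = 0 := by
  have h := intervalIntegral.integral_comp_neg (a := -Real.pi) (b := Real.pi)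
    (fun θ : ℝ => (exp ((θ : ℂ) * I)) ^ n)
  rw [neg_neg, int_pow n hn] at h
  rw [← h]
  refine intervalIntegral.integral_congr fun θ _ => ?_
  simp

/-- the mean of `1/|1-ρωz|²` -/
theorem int_poisson (ρ : ℝ) (h0 : 0 ≤ ρ) (h1 : ρ < 1) (ω : ℂ) (hω : ‖ω‖ = 1) :
    ∫ θ in (-Real.pi)..Real.pi, (normSq (1 - ρ * ω * exp ((θ : ℂ) * I)))⁻¹
      = 2 * Real.pi / (1 - ρ ^ 2) := by
  have hn : ∀ z : ℂ, ‖z‖ ≤ 1 → (1 : ℂ) - ρ * ω * z ≠ 0 := by
    intro z hz h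
    have : (ρ : ℂ) * ω * z = 1 := by linear_combination -h
    have h2 : ‖(ρ : ℂ) * ω * z‖ = 1 := by rw [this]; simp
    rw [norm_mul, norm_mul, hω, mul_one, Complex.norm_real, Real.norm_of_nonneg h0] at h2
    have : ρ * ‖z‖ ≤ ρ * 1 := mul_le_mul_of_nonneg_left hz h0
    linarith
  have hd : DiffContOnCl ℂ (fun z => (1 + ρ * ω * z) / (1 - ρ * ω * z)) (Metric.ball 0 1) := by
    refine DifferentiableOn.diffContOnCl ?_
    have hcl : closure (Metric.ball (0:ℂ) 1) = Metric.closedBall 0 1 := closure_ball _ one_ne_zero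
    rw [hcl]
    intro z hz
    have hz1 : ‖z‖ ≤ 1 := by simpa using hz
    exact DifferentiableAt.differentiableWithinAt (by
      refine DifferentiableAt.div (by fun_prop) (by fun_prop) (hn z hz1))
  have h := int_analytic _ hd
  simp only [mul_zero, add_zero, sub_zero, div_one, mul_one] at h
  have hre : ∫ θ in (-Real.pi)..Real.pi,
      ((1 + ρ * ω * exp ((θ : ℂ) * I)) / (1 - ρ * ω * exp ((θ : ℂ) * I))).re = 2 * Real.pi := by
    have hint : IntervalIntegrable (fun θ : ℝ =>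
        (1 + ρ * ω * exp ((θ : ℂ) * I)) / (1 - ρ * ω * exp ((θ : ℂ) * I))) volume
        (-Real.pi) Real.pi := by
      apply Continuous.intervalIntegrable
      refine Continuous.div (by fun_prop) (by fun_prop) ?_
      intro θ
      exact hn _ (by rw [Complex.norm_exp_ofReal_mul_I])
    have h' := Complex.reCLM.intervalIntegral_comp_comm hint
    simp only [Complex.reCLM_apply] at h'
    rw [h', h]
    simp
  have hρ : 0 < 1 - ρ ^ 2 := by nlinarith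
  rw [eq_div_iff hρ.ne', ← hre, mul_comm, ← intervalIntegral.integral_const_mul]
  refine intervalIntegral.integral_congr fun θ _ => ?_
  set z := exp ((θ : ℂ) * I) with hz
  have hzn : normSq z = 1 := by
    rw [Complex.normSq_eq_norm_sq, hz, Complex.norm_exp_ofReal_mul_I]; norm_num
  have hωn : normSq ω = 1 := by rw [Complex.normSq_eq_norm_sq, hω]; norm_num
  have key : ((1 + ρ * ω * z) * conj (1 - ρ * ω * z)).re = 1 - ρ ^ 2 := by
    have e2 : normSq (ω * z) = 1 := by rw [normSq_mul, hzn, hωn]; norm_num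
    have e3 : (ρ : ℂ) * ω * z = ρ * (ω * z) := by ring
    rw [e3]
    set v := ω * z
    rw [Complex.normSq_apply] at e2
    simp
    nlinarith [e2]
  rw [div_eq_mul_inv, Complex.inv_def, ← mul_assoc, Complex.re_mul_ofReal, key]

/-- `|1 - ρωz|²` as a trigonometric polynomial -/
theorem weight_eq (ρ : ℝ) (ω z : ℂ) (hω : ‖ω‖ = 1) (hz : ‖z‖ = 1) :
    ((normSq (1 - ρ * ω * z) : ℝ) : ℂ) = (1 + ρ ^ 2) - ρ * (ω * z + conj ω * conj z) := by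
  have hωc : ω * conj ω = 1 := by
    rw [Complex.mul_conj, Complex.normSq_eq_norm_sq, hω]; norm_num
  have hzc : z * conj z = 1 := by
    rw [Complex.mul_conj, Complex.normSq_eq_norm_sq, hz]; norm_num
  rw [← Complex.mul_conj]
  simp only [map_sub, map_mul, map_one, Complex.conj_ofReal]
  linear_combination (ρ : ℂ) ^ 2 * (z * conj z) * hωc + (ρ : ℂ) ^ 2 * hzc

theorem norm_exp' (θ : ℝ) : ‖exp ((θ : ℂ) * I)‖ = 1 := Complex.norm_exp_ofReal_mul_I θ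

theorem conj_exp' (θ : ℝ) : conj (exp ((θ : ℂ) * I)) = exp (-(θ : ℂ) * I) := by
  rw [← Complex.exp_conj]; simp

theorem up_eq (c1 c2 c3 c4 : ℂ) (θ : ℝ) :
    up c1 c2 c3 c4 θ = c1 * exp (-(θ : ℂ) * I) + c2 + c3 * exp (-(θ : ℂ) * I) ^ 2
      + c4 * exp ((θ : ℂ) * I) := by
  rw [up, ← Complex.exp_nat_mul]
  congr 4
  push_cast; ring

theorem continuous_up (c1 c2 c3 c4 : ℂ) : Continuous (up c1 c2 c3 c4) := by
  unfold up; fun_prop

/-- the quadratic mean -/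
theorem int_quad (a ρ : ℝ) (ω c1 c2 c3 c4 : ℂ) (hω : ‖ω‖ = 1) :
    ∫ θ in (-Real.pi)..Real.pi,
      (normSq (1 - ρ * ω * exp ((θ : ℂ) * I)) * ‖(a : ℂ) + up c1 c2 c3 c4 θ‖ ^ 2
        + normSq (1 - ρ * (-ω) * exp ((θ : ℂ) * I)) * ‖(a : ℂ) - up c1 c2 c3 c4 θ‖ ^ 2)
      = 2 * Real.pi * (2 * (1 + ρ ^ 2) * (a ^ 2 + ‖c1‖ ^ 2 + ‖c2‖ ^ 2 + ‖c3‖ ^ 2 + ‖c4‖ ^ 2)
        - 4 * ρ * a * (ω * (c1 + conj c4)).re) := by
  have hωc : ω * conj ω = 1 := by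
    rw [Complex.mul_conj, Complex.normSq_eq_norm_sq, hω]; norm_num
  -- coefficients
  obtain ⟨K1, hK1⟩ : ∃ K1 : ℂ, K1 = 2 * (1 + ρ ^ 2) * (c1 * conj c3 + c2 * conj c1 + c4 * conj c2)
      - 2 * ρ * a * (ω * (c2 + conj c2) + conj ω * conj c3) := ⟨_, rfl⟩
  obtain ⟨K2, hK2⟩ : ∃ K2 : ℂ, K2 = 2 * (1 + ρ ^ 2) * (c2 * conj c3 + c4 * conj c1)
      - 2 * ρ * a * (ω * (c4 + conj c1)) := ⟨_, rfl⟩
  obtain ⟨K3, hK3⟩ : ∃ K3 : ℂ, K3 = 2 * (1 + ρ ^ 2) * (c4 * conj c3)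
      - 2 * ρ * a * (ω * conj c3) := ⟨_, rfl⟩
  obtain ⟨M1, hM1⟩ : ∃ M1 : ℂ, M1 = 2 * (1 + ρ ^ 2) * (c1 * conj c2 + c2 * conj c4 + c3 * conj c1)
      - 2 * ρ * a * (ω * c3 + conj ω * (c2 + conj c2)) := ⟨_, rfl⟩
  obtain ⟨M2, hM2⟩ : ∃ M2 : ℂ, M2 = 2 * (1 + ρ ^ 2) * (c1 * conj c4 + c3 * conj c2)
      - 2 * ρ * a * (conj ω * (c1 + conj c4)) := ⟨_, rfl⟩
  obtain ⟨M3, hM3⟩ : ∃ M3 : ℂ, M3 = 2 * (1 + ρ ^ 2) * (c3 * conj c4)
      - 2 * ρ * a * (conj ω * c3) := ⟨_, rfl⟩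
  obtain ⟨K0, hK0⟩ : ∃ K0 : ℂ, K0 = 2 * (1 + ρ ^ 2) * (a ^ 2 + c1 * conj c1 + c2 * conj c2
      + c3 * conj c3 + c4 * conj c4)
      - 2 * ρ * a * (ω * (c1 + conj c4) + conj ω * (c4 + conj c1)) := ⟨_, rfl⟩
  have hpt : ∀ θ : ℝ, ((normSq (1 - ρ * ω * exp ((θ : ℂ) * I)) * ‖(a : ℂ) + up c1 c2 c3 c4 θ‖ ^ 2
        + normSq (1 - ρ * (-ω) * exp ((θ : ℂ) * I)) * ‖(a : ℂ) - up c1 c2 c3 c4 θ‖ ^ 2 : ℝ) : ℂ)
      = K0 + K1 * exp ((θ : ℂ) * I) ^ 1 + K2 * exp ((θ : ℂ) * I) ^ 2 + K3 * exp ((θ : ℂ) * I) ^ 3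
        + M1 * exp (-(θ : ℂ) * I) ^ 1 + M2 * exp (-(θ : ℂ) * I) ^ 2
        + M3 * exp (-(θ : ℂ) * I) ^ 3 := by
    intro θ
    have hz := norm_exp' θ
    have hzy : exp ((θ : ℂ) * I) * exp (-(θ : ℂ) * I) = 1 := by
      rw [← Complex.exp_add]; simp
    have hcy : conj (exp (-(θ : ℂ) * I)) = exp ((θ : ℂ) * I) := by
      rw [← conj_exp', Complex.conj_conj]
    push_cast
    rw [weight_eq ρ ω _ hω hz, weight_eq ρ (-ω) _ (by simpa using hω) hz, ← Complex.mul_conj',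
      ← Complex.mul_conj', up_eq]
    simp only [map_add, map_sub, map_mul, map_pow, map_neg, Complex.conj_ofReal, conj_exp', hcy]
    generalize exp ((θ : ℂ) * I) = z at *
    generalize exp (-(θ : ℂ) * I) = y at *
    subst hK0 hK1 hK2 hK3 hM1 hM2 hM3
    generalize conj c1 = d1
    generalize conj c2 = d2
    generalize conj c3 = d3
    generalize conj c4 = d4
    generalize conj ω = w at *
    have hz0 : z ≠ 0 := left_ne_zero_of_mul_eq_one hzy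
    have hy : y = z⁻¹ := eq_inv_of_mul_eq_one_right hzy
    rw [hy]
    clear hcy hzy hy hz
    field_simp
    ring
  have hint : ∀ (K : ℂ) (n : ℕ), IntervalIntegrable (fun θ : ℝ => K * exp ((θ : ℂ) * I) ^ n)
      volume (-Real.pi) Real.pi := fun K n => Continuous.intervalIntegrable (by fun_prop) _ _
  have hint' : ∀ (K : ℂ) (n : ℕ), IntervalIntegrable (fun θ : ℝ => K * exp (-(θ : ℂ) * I) ^ n)
      volume (-Real.pi) Real.pi := fun K n => Continuous.intervalIntegrable (by fun_prop) _ _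
  have hc : ((∫ θ in (-Real.pi)..Real.pi,
      (normSq (1 - ρ * ω * exp ((θ : ℂ) * I)) * ‖(a : ℂ) + up c1 c2 c3 c4 θ‖ ^ 2
        + normSq (1 - ρ * (-ω) * exp ((θ : ℂ) * I)) * ‖(a : ℂ) - up c1 c2 c3 c4 θ‖ ^ 2) : ℝ) : ℂ)
      = 2 * Real.pi * K0 := by
    rw [← intervalIntegral.integral_ofReal]
    simp only [hpt]
    have i1 := hint K1 1
    have i2 := hint K2 2
    have i3 := hint K3 3
    have j1 := hint' M1 1
    have j2 := hint' M2 2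
    have j3 := hint' M3 3
    have i0 : IntervalIntegrable (fun _ : ℝ => K0) volume (-Real.pi) Real.pi :=
      intervalIntegrable_const
    rw [intervalIntegral.integral_add (((((i0.add i1).add i2).add i3).add j1).add j2) j3,
      intervalIntegral.integral_add ((((i0.add i1).add i2).add i3).add j1) j2,
      intervalIntegral.integral_add (((i0.add i1).add i2).add i3) j1,
      intervalIntegral.integral_add ((i0.add i1).add i2) i3,
      intervalIntegral.integral_add (i0.add i1) i2,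
      intervalIntegral.integral_add i0 i1]
    simp only [intervalIntegral.integral_const_mul, int_pow 1 one_ne_zero, int_pow 2 two_ne_zero,
      int_pow 3 three_ne_zero, int_conj_pow 1 one_ne_zero, int_conj_pow 2 two_ne_zero,
      int_conj_pow 3 three_ne_zero, intervalIntegral.integral_const, mul_zero, add_zero]
    rw [Complex.real_smul]
    push_cast
    ring
  apply Complex.ofReal_injective
  rw [hc, hK0]
  have e1 : conj ω * (c4 + conj c1) = conj (ω * (c1 + conj c4)) := by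
    simp only [map_mul, map_add, Complex.conj_conj]; ring
  rw [e1, Complex.add_conj, Complex.mul_conj', Complex.mul_conj', Complex.mul_conj',
    Complex.mul_conj']
  push_cast
  ring

/-- pointwise arithmetic-geometric inequality -/
theorem amgm (κ w x : ℝ) (hκ : 0 < κ) (hw : 0 < w) : 2 * x ≤ κ * (w * x ^ 2) + κ⁻¹ * w⁻¹ := by
  have h : 0 ≤ (κ * w * x - 1) ^ 2 / (κ * w) := by positivity
  have e : (κ * w * x - 1) ^ 2 / (κ * w) = κ * (w * x ^ 2) + κ⁻¹ * w⁻¹ - 2 * x := by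
    field_simp
    ring
  linarith

theorem mean_bound (a ρ κ : ℝ) (h0 : 0 ≤ ρ) (h1 : ρ < 1) (hκ : 0 < κ) (ω c1 c2 c3 c4 : ℂ)
    (hω : ‖ω‖ = 1) :
    (2 * Real.pi)⁻¹ * ∫ θ in (-Real.pi)..Real.pi,
      (‖(a : ℂ) + up c1 c2 c3 c4 θ‖ + ‖(a : ℂ) - up c1 c2 c3 c4 θ‖)
    ≤ κ * ((1 + ρ ^ 2) * (a ^ 2 + ‖c1‖ ^ 2 + ‖c2‖ ^ 2 + ‖c3‖ ^ 2 + ‖c4‖ ^ 2)
        - 2 * ρ * a * (ω * (c1 + conj c4)).re) + κ⁻¹ / (1 - ρ ^ 2) := by
  have hρ : 0 < 1 - ρ ^ 2 := by nlinarith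
  have hne : ∀ (v : ℂ) (θ : ℝ), ‖v‖ = 1 → (1 : ℂ) - ρ * v * exp ((θ : ℂ) * I) ≠ 0 := by
    intro v θ hv h
    have : (ρ : ℂ) * v * exp ((θ : ℂ) * I) = 1 := by linear_combination -h
    have h2 : ‖(ρ : ℂ) * v * exp ((θ : ℂ) * I)‖ = 1 := by rw [this]; simp
    rw [norm_mul, norm_mul, hv, norm_exp', mul_one, mul_one, Complex.norm_real,
      Real.norm_of_nonneg h0] at h2
    linarith
  have hω' : ‖-ω‖ = 1 := by simpa using hω
  have hpos : ∀ (v : ℂ) (θ : ℝ), ‖v‖ = 1 → 0 < normSq (1 - ρ * v * exp ((θ : ℂ) * I)) :=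
    fun v θ hv => Complex.normSq_pos.2 (hne v θ hv)
  have hcu := continuous_up c1 c2 c3 c4
  have c1' : Continuous fun θ : ℝ => ‖(a : ℂ) + up c1 c2 c3 c4 θ‖ := by fun_prop
  have c2' : Continuous fun θ : ℝ => ‖(a : ℂ) - up c1 c2 c3 c4 θ‖ := by fun_prop
  have w1 : Continuous fun θ : ℝ => normSq (1 - ρ * ω * exp ((θ : ℂ) * I)) := by
    have := Complex.continuous_normSq; fun_prop
  have w2 : Continuous fun θ : ℝ => normSq (1 - ρ * (-ω) * exp ((θ : ℂ) * I)) := by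
    have := Complex.continuous_normSq; fun_prop
  have hpt : ∀ θ : ℝ, 2 * (‖(a : ℂ) + up c1 c2 c3 c4 θ‖ + ‖(a : ℂ) - up c1 c2 c3 c4 θ‖)
      ≤ κ * (normSq (1 - ρ * ω * exp ((θ : ℂ) * I)) * ‖(a : ℂ) + up c1 c2 c3 c4 θ‖ ^ 2
        + normSq (1 - ρ * (-ω) * exp ((θ : ℂ) * I)) * ‖(a : ℂ) - up c1 c2 c3 c4 θ‖ ^ 2)
        + κ⁻¹ * ((normSq (1 - ρ * ω * exp ((θ : ℂ) * I)))⁻¹
          + (normSq (1 - ρ * (-ω) * exp ((θ : ℂ) * I)))⁻¹) := by
    intro θ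
    have e1 := amgm κ _ ‖(a : ℂ) + up c1 c2 c3 c4 θ‖ hκ (hpos ω θ hω)
    have e2 := amgm κ _ ‖(a : ℂ) - up c1 c2 c3 c4 θ‖ hκ (hpos (-ω) θ hω')
    linarith
  have v1 : Continuous fun θ : ℝ => (normSq (1 - ρ * ω * exp ((θ : ℂ) * I)))⁻¹ :=
    w1.inv₀ fun θ => (hpos ω θ hω).ne'
  have v2 : Continuous fun θ : ℝ => (normSq (1 - ρ * (-ω) * exp ((θ : ℂ) * I)))⁻¹ :=
    w2.inv₀ fun θ => (hpos (-ω) θ hω').ne'
  have I1 : IntervalIntegrable (fun θ : ℝ =>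
      2 * (‖(a : ℂ) + up c1 c2 c3 c4 θ‖ + ‖(a : ℂ) - up c1 c2 c3 c4 θ‖)) volume
      (-Real.pi) Real.pi := Continuous.intervalIntegrable (by fun_prop) _ _
  have I2 : IntervalIntegrable (fun θ : ℝ =>
      κ * (normSq (1 - ρ * ω * exp ((θ : ℂ) * I)) * ‖(a : ℂ) + up c1 c2 c3 c4 θ‖ ^ 2
        + normSq (1 - ρ * (-ω) * exp ((θ : ℂ) * I)) * ‖(a : ℂ) - up c1 c2 c3 c4 θ‖ ^ 2)) volume
      (-Real.pi) Real.pi := Continuous.intervalIntegrable (by fun_prop) _ _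
  have I3 : IntervalIntegrable (fun θ : ℝ => (normSq (1 - ρ * ω * exp ((θ : ℂ) * I)))⁻¹) volume
      (-Real.pi) Real.pi := v1.intervalIntegrable _ _
  have I4 : IntervalIntegrable (fun θ : ℝ => (normSq (1 - ρ * (-ω) * exp ((θ : ℂ) * I)))⁻¹) volume
      (-Real.pi) Real.pi := v2.intervalIntegrable _ _
  have hI := intervalIntegral.integral_mono_on (μ := volume) (a := -Real.pi) (b := Real.pi)
    (by linarith [Real.pi_pos]) I1 (I2.add ((I3.add I4).const_mul κ⁻¹)) (fun θ _ => hpt θ)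
  rw [intervalIntegral.integral_const_mul,
    intervalIntegral.integral_add I2 ((I3.add I4).const_mul κ⁻¹),
    intervalIntegral.integral_const_mul, intervalIntegral.integral_const_mul,
    intervalIntegral.integral_add I3 I4,
    int_quad a ρ ω c1 c2 c3 c4 hω, int_poisson ρ h0 h1 ω hω] at hI
  have hp2 := int_poisson ρ h0 h1 (-ω) hω'
  rw [hp2] at hI
  have hpi := Real.pi_pos
  have hfin : ∀ J B : ℝ, 2 * J ≤ 2 * Real.pi * (2 * B) → (2 * Real.pi)⁻¹ * J ≤ B := by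
    intro J B h
    rw [inv_mul_le_iff₀ (by positivity)]
    linarith
  apply hfin
  refine hI.trans (le_of_eq ?_)
  field_simp
  ring

end Theta

theorem theta_bound (a : ℝ) (ha : 0 ≤ a) (c1 c2 c3 c4 : ℂ) (Y : ℝ) (hY : 0 ≤ Y)
    (h : (a ^ 2 + ‖c1‖ ^ 2 + ‖c2‖ ^ 2 + ‖c3‖ ^ 2 + ‖c4‖ ^ 2) ^ 2 - a ^ 2 * ‖c1 + conj c4‖ ^ 2
      ≤ Y ^ 4) :
    (2 * Real.pi)⁻¹ * ∫ θ in (-Real.pi)..Real.pi,
      (‖(a : ℂ) + up c1 c2 c3 c4 θ‖ + ‖(a : ℂ) - up c1 c2 c3 c4 θ‖) ≤ 2 * Y := by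
  obtain ⟨P, hP⟩ : ∃ P : ℝ, P = a ^ 2 + ‖c1‖ ^ 2 + ‖c2‖ ^ 2 + ‖c3‖ ^ 2 + ‖c4‖ ^ 2 := ⟨_, rfl⟩
  obtain ⟨Q, hQ⟩ : ∃ Q : ℝ, Q = a * ‖c1 + conj c4‖ := ⟨_, rfl⟩
  have hQ0 : 0 ≤ Q := by rw [hQ]; positivity
  have hP0 : 0 ≤ P := by rw [hP]; positivity
  have hle : ‖c1 + conj c4‖ ≤ ‖c1‖ + ‖c4‖ := by
    refine (norm_add_le _ _).trans ?_
    rw [Complex.norm_conj]
  have hQP : 2 * Q ^ 2 ≤ P ^ 2 := by
    have h1 : Q ^ 2 ≤ a ^ 2 * (‖c1‖ + ‖c4‖) ^ 2 := by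
      rw [hQ, mul_pow]
      gcongr
    have h2 : (‖c1‖ + ‖c4‖) ^ 2 ≤ 2 * (‖c1‖ ^ 2 + ‖c4‖ ^ 2) := by
      nlinarith [sq_nonneg (‖c1‖ - ‖c4‖)]
    have h3 : Q ^ 2 ≤ 2 * (a ^ 2 * (‖c1‖ ^ 2 + ‖c4‖ ^ 2)) := by
      have := mul_le_mul_of_nonneg_left h2 (sq_nonneg a)
      linarith
    have h4 : 4 * (a ^ 2 * (‖c1‖ ^ 2 + ‖c4‖ ^ 2)) ≤ (a ^ 2 + (‖c1‖ ^ 2 + ‖c4‖ ^ 2)) ^ 2 := by
      nlinarith [sq_nonneg (a ^ 2 - (‖c1‖ ^ 2 + ‖c4‖ ^ 2))]
    have h5 : (a ^ 2 + (‖c1‖ ^ 2 + ‖c4‖ ^ 2)) ^ 2 ≤ P ^ 2 := by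
      have : a ^ 2 + (‖c1‖ ^ 2 + ‖c4‖ ^ 2) ≤ P := by
        rw [hP]; nlinarith [sq_nonneg ‖c2‖, sq_nonneg ‖c3‖]
      gcongr
    linarith
  have hY4 : P ^ 2 - Q ^ 2 ≤ Y ^ 4 := by
    rw [hP, hQ, mul_pow]; exact h
  rcases hP0.eq_or_lt with hP00 | hPpos
  · -- everything vanishes
    have q0 := sq_nonneg a
    have q1 := sq_nonneg (‖c1‖)
    have q2 := sq_nonneg (‖c2‖)
    have q3 := sq_nonneg (‖c3‖)
    have q4 := sq_nonneg (‖c4‖)
    have ha0 : a = 0 := pow_eq_zero_iff (two_ne_zero) |>.1 (by linarith)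
    have hc1 : c1 = 0 := norm_eq_zero.1 (pow_eq_zero_iff (two_ne_zero) |>.1 (by linarith))
    have hc2 : c2 = 0 := norm_eq_zero.1 (pow_eq_zero_iff (two_ne_zero) |>.1 (by linarith))
    have hc3 : c3 = 0 := norm_eq_zero.1 (pow_eq_zero_iff (two_ne_zero) |>.1 (by linarith))
    have hc4 : c4 = 0 := norm_eq_zero.1 (pow_eq_zero_iff (two_ne_zero) |>.1 (by linarith))
    subst ha0 hc1 hc2 hc3 hc4
    simp [up, hY]
  · have hSpos : 0 < P ^ 2 - Q ^ 2 := by nlinarith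
    -- `s⁴ = P² - Q²`
    obtain ⟨s, hs0, hs4⟩ : ∃ s : ℝ, 0 < s ∧ s ^ 4 = P ^ 2 - Q ^ 2 := by
      refine ⟨√(√(P ^ 2 - Q ^ 2)), by positivity, ?_⟩
      have e1 : √(√(P ^ 2 - Q ^ 2)) ^ 2 = √(P ^ 2 - Q ^ 2) := Real.sq_sqrt (by positivity)
      have e2 : √(P ^ 2 - Q ^ 2) ^ 2 = P ^ 2 - Q ^ 2 := Real.sq_sqrt hSpos.le
      calc √(√(P ^ 2 - Q ^ 2)) ^ 4 = (√(√(P ^ 2 - Q ^ 2)) ^ 2) ^ 2 := by ring
        _ = _ := by rw [e1, e2]
    have hsY : s ≤ Y := by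
      by_contra hlt
      push Not at hlt
      have : Y ^ 4 < s ^ 4 := by gcongr
      linarith
    refine le_trans ?_ (by linarith : 2 * s ≤ 2 * Y)
    -- the phase
    obtain ⟨ω, hω, hωre⟩ : ∃ ω : ℂ, ‖ω‖ = 1 ∧ (ω * (c1 + conj c4)).re = ‖c1 + conj c4‖ := by
      by_cases hv : c1 + conj c4 = 0
      · exact ⟨1, by simp, by simp [hv]⟩
      · have hvn : ‖c1 + conj c4‖ ≠ 0 := norm_ne_zero_iff.2 hv
        refine ⟨conj (c1 + conj c4) / (‖c1 + conj c4‖ : ℂ), ?_, ?_⟩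
        · rw [norm_div, Complex.norm_conj, Complex.norm_real, norm_norm, div_self hvn]
        · have : conj (c1 + conj c4) / (‖c1 + conj c4‖ : ℂ) * (c1 + conj c4)
              = ((‖c1 + conj c4‖ : ℝ) : ℂ) := by
            rw [div_mul_eq_mul_div, Complex.conj_mul', div_eq_iff (by exact_mod_cast hvn)]
            ring
          rw [this, Complex.ofReal_re]
    have hs2 : 0 < s ^ 2 := by positivity
    have hPS : 0 < P + s ^ 2 := by positivity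
    have hQlt : Q < P + s ^ 2 := by nlinarith
    have hb := Theta.mean_bound a (Q / (P + s ^ 2)) ((P + s ^ 2) / (2 * s ^ 3)) (by positivity)
      ((div_lt_one hPS).2 hQlt) (by positivity) ω c1 c2 c3 c4 hω
    rw [hωre, ← hP] at hb
    refine hb.trans (le_of_eq ?_)
    have e1 : 1 - (Q / (P + s ^ 2)) ^ 2 = 2 * s ^ 2 / (P + s ^ 2) := by
      rw [div_pow, eq_div_iff hPS.ne']
      field_simp
      have : s ^ 4 = P ^ 2 - Q ^ 2 := hs4
      nlinarith [this]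
    have e2 : (1 + (Q / (P + s ^ 2)) ^ 2) * P - 2 * (Q / (P + s ^ 2)) * a * ‖c1 + conj c4‖
        = 2 * s ^ 4 / (P + s ^ 2) := by
      have e3 : 1 + (Q / (P + s ^ 2)) ^ 2 = 2 * P / (P + s ^ 2) := by
        have : 1 + (Q / (P + s ^ 2)) ^ 2 = 2 - (1 - (Q / (P + s ^ 2)) ^ 2) := by ring
        rw [this, e1]
        field_simp
        ring
      rw [e3]
      have e4 : 2 * (Q / (P + s ^ 2)) * a * ‖c1 + conj c4‖ = 2 * Q ^ 2 / (P + s ^ 2) := by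
        rw [hQ]; ring
      rw [e4, hs4]
      ring
    rw [e1, e2]
    field_simp
    ring

end GLB
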