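import Pool.Agent.Lib.MP_721eb4_an.LB.Defs
import Pool.Agent.Lib.MP_721eb4_an.LB.Theta
import Pool.Agent.Lib.MP_721eb4_an.LB.Alg

/-! Module CertA: the mean over the circle of radius `r` of `|a+u| + |a-u|`. -/

set_option autoImplicit false

open MeasureTheory Complex Set
open scoped ComplexConjugate ENNReal

namespace GLB

namespace CertA

theorem exp_mul_exp_neg (θ : ℝ) : exp ((θ : ℂ) * I) * exp (-(θ : ℂ) * I) = 1 := by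
  rw [← Complex.exp_add]
  simp

theorem norm_re (r θ : ℝ) (hr : 0 < r) : ‖(r : ℂ) * exp ((θ : ℂ) * I)‖ = r := by
  rw [norm_mul, Complex.norm_exp_ofReal_mul_I, mul_one, Complex.norm_real, Real.norm_of_nonneg hr.le]

theorem af_eq (l r θ : ℝ) (hr : 0 < r) :
    af l (3 / 20) ((r : ℂ) * exp ((θ : ℂ) * I)) =
      exp ((θ : ℂ) * I) * ((l * (r * (7 / 10 + 3 / 20 * r ^ 2)) : ℝ) : ℂ) := by
  unfold af
  rw [norm_re r θ hr]
  push_cast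
  ring

theorem qp_eq (μ r θ : ℝ) (hr : 0 < r) (b1 b10 b11 b0 b20 b01 : ℂ) :
    (μ : ℂ) * qp b1 b10 b11 b0 b20 b01 ((r : ℂ) * exp ((θ : ℂ) * I)) =
      exp ((θ : ℂ) * I) * up ((μ : ℂ) * (b1 + b10 * ((r ^ 2 - 1 : ℝ) : ℂ)))
        ((μ : ℂ) * (r * (b11 + b0 * ((((r ^ 2 - 2) / √2 : ℝ)) : ℂ))))
        ((μ : ℂ) * (r * b20)) ((μ : ℂ) * ((r ^ 2 / √2 : ℝ) * b01)) θ := by
  have h2 : (√2 : ℝ) ≠ 0 := by positivity
  have h2' : ((√2 : ℝ) : ℂ) ≠ 0 := by exact_mod_cast h2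
  have hE := exp_mul_exp_neg θ
  have hE2 : exp (-(2 * θ : ℂ) * I) = exp (-(θ : ℂ) * I) ^ 2 := by
    rw [← Complex.exp_nat_mul]; congr 1; push_cast; ring
  have hc : conj ((r : ℂ) * exp ((θ : ℂ) * I)) = r * exp (-(θ : ℂ) * I) := by
    rw [map_mul, Complex.conj_ofReal, Theta.conj_exp']
  unfold qp up
  rw [norm_re r θ hr, hc, hE2]
  set w := exp ((θ : ℂ) * I) with hw
  set v := exp (-(θ : ℂ) * I) with hv
  push_cast
  have e1 : w * v ^ 2 = v := by rw [pow_two, ← mul_assoc, hE, one_mul]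
  have e2 : w * (↑μ * (b1 + b10 * ((r : ℂ) ^ 2 - 1)) * v +
      ↑μ * (↑r * (b11 + b0 * (((r : ℂ) ^ 2 - 2) / ↑√2))) + ↑μ * (↑r * b20) * v ^ 2 +
      ↑μ * ((r : ℂ) ^ 2 / ↑√2 * b01) * w) =
      ↑μ * (b1 + b10 * ((r : ℂ) ^ 2 - 1)) * (w * v) +
      ↑μ * (↑r * (b11 + b0 * (((r : ℂ) ^ 2 - 2) / ↑√2))) * w + ↑μ * (↑r * b20) * (w * v ^ 2) +
      ↑μ * ((r : ℂ) ^ 2 / ↑√2 * b01) * w ^ 2 := by ring
  rw [e2, e1, hE]
  field_simp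
  ring

end CertA

open CertA in
theorem mean_bound (l mb r : ℝ) (hl : 0 < l) (hr : 0 < r) (hmb : r * (7 / 10 + 3 / 20 * r ^ 2) ≤ mb)
    (b1 b10 b11 b0 b20 b01 : ℂ) :
    (2 * Real.pi)⁻¹ * ∫ θ in (-Real.pi)..Real.pi,
      (‖af l (3 / 20) ((r : ℂ) * exp ((θ : ℂ) * I))
          + ((16 / 25 : ℝ) : ℂ) * qp b1 b10 b11 b0 b20 b01 ((r : ℂ) * exp ((θ : ℂ) * I))‖
        + ‖af l (3 / 20) ((r : ℂ) * exp ((θ : ℂ) * I))
          - ((16 / 25 : ℝ) : ℂ) * qp b1 b10 b11 b0 b20 b01 ((r : ℂ) * exp ((θ : ℂ) * I))‖)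
    ≤ l * mb * (25 / 16 + 7 / 16 * (r * (7 / 10 + 3 / 20 * r ^ 2) / mb) ^ 2)
      + (16 / 25) ^ 2 / (l * mb) *
        (16 / 25 * ‖b1 + b10 * ((r ^ 2 - 1 : ℝ) : ℂ)‖ ^ 2
          + r ^ 2 * ‖b11 + b0 * ((((r ^ 2 - 2) / √2 : ℝ)) : ℂ)‖ ^ 2
          + r ^ 2 * ‖b20‖ ^ 2 + 6 / 5 * (r ^ 4 / 2) * ‖b01‖ ^ 2
          - 2 / 5 * (r * (7 / 10 + 3 / 20 * r ^ 2) / mb) ^ 2 * (r ^ 2 / √2)
              * ((b1 + b10 * ((r ^ 2 - 1 : ℝ) : ℂ)) * b01).re) := by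
  set m : ℝ := r * (7 / 10 + 3 / 20 * r ^ 2) with hm
  have hm0 : 0 < m := by positivity
  have hmb0 : 0 < mb := lt_of_lt_of_le hm0 hmb
  set g1 : ℂ := b1 + b10 * ((r ^ 2 - 1 : ℝ) : ℂ) with hg1
  set g2 : ℂ := b11 + b0 * ((((r ^ 2 - 2) / √2 : ℝ)) : ℂ) with hg2
  set μ : ℝ := 16 / 25 with hμ
  set c1 : ℂ := (μ : ℂ) * g1 with hc1
  set c2 : ℂ := (μ : ℂ) * (r * g2) with hc2
  set c3 : ℂ := (μ : ℂ) * (r * b20) with hc3
  set c4 : ℂ := (μ : ℂ) * ((r ^ 2 / √2 : ℝ) * b01) with hc4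
  set a : ℝ := l * m with ha
  have hμ0 : 0 < μ := by rw [hμ]; norm_num
  have h2 : (0 : ℝ) < √2 := by positivity
  have hcongr : ∀ θ : ℝ, (‖af l (3 / 20) ((r : ℂ) * exp ((θ : ℂ) * I))
          + (μ : ℂ) * qp b1 b10 b11 b0 b20 b01 ((r : ℂ) * exp ((θ : ℂ) * I))‖
        + ‖af l (3 / 20) ((r : ℂ) * exp ((θ : ℂ) * I))
          - (μ : ℂ) * qp b1 b10 b11 b0 b20 b01 ((r : ℂ) * exp ((θ : ℂ) * I))‖) =
      ‖(a : ℂ) + up c1 c2 c3 c4 θ‖ + ‖(a : ℂ) - up c1 c2 c3 c4 θ‖ := by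
    intro θ
    rw [qp_eq μ r θ hr, af_eq l r θ hr, ← mul_add, ← mul_sub, norm_mul, norm_mul,
      Complex.norm_exp_ofReal_mul_I, one_mul, one_mul]
  simp_rw [hcongr]
  -- normalised quantities
  have hD : 0 < l * mb := by positivity
  set R : ℝ := (m / mb) ^ 2 with hR
  set U : ℝ := ‖c1‖ ^ 2 / (l * mb) ^ 2 with hU
  set V : ℝ := (‖c2‖ ^ 2 + ‖c3‖ ^ 2) / (l * mb) ^ 2 with hV
  set Z : ℝ := ‖c4‖ ^ 2 / (l * mb) ^ 2 with hZ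
  set X : ℝ := (c1 * c4).re / (l * mb) ^ 2 with hX
  have hR0 : 0 ≤ R := by positivity
  have hR1 : R ≤ 1 := by
    rw [hR]
    apply pow_le_one₀ (by positivity)
    rw [div_le_one hmb0]
    exact hmb
  have hU0 : 0 ≤ U := by positivity
  have hV0 : 0 ≤ V := by positivity
  have hZ0 : 0 ≤ Z := by positivity
  have hXUZ : X ^ 2 ≤ U * Z := by
    rw [hX, hU, hZ, div_pow, div_mul_div_comm, ← pow_two ((l * mb) ^ 2)]
    apply div_le_div_of_nonneg_right _ (by positivity)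
    rw [← mul_pow, ← norm_mul]
    have := Complex.abs_re_le_norm (c1 * c4)
    calc (c1 * c4).re ^ 2 = |(c1 * c4).re| ^ 2 := (sq_abs _).symm
      _ ≤ ‖c1 * c4‖ ^ 2 := by gcongr
  have halg := alg_bound R U V Z X hR0 hR1 hU0 hV0 hZ0 hXUZ
  set inner' : ℝ := 25 / 32 + 7 / 32 * R + 8 / 25 * U + V / 2 + 3 / 5 * Z - 1 / 5 * R * X with hin
  have hX2 : |X| ≤ (U + Z) / 2 := by
    apply abs_le_of_sq_le_sq _ (by positivity)
    nlinarith [sq_nonneg (U - Z)]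
  have hin0 : 0 ≤ inner' := by
    have h1 : R * X ≤ (U + Z) / 2 := by
      have h3 := (abs_le.mp hX2).2
      calc R * X ≤ R * ((U + Z) / 2) := mul_le_mul_of_nonneg_left h3 hR0
        _ ≤ 1 * ((U + Z) / 2) := mul_le_mul_of_nonneg_right hR1 (by positivity)
        _ = _ := one_mul _
    rw [hin]
    have : (1 : ℝ) / 5 * R * X = 1 / 5 * (R * X) := by ring
    rw [this]
    linarith
  have hY : 0 ≤ l * mb * inner' := by positivity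
  have hn : ‖c1 + conj c4‖ ^ 2 = ‖c1‖ ^ 2 + ‖c4‖ ^ 2 + 2 * (c1 * c4).re := by
    rw [← Complex.normSq_eq_norm_sq, ← Complex.normSq_eq_norm_sq, ← Complex.normSq_eq_norm_sq,
      Complex.normSq_apply, Complex.normSq_apply, Complex.normSq_apply]
    simp only [Complex.add_re, Complex.add_im, Complex.conj_re, Complex.conj_im, Complex.mul_re]
    ring
  have hkey : (a ^ 2 + ‖c1‖ ^ 2 + ‖c2‖ ^ 2 + ‖c3‖ ^ 2 + ‖c4‖ ^ 2) ^ 2 - a ^ 2 * ‖c1 + conj c4‖ ^ 2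
      ≤ (l * mb * inner') ^ 4 := by
    have ea : a ^ 2 = (l * mb) ^ 2 * R := by rw [ha, hR]; field_simp
    have e1 : ‖c1‖ ^ 2 = (l * mb) ^ 2 * U := by rw [hU]; field_simp
    have e23 : ‖c2‖ ^ 2 + ‖c3‖ ^ 2 = (l * mb) ^ 2 * V := by rw [hV]; field_simp
    have e4 : ‖c4‖ ^ 2 = (l * mb) ^ 2 * Z := by rw [hZ]; field_simp
    have eX : (c1 * c4).re = (l * mb) ^ 2 * X := by rw [hX]; field_simp
    have e5 : a ^ 2 + ‖c1‖ ^ 2 + ‖c2‖ ^ 2 + ‖c3‖ ^ 2 + ‖c4‖ ^ 2 =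
        (l * mb) ^ 2 * (R + U + V + Z) := by
      rw [add_assoc (a ^ 2 + ‖c1‖ ^ 2), e23, ea, e1, e4]; ring
    rw [e5, hn, ea, e1, e4, eX]
    calc ((l * mb) ^ 2 * (R + U + V + Z)) ^ 2 -
          (l * mb) ^ 2 * R * ((l * mb) ^ 2 * U + (l * mb) ^ 2 * Z + 2 * ((l * mb) ^ 2 * X))
        = (l * mb) ^ 4 * ((R + U + V + Z) ^ 2 - R * (U + Z + 2 * X)) := by ring
      _ ≤ (l * mb) ^ 4 * inner' ^ 4 := mul_le_mul_of_nonneg_left halg (by positivity)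
      _ = _ := by ring
  refine (theta_bound a (by positivity) c1 c2 c3 c4 (l * mb * inner') hY hkey).trans
    (le_of_eq ?_)
  -- identification of the right hand side
  have n1 : ‖c1‖ ^ 2 = μ ^ 2 * ‖g1‖ ^ 2 := by
    rw [hc1, norm_mul, mul_pow, Complex.norm_real, Real.norm_of_nonneg hμ0.le]
  have n2 : ‖c2‖ ^ 2 = μ ^ 2 * (r ^ 2 * ‖g2‖ ^ 2) := by
    rw [hc2, norm_mul, norm_mul, mul_pow, mul_pow, Complex.norm_real, Complex.norm_real,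
      Real.norm_of_nonneg hμ0.le, Real.norm_of_nonneg hr.le]
  have n3 : ‖c3‖ ^ 2 = μ ^ 2 * (r ^ 2 * ‖b20‖ ^ 2) := by
    rw [hc3, norm_mul, norm_mul, mul_pow, mul_pow, Complex.norm_real, Complex.norm_real,
      Real.norm_of_nonneg hμ0.le, Real.norm_of_nonneg hr.le]
  have n4 : ‖c4‖ ^ 2 = μ ^ 2 * (r ^ 4 / 2 * ‖b01‖ ^ 2) := by
    have hsq : (r ^ 2 / √2) ^ 2 = r ^ 4 / 2 := by
      rw [div_pow, Real.sq_sqrt (by norm_num : (0 : ℝ) ≤ 2)]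
      ring
    rw [hc4, norm_mul, norm_mul, mul_pow, mul_pow, Complex.norm_real, Complex.norm_real,
      Real.norm_of_nonneg hμ0.le, Real.norm_of_nonneg (by positivity : 0 ≤ r ^ 2 / √2), hsq]
  have n5 : (c1 * c4).re = μ ^ 2 * (r ^ 2 / √2 * (g1 * b01).re) := by
    have : c1 * c4 = ((μ ^ 2 * (r ^ 2 / √2) : ℝ) : ℂ) * (g1 * b01) := by
      rw [hc1, hc4]; push_cast; ring
    rw [this, Complex.re_ofReal_mul]
    ring
  rw [hin, hU, hV, hZ, hX, n1, n2, n3, n4, n5]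
  field_simp
  ring

end GLB
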