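import Pool.Agent.Lib.MP_721eb4_an.LB.Gauss1

/-! Lower bound for the complex Grothendieck constant: module OneVar,
`∫ |qp|² dcg = ∑ |b|²`. -/

set_option autoImplicit false

open MeasureTheory Complex Set
open scoped ComplexConjugate ENNReal

namespace GLB

namespace OV

/-- continuous with polynomial growth -/
def PB (f : ℂ → ℂ) : Prop := Continuous f ∧ ∃ (C : ℝ) (k : ℕ), ∀ z, ‖f z‖ ≤ C * (1 + ‖z‖) ^ k

theorem PB.nonneg {f : ℂ → ℂ} {C : ℝ} {k : ℕ} (h : ∀ z, ‖f z‖ ≤ C * (1 + ‖z‖) ^ k) : 0 ≤ C := by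
  have := (norm_nonneg _).trans (h 0)
  simpa using this

theorem PB.const (c : ℂ) : PB (fun _ => c) := ⟨continuous_const, ‖c‖, 0, fun z => by simp⟩

theorem PB.id : PB (fun z => z) := ⟨continuous_id, 1, 1, fun z => by simp⟩

theorem PB.conj {f : ℂ → ℂ} (hf : PB f) : PB (fun z => conj (f z)) := by
  obtain ⟨h1, C, k, h2⟩ := hf
  exact ⟨Complex.continuous_conj.comp h1, C, k, fun z => by simpa using h2 z⟩

theorem PB.mul {f g : ℂ → ℂ} (hf : PB f) (hg : PB g) : PB (fun z => f z * g z) := by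
  obtain ⟨h1, C, k, h2⟩ := hf
  obtain ⟨h3, D, l, h4⟩ := hg
  refine ⟨h1.mul h3, C * D, k + l, fun z => ?_⟩
  rw [norm_mul, pow_add]
  calc ‖f z‖ * ‖g z‖ ≤ (C * (1 + ‖z‖) ^ k) * (D * (1 + ‖z‖) ^ l) :=
        mul_le_mul (h2 z) (h4 z) (norm_nonneg _) ((norm_nonneg _).trans (h2 z))
    _ = _ := by ring

theorem PB.add {f g : ℂ → ℂ} (hf : PB f) (hg : PB g) : PB (fun z => f z + g z) := by
  obtain ⟨h1, C, k, h2⟩ := hf
  obtain ⟨h3, D, l, h4⟩ := hg
  have hC := PB.nonneg h2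
  have hD := PB.nonneg h4
  refine ⟨h1.add h3, C + D, k + l, fun z => ?_⟩
  have h1z : (1:ℝ) ≤ 1 + ‖z‖ := by linarith [norm_nonneg z]
  have e1 : (1 + ‖z‖) ^ k ≤ (1 + ‖z‖) ^ (k + l) := pow_le_pow_right₀ h1z (by omega)
  have e2 : (1 + ‖z‖) ^ l ≤ (1 + ‖z‖) ^ (k + l) := pow_le_pow_right₀ h1z (by omega)
  calc ‖f z + g z‖ ≤ ‖f z‖ + ‖g z‖ := norm_add_le _ _
    _ ≤ C * (1 + ‖z‖) ^ k + D * (1 + ‖z‖) ^ l := add_le_add (h2 z) (h4 z)
    _ ≤ C * (1 + ‖z‖) ^ (k + l) + D * (1 + ‖z‖) ^ (k + l) :=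
        add_le_add (mul_le_mul_of_nonneg_left e1 hC) (mul_le_mul_of_nonneg_left e2 hD)
    _ = _ := by ring

theorem PB.pow {f : ℂ → ℂ} (hf : PB f) (n : ℕ) : PB (fun z => f z ^ n) := by
  induction n with
  | zero => simpa using PB.const 1
  | succ n ih => simpa [pow_succ] using ih.mul hf

theorem PB.integrable {f : ℂ → ℂ} (hf : PB f) : Integrable f cg := by
  obtain ⟨h1, C, k, h2⟩ := hf
  have hC := PB.nonneg h2
  have h3 : Integrable (fun z : ℂ => C * (2 ^ (k - 1) * (1 + ‖z‖ ^ k))) cg :=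
    (((integrable_const (1:ℝ)).add (integrable_norm_pow_cg k)).const_mul _).const_mul _
  refine h3.mono' h1.aestronglyMeasurable (ae_of_all _ fun z => (h2 z).trans ?_)
  refine mul_le_mul_of_nonneg_left ?_ hC
  have := add_pow_le zero_le_one (norm_nonneg z) k
  simpa using this

/-- `X z = |z|²` as a complex number -/
noncomputable def X (z : ℂ) : ℂ := z * conj z

theorem X_eq (z : ℂ) : X z = ((‖z‖ ^ 2 : ℝ) : ℂ) := by
  rw [X, Complex.mul_conj, Complex.normSq_eq_norm_sq]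

theorem PB_X : PB X := PB.id.mul PB.id.conj

theorem integral_norm_six_cg : ∫ z : ℂ, ‖z‖ ^ 6 ∂cg = 6 := by
  have h := integral_cg_polar (fun z : ℂ => ‖z‖ ^ 6) (by fun_prop) 1 6 (fun z => by
    rw [abs_of_nonneg (by positivity), one_mul]
    exact pow_le_pow_left₀ (norm_nonneg _) (by linarith [norm_nonneg z]) 6)
  rw [h]
  have h1 : ∀ r ∈ Ioi (0:ℝ), (2 * r * Real.exp (-r ^ 2)) *
      ((2 * Real.pi)⁻¹ * ∫ θ in (-Real.pi)..Real.pi, ‖(r : ℂ) * exp ((θ : ℂ) * I)‖ ^ 6)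
      = 2 * (r ^ (7:ℝ) * Real.exp (-1 * r ^ (2:ℝ))) := by
    intro r hr
    have hr' : (0:ℝ) < r := hr
    have h2 : ∀ θ : ℝ, ‖(r : ℂ) * exp ((θ : ℂ) * I)‖ ^ 6 = r ^ 6 := by
      intro θ
      rw [norm_mul, Complex.norm_exp_ofReal_mul_I, mul_one, Complex.norm_real, Real.norm_eq_abs,
        abs_of_pos hr']
    simp only [h2, intervalIntegral.integral_const, smul_eq_mul]
    have h7 : r ^ (7:ℝ) = r ^ 7 := by exact_mod_cast Real.rpow_natCast r 7
    have h8 : r ^ (2:ℝ) = r ^ 2 := by exact_mod_cast Real.rpow_natCast r 2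
    rw [h7, h8, show Real.pi - -Real.pi = 2 * Real.pi by ring]
    have hpi : (2 * Real.pi) ≠ 0 := by positivity
    rw [inv_mul_cancel_left₀ hpi]
    rw [show (-1 * r ^ 2 : ℝ) = -r ^ 2 by ring]
    ring
  rw [setIntegral_congr_fun measurableSet_Ioi h1, integral_const_mul,
    _root_.integral_rpow_mul_exp_neg_mul_rpow (by norm_num) (by norm_num) one_pos]
  rw [Real.one_rpow, show ((7:ℝ) + 1) / 2 = ((3:ℕ):ℝ) + 1 by norm_num,
    Real.Gamma_nat_eq_factorial]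
  norm_num [Nat.factorial]

theorem moment (k : ℕ) (c : ℝ) (h : ∫ z : ℂ, ‖z‖ ^ (2 * k) ∂cg = c) :
    ∫ z, X z ^ k ∂cg = (c : ℂ) := by
  rw [← h, ← integral_complex_ofReal]
  refine integral_congr_ae (ae_of_all _ fun z => ?_)
  simp only [X_eq]
  rw [pow_mul]; push_cast; rfl

theorem integral_poly (a b c d : ℂ) :
    ∫ z, (a + b * X z + c * X z ^ 2 + d * X z ^ 3) ∂cg = a + b + 2 * c + 6 * d := by
  have i1 : Integrable (fun _ : ℂ => a) cg := integrable_const _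
  have i2 : Integrable (fun z => b * X z) cg := ((PB.const b).mul PB_X).integrable
  have i3 : Integrable (fun z => c * X z ^ 2) cg := ((PB.const c).mul (PB_X.pow 2)).integrable
  have i4 : Integrable (fun z => d * X z ^ 3) cg := ((PB.const d).mul (PB_X.pow 3)).integrable
  have m1 : ∫ z, X z ∂cg = 1 := by
    have := moment 1 1 (by simpa using integral_norm_sq_cg)
    simpa using this
  have m2 : ∫ z, X z ^ 2 ∂cg = 2 := by
    have := moment 2 2 (by simpa using integral_norm_four_cg)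
    simpa using this
  have m3 : ∫ z, X z ^ 3 ∂cg = 6 := by
    have := moment 3 6 (by simpa using integral_norm_six_cg)
    simpa using this
  have i12 : Integrable (fun z => a + b * X z) cg := i1.add i2
  have i123 : Integrable (fun z => a + b * X z + c * X z ^ 2) cg := i12.add i3
  rw [integral_add i123 i4, integral_add i12 i3, integral_add i1 i2,
    integral_const_mul, integral_const_mul, integral_const_mul, m1, m2, m3, integral_const]
  simp
  ring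

theorem integral_eq_zero_of_rot {f : ℂ → ℂ} {w c : ℂ} (hw : ‖w‖ = 1) (hc : c ≠ 1)
    (h : ∀ z, f (w * z) = c * f z) : ∫ z, f z ∂cg = 0 := by
  have hw0 : w ≠ 0 := by rintro rfl; simp at hw
  have h1 := (measurePreserving_rot_cg w hw).integral_comp
    (Homeomorph.mulLeft₀ w hw0).measurableEmbedding f
  simp only [h] at h1
  rw [integral_const_mul] at h1
  have h2 : (c - 1) * ∫ z, f z ∂cg = 0 := by linear_combination h1
  rcases mul_eq_zero.1 h2 with h3 | h3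
  · exact absurd (sub_eq_zero.1 h3) hc
  · exact h3

/-- the orthonormal system -/
noncomputable def e : Fin 6 → ℂ → ℂ
  | 0 => fun _ => 1
  | 1 => fun z => X z - 1
  | 2 => fun z => z
  | 3 => fun z => z * (X z - 2) / ((√2 : ℝ) : ℂ)
  | 4 => fun z => conj z
  | 5 => fun z => z ^ 2 / ((√2 : ℝ) : ℂ)

/-- the eigenvalues of the rotation by `i` -/
noncomputable def chi : Fin 6 → ℂ
  | 0 => 1
  | 1 => 1
  | 2 => I
  | 3 => I
  | 4 => -I
  | 5 => -1

theorem X_rot (z : ℂ) : X (I * z) = X z := by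
  simp only [X, map_mul, conj_I]
  linear_combination (-z * conj z) * I_mul_I

theorem e_rot (i : Fin 6) (z : ℂ) : e i (I * z) = chi i * e i z := by
  fin_cases i
  · simp [e, chi]
  · simp [e, chi, X_rot]
  · simp [e, chi]
  · simp only [e, chi, X_rot]; ring
  · simp [e, chi]
  · simp only [e, chi]
    have : (I * z) ^ 2 = -1 * z ^ 2 := by rw [mul_pow, I_sq]
    rw [this]; ring

theorem PB_e (i : Fin 6) : PB (e i) := by
  fin_cases i
  · exact PB.const 1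
  · simpa [e, sub_eq_add_neg] using PB_X.add (PB.const (-1))
  · exact PB.id
  · have := (PB.id.mul (PB_X.add (PB.const (-2)))).mul (PB.const (((√2 : ℝ) : ℂ))⁻¹)
    simpa [e, sub_eq_add_neg, div_eq_mul_inv] using this
  · exact PB.id.conj
  · have := (PB.id.pow 2).mul (PB.const (((√2 : ℝ) : ℂ))⁻¹)
    simpa [e, div_eq_mul_inv] using this

theorem orth_of_chi {i j : Fin 6} (h : chi i * conj (chi j) ≠ 1) :
    ∫ z, e i z * conj (e j z) ∂cg = 0 := by
  refine integral_eq_zero_of_rot (w := I) (by simp) h fun z => ?_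
  rw [e_rot, e_rot, map_mul]; ring

theorem s2 : ((√2 : ℝ) : ℂ) * ((√2 : ℝ) : ℂ) = 2 := by
  rw [← ofReal_mul, Real.mul_self_sqrt (by norm_num)]; norm_num

theorem s2' : ((√2 : ℝ) : ℂ) ≠ 0 := by
  intro h
  have := s2
  rw [h] at this
  norm_num at this

theorem conj_X (z : ℂ) : conj (X z) = X z := by
  rw [X_eq, conj_ofReal]

theorem key {i j : Fin 6} (a b c d : ℂ)
    (h : ∀ z, e i z * conj (e j z) = a + b * X z + c * X z ^ 2 + d * X z ^ 3) :
    ∫ z, e i z * conj (e j z) ∂cg = a + b + 2 * c + 6 * d := by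
  rw [← integral_poly]
  exact integral_congr_ae (ae_of_all _ h)

theorem hinv : (((√2 : ℝ) : ℂ))⁻¹ * (((√2 : ℝ) : ℂ))⁻¹ = 1 / 2 := by
  rw [← mul_inv, s2]; norm_num

theorem o00 : ∫ z, e 0 z * conj (e 0 z) ∂cg = 1 := by
  refine (key 1 0 0 0 fun z => by simp [e]).trans ?_
  norm_num

theorem o01 : ∫ z, e 0 z * conj (e 1 z) ∂cg = 0 := by
  refine (key (-1) 1 0 0 fun z => by simp [e, conj_X]; ring).trans ?_
  norm_num

theorem o10 : ∫ z, e 1 z * conj (e 0 z) ∂cg = 0 := by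
  refine (key (-1) 1 0 0 fun z => by simp [e]; ring).trans ?_
  norm_num

theorem o11 : ∫ z, e 1 z * conj (e 1 z) ∂cg = 1 := by
  refine (key 1 (-2) 1 0 fun z => by simp [e, conj_X]; ring).trans ?_
  norm_num

theorem o22 : ∫ z, e 2 z * conj (e 2 z) ∂cg = 1 := by
  refine (key 0 1 0 0 fun z => by simp [e, X]).trans ?_
  norm_num

theorem o23 : ∫ z, e 2 z * conj (e 3 z) ∂cg = 0 := by
  refine (key 0 (-2 * (((√2 : ℝ) : ℂ))⁻¹) (((√2 : ℝ) : ℂ))⁻¹ 0 fun z => ?_).trans ?_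
  · simp only [e, map_mul, map_sub, map_div₀, conj_X, conj_ofReal, map_ofNat]
    have : z * (conj z * (X z - 2) / ((√2 : ℝ) : ℂ)) = X z * (X z - 2) / ((√2 : ℝ) : ℂ) := by
      simp only [X]; ring
    rw [this]; ring
  · ring

theorem o32 : ∫ z, e 3 z * conj (e 2 z) ∂cg = 0 := by
  refine (key 0 (-2 * (((√2 : ℝ) : ℂ))⁻¹) (((√2 : ℝ) : ℂ))⁻¹ 0 fun z => ?_).trans ?_
  · simp only [e]
    have : z * (X z - 2) / ((√2 : ℝ) : ℂ) * conj z = X z * (X z - 2) / ((√2 : ℝ) : ℂ) := by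
      simp only [X]; ring
    rw [this]; ring
  · ring

theorem o33 : ∫ z, e 3 z * conj (e 3 z) ∂cg = 1 := by
  refine (key 0 2 (-2) (1 / 2) fun z => ?_).trans ?_
  · simp only [e, map_mul, map_sub, map_div₀, conj_X, conj_ofReal, map_ofNat]
    have : z * (X z - 2) / ((√2 : ℝ) : ℂ) * (conj z * (X z - 2) / ((√2 : ℝ) : ℂ)) =
      (z * conj z) * (X z - 2) ^ 2 * ((((√2 : ℝ) : ℂ))⁻¹ * (((√2 : ℝ) : ℂ))⁻¹) := by
      ring
    rw [this, hinv, show z * conj z = X z from rfl]; ring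
  · norm_num

theorem o44 : ∫ z, e 4 z * conj (e 4 z) ∂cg = 1 := by
  refine (key 0 1 0 0 fun z => by simp [e, X]; ring).trans ?_
  norm_num

theorem o55 : ∫ z, e 5 z * conj (e 5 z) ∂cg = 1 := by
  refine (key 0 0 (1 / 2) 0 fun z => ?_).trans ?_
  · simp only [e, map_pow, map_div₀, conj_ofReal]
    have : z ^ 2 / ((√2 : ℝ) : ℂ) * (conj z ^ 2 / ((√2 : ℝ) : ℂ)) =
      (z * conj z) ^ 2 * ((((√2 : ℝ) : ℂ))⁻¹ * (((√2 : ℝ) : ℂ))⁻¹) := by
      ring
    rw [this, hinv, show z * conj z = X z from rfl]; ring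
  · norm_num

theorem chi_ne (i j : Fin 6) (hij : i ≠ j)
    (h : ¬ ((i = 0 ∧ j = 1) ∨ (i = 1 ∧ j = 0) ∨ (i = 2 ∧ j = 3) ∨ (i = 3 ∧ j = 2))) :
    chi i * conj (chi j) ≠ 1 := by
  fin_cases i <;> fin_cases j <;> first
    | (exfalso; revert hij h; decide)
    | (simp [chi, Complex.ext_iff]; done)
    | (simp [chi, Complex.ext_iff]; norm_num)

theorem orthonormal (i j : Fin 6) :
    ∫ z, e i z * conj (e j z) ∂cg = if i = j then 1 else 0 := by
  by_cases hij : i = j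
  · subst hij
    rw [if_pos rfl]
    fin_cases i
    exacts [o00, o11, o22, o33, o44, o55]
  · rw [if_neg hij]
    by_cases h : (i = 0 ∧ j = 1) ∨ (i = 1 ∧ j = 0) ∨ (i = 2 ∧ j = 3) ∨ (i = 3 ∧ j = 2)
    · rcases h with ⟨rfl, rfl⟩ | ⟨rfl, rfl⟩ | ⟨rfl, rfl⟩ | ⟨rfl, rfl⟩
      exacts [o01, o10, o23, o32]
    · exact orth_of_chi (chi_ne i j hij h)

theorem qp_eq (b1 b10 b11 b0 b20 b01 z : ℂ) :
    qp b1 b10 b11 b0 b20 b01 z = ∑ i : Fin 6, ![b1, b10, b11, b0, b20, b01] i * e i z := by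
  simp only [qp, Fin.sum_univ_six, e, X_eq]
  simp

end OV

open OV in
theorem integral_qp_sq (b1 b10 b11 b0 b20 b01 : ℂ) :
    ∫ z, ‖qp b1 b10 b11 b0 b20 b01 z‖ ^ 2 ∂cg
      = ‖b1‖ ^ 2 + ‖b10‖ ^ 2 + ‖b11‖ ^ 2 + ‖b0‖ ^ 2 + ‖b20‖ ^ 2 + ‖b01‖ ^ 2 := by
  have h0 : (((∫ z, ‖qp b1 b10 b11 b0 b20 b01 z‖ ^ 2 ∂cg : ℝ)) : ℂ) =
      ∑ i : Fin 6, ∑ j : Fin 6, (![b1, b10, b11, b0, b20, b01] i *
        conj (![b1, b10, b11, b0, b20, b01] j)) * if i = j then 1 else 0 := by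
    rw [← integral_complex_ofReal]
    have h1 : ∀ z, ((‖qp b1 b10 b11 b0 b20 b01 z‖ ^ 2 : ℝ) : ℂ) =
        ∑ i : Fin 6, ∑ j : Fin 6, (![b1, b10, b11, b0, b20, b01] i *
        conj (![b1, b10, b11, b0, b20, b01] j)) * (e i z * conj (e j z)) := by
      intro z
      rw [← X_eq, X, qp_eq, map_sum, Finset.sum_mul_sum]
      refine Finset.sum_congr rfl fun i _ => Finset.sum_congr rfl fun j _ => ?_
      rw [map_mul]; ring
    have hint : ∀ i j : Fin 6, Integrable (fun z => (![b1, b10, b11, b0, b20, b01] i *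
        conj (![b1, b10, b11, b0, b20, b01] j)) * (e i z * conj (e j z))) cg := fun i j =>
      ((PB.const _).mul ((PB_e i).mul (PB_e j).conj)).integrable
    calc ∫ z, ((‖qp b1 b10 b11 b0 b20 b01 z‖ ^ 2 : ℝ) : ℂ) ∂cg
        = ∫ z, ∑ i : Fin 6, ∑ j : Fin 6, (![b1, b10, b11, b0, b20, b01] i *
          conj (![b1, b10, b11, b0, b20, b01] j)) * (e i z * conj (e j z)) ∂cg :=
          integral_congr_ae (ae_of_all _ h1)
      _ = ∑ i : Fin 6, ∑ j : Fin 6, ∫ z, (![b1, b10, b11, b0, b20, b01] i *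
          conj (![b1, b10, b11, b0, b20, b01] j)) * (e i z * conj (e j z)) ∂cg := by
          rw [integral_finsetSum _ fun i _ => integrable_finsetSum _ fun j _ => hint i j]
          refine Finset.sum_congr rfl fun i _ => ?_
          rw [integral_finsetSum _ fun j _ => hint i j]
      _ = _ := by
          refine Finset.sum_congr rfl fun i _ => Finset.sum_congr rfl fun j _ => ?_
          rw [integral_const_mul, orthonormal]
  have h2 : (((∫ z, ‖qp b1 b10 b11 b0 b20 b01 z‖ ^ 2 ∂cg : ℝ)) : ℂ) =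
      ((‖b1‖ ^ 2 + ‖b10‖ ^ 2 + ‖b11‖ ^ 2 + ‖b0‖ ^ 2 + ‖b20‖ ^ 2 + ‖b01‖ ^ 2 : ℝ) : ℂ) := by
    rw [h0]
    simp only [mul_ite, mul_one, mul_zero, Finset.sum_ite_eq, Finset.mem_univ, if_true]
    simp only [Fin.sum_univ_six]
    push_cast
    have hX : ∀ z : ℂ, z * conj z = (‖z‖ : ℂ) ^ 2 := fun z => by
      have := X_eq z
      rw [X] at this
      rw [this]; push_cast; rfl
    simp [hX]
  exact_mod_cast h2

end GLB
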