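import Pool.Agent.Lib.MP_721eb4_an.LB.PieceB
import Pool.Agent.Lib.MP_721eb4_an.LB.OneVar

set_option autoImplicit false

open MeasureTheory Complex Set
open scoped ComplexConjugate ENNReal

namespace GLB

theorem sqrt_pi_le : √Real.pi ≤ 17724541 / 10000000 := by
  rw [Real.sqrt_le_left (by norm_num)]
  have := Real.pi_lt_d6
  norm_num at *
  linarith

theorem sqrt_pi_ge : 17724530 / 10000000 ≤ √Real.pi := by
  apply Real.le_sqrt_of_sq_le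
  have := Real.pi_gt_d6
  norm_num at *
  linarith

/-- closed form of `∫ redf` -/
noncomputable def redI (s q0 q1 q2 q3 : ℝ) : ℝ :=
      (let u0 := (1 + 3 / 20 * s ^ 2 / DD s) / DD s
       let u1 := -1 / (s * DD s)
       let u2 := -(3 / 20) / DD s ^ 2
       2 * q0 * u0 * s + 2 * q0 * u1 * s ^ 2 / 2 + 2 * ((q1 - q0) * u0 + q0 * u2) * s ^ 3 / 3
        + 2 * (q1 - q0) * u1 * s ^ 4 / 4 + 2 * ((q2 - q1) * u0 + (q1 - q0) * u2) * s ^ 5 / 5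
        + 2 * (q2 - q1) * u1 * s ^ 6 / 6 + 2 * ((q3 - q2) * u0 + (q2 - q1) * u2) * s ^ 7 / 7
        + 2 * (q3 - q2) * u1 * s ^ 8 / 8 + 2 * (-q3 * u0 + (q3 - q2) * u2) * s ^ 9 / 9
        + 2 * (-q3) * u1 * s ^ 10 / 10 + 2 * (-q3) * u2 * s ^ 11 / 11)

/-- closed form of `∫ costf` -/
noncomputable def costI (s : ℝ) : ℝ :=
      (let h0 := 25 / 16 * mm s
       let h2 := 343 / 1600 / mm s
       let h4 := 147 / 1600 / mm s
       let h6 := 63 / 6400 / mm s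
       2 * h0 * s ^ 2 / 2 + 2 * (-7 / 5) * s ^ 3 / 3 + 2 * (h2 - h0) * s ^ 4 / 4
        + 2 * (-3 / 10 + 7 / 5) * s ^ 5 / 5 + 2 * (h4 - h2 + h0 / 2) * s ^ 6 / 6
        + 2 * (3 / 10 - 7 / 10) * s ^ 7 / 7 + 2 * (h6 - h4 + h2 / 2) * s ^ 8 / 8
        + 2 * (-3 / 20) * s ^ 9 / 9 + 2 * (-h6 + h4 / 2) * s ^ 10 / 10
        + h6 * s ^ 12 / 12)

noncomputable def cK (q0 q1 q2 q3 : ℝ) : ℝ :=
  (20 / 7 * q0) / 2 + (20 / 7 * q1 - 72 / 125 * q0) / 4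
        + 3 / 8 * (20 / 7 * q2 - 72 / 125 * q1 + 19 / 250 * q0)
        + 15 / 16 * (20 / 7 * q3 - 72 / 125 * q2 + 19 / 250 * q1)
        + 105 / 32 * (19 / 250 * q2 - 72 / 125 * q3) + 945 / 64 * (19 / 250 * q3)

theorem K_le' (s q0 q1 q2 q3 : ℝ) (hs : 0 < s) (hs1 : s ≤ 1)
    (hq : ∀ r, 0 ≤ qq q0 q1 q2 q3 r) :
    ∫ r in Ioi (0 : ℝ), wt r * (qq q0 q1 q2 q3 r / mb s r) ≤
      √Real.pi * cK q0 q1 q2 q3 - redI s q0 q1 q2 q3 := by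
  have h := K_le s q0 q1 q2 q3 hs hs1 hq
  rw [redf_int] at h
  exact h

theorem piece_num (s l A : ℝ) (hs : 0 < s) (hs1 : s ≤ 1) (hl : 0 < l)
    (hA : 37 / 40 * √Real.pi + costI s ≤ A)
    (h1 : 256 / 625 * (√Real.pi * cK 1 0 0 0 - redI s 1 0 0 0) ≤ l)
    (h3 : 352 / 625 * (√Real.pi * cK 1 (-2) 1 0 - redI s 1 (-2) 1 0) ≤ l)
    (h4 : 16 / 25 * (√Real.pi * cK 0 1 0 0 - redI s 0 1 0 0) ≤ l)
    (h6 : 16 / 25 * (√Real.pi * cK 0 2 (-2) (1 / 2) - redI s 0 2 (-2) (1 / 2)) ≤ l)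
    (h7 : 328 / 375 * (√Real.pi * cK 0 0 (1 / 2) 0 - redI s 0 0 (1 / 2) 0) ≤ l) :
    ∃ η₁ η₂ η₃ : ℝ, ∀ b1 b10 b11 b0 b20 b01 : ℂ,
    ∫ z, (‖af l (3 / 20) z + ((16 / 25 : ℝ) : ℂ) * qp b1 b10 b11 b0 b20 b01 z‖
        + ‖af l (3 / 20) z - ((16 / 25 : ℝ) : ℂ) * qp b1 b10 b11 b0 b20 b01 z‖) ∂cg
      ≤ l * A
        + (16 / 25) * (‖b1‖ ^ 2 + ‖b10‖ ^ 2 + ‖b11‖ ^ 2 + ‖b0‖ ^ 2 + ‖b20‖ ^ 2 + ‖b01‖ ^ 2)
        + η₁ * (b1 * conj b10).re + η₂ * (b1 * b01).re + η₃ * (b11 * conj b0).re := by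
  refine piece s l hs hs1 hl A ?_ ?_ ?_ ?_ ?_ ?_
  · have h := A_le s hs hs1
    rw [costf_int s hs] at h
    exact h.trans hA
  · refine le_trans (mul_le_mul_of_nonneg_left (K_le' s 1 0 0 0 hs hs1 ?_) (by norm_num)) h1
    intro r; unfold qq; norm_num
  · refine le_trans (mul_le_mul_of_nonneg_left (K_le' s 1 (-2) 1 0 hs hs1 ?_) (by norm_num)) h3
    intro r; unfold qq; nlinarith [sq_nonneg (r ^ 2 - 1)]
  · refine le_trans (mul_le_mul_of_nonneg_left (K_le' s 0 1 0 0 hs hs1 ?_) (by norm_num)) h4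
    intro r; unfold qq; nlinarith [sq_nonneg r]
  · refine le_trans (mul_le_mul_of_nonneg_left (K_le' s 0 2 (-2) (1 / 2) hs hs1 ?_)
      (by norm_num)) h6
    intro r; unfold qq
    have : (0 : ℝ) ≤ r ^ 2 * (r ^ 2 - 2) ^ 2 / 2 := by positivity
    nlinarith [this]
  · refine le_trans (mul_le_mul_of_nonneg_left (K_le' s 0 0 (1 / 2) 0 hs hs1 ?_)
      (by norm_num)) h7
    intro r; unfold qq
    have : (0 : ℝ) ≤ r ^ 4 := by positivity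
    nlinarith [this]

/-- the numerical conditions -/
def Num (s l A : ℝ) : Prop :=
    37 / 40 * √Real.pi + costI s ≤ A ∧
    256 / 625 * (√Real.pi * cK 1 0 0 0 - redI s 1 0 0 0) ≤ l ∧
    352 / 625 * (√Real.pi * cK 1 (-2) 1 0 - redI s 1 (-2) 1 0) ≤ l ∧
    16 / 25 * (√Real.pi * cK 0 1 0 0 - redI s 0 1 0 0) ≤ l ∧
    16 / 25 * (√Real.pi * cK 0 2 (-2) (1 / 2) - redI s 0 2 (-2) (1 / 2)) ≤ l ∧
    328 / 375 * (√Real.pi * cK 0 0 (1 / 2) 0 - redI s 0 0 (1 / 2) 0) ≤ l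

theorem num_a : Num (18 / 100) (849 / 1000) (16414 / 10000) := by
  have h1 := sqrt_pi_le
  have h2 := sqrt_pi_ge
  refine ⟨?_, ?_, ?_, ?_, ?_, ?_⟩ <;>
    simp only [costI, cK, redI, DD, mm] <;> norm_num <;> nlinarith

theorem num_b : Num (3 / 10) (78 / 100) (16481 / 10000) := by
  have h1 := sqrt_pi_le
  have h2 := sqrt_pi_ge
  refine ⟨?_, ?_, ?_, ?_, ?_, ?_⟩ <;> 
    simp only [costI, cK, redI, DD, mm] <;> norm_num <;> nlinarith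

theorem num_c : Num (6 / 10) (619 / 1000) (17096 / 10000) := by
  have h1 := sqrt_pi_le
  have h2 := sqrt_pi_ge
  refine ⟨?_, ?_, ?_, ?_, ?_, ?_⟩ <;> 
    simp only [costI, cK, redI, DD, mm] <;> norm_num <;> nlinarith

end GLB
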