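import Mathlib

/-! Lower bound for the complex Grothendieck constant: common definitions. -/

set_option autoImplicit false

open MeasureTheory Complex
open scoped ComplexConjugate

namespace GLB

/-- The standard complex Gaussian measure on `ℂ`: density `exp (-|z|^2) / π`. -/
noncomputable def cg : Measure ℂ :=
  (volume : Measure ℂ).withDensity (fun z => ENNReal.ofReal (Real.exp (-‖z‖ ^ 2) / Real.pi))

/-- `ℂ^n` with the Euclidean norm. -/
abbrev E (n : ℕ) : Type := EuclideanSpace ℂ (Fin n)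

/-- The standard complex Gaussian measure on `ℂ^n`. -/
noncomputable def G (n : ℕ) : Measure (E n) :=
  (Measure.pi (fun _ : Fin n => cg)).map (WithLp.toLp 2)

/-- The Hermite polynomials of type `(2,1)`. -/
noncomputable def Hp {n : ℕ} (i j k : Fin n) (z : E n) : ℂ :=
  z i * z j * conj (z k) - (if j = k then z i else 0) - (if i = k then z j else 0)

open Classical in
/-- The class in `L²` of a function (`0` if it is not in `L²`). -/
noncomputable def cl {n : ℕ} (f : E n → ℂ) : Lp ℂ 2 (G n) :=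
  if h : MemLp f 2 (G n) then h.toLp f else 0

/-- The first chaos. -/
noncomputable def S0 (n : ℕ) : Submodule ℂ (Lp ℂ 2 (G n)) :=
  Submodule.span ℂ (Set.range (fun i : Fin n => cl (fun z : E n => z i)))

/-- The chaos of type `(2,1)`. -/
noncomputable def S1 (n : ℕ) : Submodule ℂ (Lp ℂ 2 (G n)) :=
  Submodule.span ℂ (Set.range (fun t : Fin n × Fin n × Fin n => cl (Hp t.1 t.2.1 t.2.2)))

instance (n : ℕ) : FiniteDimensional ℂ (S0 n) :=
  FiniteDimensional.span_of_finite ℂ (Set.finite_range _)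

instance (n : ℕ) : FiniteDimensional ℂ (S1 n) :=
  FiniteDimensional.span_of_finite ℂ (Set.finite_range _)

/-- The operator `P₀ - μ P₁`. -/
noncomputable def T (μ : ℝ) (n : ℕ) : Lp ℂ 2 (G n) →L[ℂ] Lp ℂ 2 (G n) :=
  (S0 n).starProjection - (μ : ℂ) • (S1 n).starProjection

/-- The general element of the span of `1, |z|²-1, z, z(|z|²-2)/√2, z̄, z²/√2`. -/
noncomputable def qp (b1 b10 b11 b0 b20 b01 z : ℂ) : ℂ :=
  b1 + b10 * ((‖z‖ ^ 2 - 1 : ℝ) : ℂ) + b11 * z + b0 * (z * ((‖z‖ ^ 2 - 2 : ℝ) : ℂ) / ((√2 : ℝ) : ℂ))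
    + b20 * conj z + b01 * (z ^ 2 / ((√2 : ℝ) : ℂ))

/-- The function `λ z (1 + β (|z|² - 2))`. -/
noncomputable def af (l β : ℝ) (z : ℂ) : ℂ :=
  ((l : ℝ) : ℂ) * z * ((1 + β * (‖z‖ ^ 2 - 2) : ℝ) : ℂ)

/-- The one-variable inequality which is the heart of the matter. -/
def One (μ V : ℝ) : Prop :=
  ∀ c : ℝ, 0 ≤ c → c ≤ 1 → ∃ l β η₁ η₂ η₃ : ℝ, ∀ b1 b10 b11 b0 b20 b01 : ℂ,
    ∫ z, (‖af l β z + (μ : ℂ) * qp b1 b10 b11 b0 b20 b01 z‖
        + ‖af l β z - (μ : ℂ) * qp b1 b10 b11 b0 b20 b01 z‖) ∂cg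
      ≤ V - c ^ 2 + 2 * c * l - 2 * l ^ 2 * β ^ 2 / μ
        + μ * (‖b1‖ ^ 2 + ‖b10‖ ^ 2 + ‖b11‖ ^ 2 + ‖b0‖ ^ 2 + ‖b20‖ ^ 2 + ‖b01‖ ^ 2)
        + η₁ * (b1 * conj b10).re + η₂ * (b1 * b01).re + η₃ * (b11 * conj b0).re

/-- The set of admissible constants in the complex Grothendieck inequality. -/
def KSet : Set ℝ := {K : ℝ | ∀ (n m : ℕ) (a : Matrix (Fin n) (Fin n) ℂ),
      (∀ s t : Fin n → ℂ, (∀ i, ‖s i‖ ≤ 1) → (∀ j, ‖t j‖ ≤ 1) →
        ‖∑ i, ∑ j, a i j * s i * t j‖ ≤ 1) →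
      ∀ x y : Fin n → EuclideanSpace ℂ (Fin m), (∀ i, ‖x i‖ ≤ 1) → (∀ j, ‖y j‖ ≤ 1) →
        ‖∑ i, ∑ j, a i j * inner ℂ (x i) (y j)‖ ≤ K}

end GLB
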