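import Pool.Agent.Lib.MP_721eb4_an.LB.GaussN

/-! Lower bound for the complex Grothendieck constant: module Moments,
second and fourth moments of the complex Gaussian measure on `ℂ^n`. -/

set_option autoImplicit false

open MeasureTheory Complex Set
open scoped ComplexConjugate ENNReal

namespace GLB

namespace Mom

/-- independence of the coordinates -/
theorem integral_prod_G {𝕜 : Type*} [RCLike 𝕜] (n : ℕ) (f : Fin n → ℂ → 𝕜) :
    ∫ z : E n, ∏ a, f a (z a) ∂(G n) = ∏ a, ∫ z, f a z ∂cg := by
  rw [← integral_fintype_prod_eq_prod (μ := fun _ : Fin n => cg) (f := f)]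
  exact (MeasurePreserving.integral_comp (measurePreserving_toLp_G n)
    (MeasurableEquiv.toLp 2 (Fin n → ℂ)).measurableEmbedding (fun z : E n => ∏ a, f a (z a))).symm

theorem rot_zero {f : ℂ → ℂ} {w c : ℂ} (hw : ‖w‖ = 1) (hc : c ≠ 1)
    (h : ∀ z, f (w * z) = c * f z) : ∫ z, f z ∂cg = 0 := by
  have hw0 : w ≠ 0 := by rintro rfl; simp at hw
  have h1 := (measurePreserving_rot_cg w hw).integral_comp
    (Homeomorph.mulLeft₀ w hw0).measurableEmbedding f
  simp only [h] at h1
  rw [integral_const_mul] at h1
  have h2 : (c - 1) * ∫ z, f z ∂cg = 0 := by linear_combination h1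
  rcases mul_eq_zero.1 h2 with h3 | h3
  · exact absurd (sub_eq_zero.1 h3) hc
  · exact h3

theorem second (n : ℕ) (i : Fin n) : ∫ z : E n, ‖z i‖ ^ 2 ∂(G n) = 1 := by
  rw [← integral_norm_sq_cg]
  exact MeasureTheory.integral_map (measurePreserving_coord n i).measurable.aemeasurable
    (f := fun z : ℂ => ‖z‖ ^ 2) (by fun_prop) |>.symm.trans
    (by rw [(measurePreserving_coord n i).map_eq])

theorem fourth (n : ℕ) (i j : Fin n) :
    ∫ z : E n, ‖z i‖ ^ 2 * ‖z j‖ ^ 2 ∂(G n) = if i = j then 2 else 1 := by
  split_ifs with hij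
  · subst hij
    rw [← integral_norm_four_cg]
    have h : ∀ z : E n, ‖z i‖ ^ 2 * ‖z i‖ ^ 2 = ‖z i‖ ^ 4 := fun z => by ring
    simp only [h]
    exact MeasureTheory.integral_map (measurePreserving_coord n i).measurable.aemeasurable
      (f := fun z : ℂ => ‖z‖ ^ 4) (by fun_prop) |>.symm.trans
      (by rw [(measurePreserving_coord n i).map_eq])
  · have h : ∀ z : E n, ‖z i‖ ^ 2 * ‖z j‖ ^ 2 =
        ∏ a, ((if a = i then ‖z a‖ ^ 2 else 1) * (if a = j then ‖z a‖ ^ 2 else 1)) := by
      intro z
      rw [Finset.prod_mul_distrib]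
      simp
    simp only [h]
    rw [integral_prod_G n (fun a z => (if a = i then ‖z‖ ^ 2 else 1) *
      (if a = j then ‖z‖ ^ 2 else 1))]
    refine Finset.prod_eq_one fun a _ => ?_
    by_cases h1 : a = i
    · have h2 : a ≠ j := fun h => hij (h1.symm.trans h)
      simp only [h1, hij, if_true, if_false, mul_one]
      exact integral_norm_sq_cg
    · by_cases h2 : a = j
      · have h3 : ¬ j = i := fun h => hij h.symm
        subst h2
        simp only [h3, if_true, if_false, one_mul]
        exact integral_norm_sq_cg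
      · simp [h1, h2]

end Mom

open Mom

theorem integral_coord_mul_conj (n : ℕ) (i j : Fin n) :
    ∫ z : E n, z i * conj (z j) ∂(G n) = if i = j then 1 else 0 := by
  split_ifs with hij
  · subst hij
    have h : ∀ z : E n, z i * conj (z i) = ((‖z i‖ ^ 2 : ℝ) : ℂ) := fun z => by
      rw [Complex.mul_conj, Complex.normSq_eq_norm_sq]
    simp only [h]
    rw [integral_complex_ofReal, second]; simp
  · have h : ∀ z : E n, z i * conj (z j) =
        ∏ a, ((if a = i then z a else 1) * (if a = j then conj (z a) else 1)) := by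
      intro z
      rw [Finset.prod_mul_distrib]
      simp
    simp only [h]
    rw [integral_prod_G n (fun a z => (if a = i then z else 1) * (if a = j then conj z else 1))]
    refine Finset.prod_eq_zero (Finset.mem_univ i) ?_
    refine rot_zero (w := -1) (c := -1) (by simp) (by norm_num) fun z => ?_
    simp [hij]

namespace Mom

/-- Wick's formula for the fourth moments -/
theorem wick (n : ℕ) (i j k l : Fin n) :
    ∫ z : E n, z i * z j * conj (z k) * conj (z l) ∂(G n) =
      (if i = k ∧ j = l then 1 else 0) + (if i = l ∧ j = k then 1 else 0) := by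
  have hpair : ∀ i j : Fin n, ∫ z : E n, z i * z j * conj (z i) * conj (z j) ∂(G n) =
      if i = j then 2 else 1 := by
    intro i j
    have h : ∀ z : E n, z i * z j * conj (z i) * conj (z j) =
        ((‖z i‖ ^ 2 * ‖z j‖ ^ 2 : ℝ) : ℂ) := fun z => by
      rw [ofReal_mul, ← Complex.normSq_eq_norm_sq, ← Complex.normSq_eq_norm_sq,
        ← Complex.mul_conj, ← Complex.mul_conj]
      ring
    simp only [h]
    rw [integral_complex_ofReal, fourth]
    split_ifs <;> simp
  by_cases h1 : i = k ∧ j = l
  · obtain ⟨rfl, rfl⟩ := h1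
    rw [hpair]
    by_cases h2 : i = j
    · subst h2; simp; norm_num
    · have h3 : ¬ (i = j ∧ j = i) := fun h => h2 h.1
      simp [h2]
  by_cases h2 : i = l ∧ j = k
  · obtain ⟨rfl, rfl⟩ := h2
    have h3 : ∀ z : E n, z i * z j * conj (z j) * conj (z i) =
      z i * z j * conj (z i) * conj (z j) := fun z => by ring
    simp only [h3]
    rw [hpair]
    have h4 : i ≠ j := fun h => h1 ⟨h, h.symm⟩
    simp [h4]
  rw [if_neg h1, if_neg h2, add_zero]
  -- a coordinate with a nontrivial phase
  have h : ∀ z : E n, z i * z j * conj (z k) * conj (z l) =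
      ∏ a, ((if a = i then z a else 1) * (if a = j then z a else 1) *
        (if a = k then conj (z a) else 1) * (if a = l then conj (z a) else 1)) := by
    intro z
    rw [Finset.prod_mul_distrib, Finset.prod_mul_distrib, Finset.prod_mul_distrib]
    simp
  simp only [h]
  rw [integral_prod_G n (fun a z => (if a = i then z else 1) * (if a = j then z else 1) *
        (if a = k then conj z else 1) * (if a = l then conj z else 1))]
  have hI : I ≠ 1 := by
    intro h; have := congrArg Complex.re h; norm_num at this
  have hI' : -I ≠ 1 := by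
    intro h; have := congrArg Complex.re h; norm_num at this
  have hm1 : (-1 : ℂ) ≠ 1 := by norm_num
  have rot : ∀ a : Fin n, ((if a = i then I else 1) * (if a = j then I else 1) *
        (if a = k then -I else 1) * (if a = l then -I else 1) : ℂ) ≠ 1 →
      ∫ z, ((if a = i then z else 1) * (if a = j then z else 1) *
        (if a = k then conj z else 1) * (if a = l then conj z else 1) : ℂ) ∂cg = 0 := by
    intro a ha
    refine rot_zero (w := I) (by simp) ha fun z => ?_
    simp only [map_mul, conj_I]
    split_ifs <;> ring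
  by_cases hi : i = k ∨ i = l
  · by_cases hj : j = k ∨ j = l
    · -- then i = j and the other one is free
      by_cases hk : k = i
      · have hli : l ≠ i := by
          rintro rfl
          rcases hj with hj | hj
          · exact h1 ⟨hk.symm, hj.trans hk⟩
          · exact h1 ⟨hk.symm, hj⟩
        have hlj : l ≠ j := fun h => h1 ⟨hk.symm, h.symm⟩
        have hlk : l ≠ k := fun h => hli (h.trans hk)
        refine Finset.prod_eq_zero (Finset.mem_univ l) (rot l ?_)
        simpa [hli, hlj, hlk] using hI'
      · have hil : i = l := hi.resolve_left fun h => hk h.symm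
        have hkj : k ≠ j := fun h => h2 ⟨hil, h.symm⟩
        have hkl : k ≠ l := fun h => hk (h.trans hil.symm)
        refine Finset.prod_eq_zero (Finset.mem_univ k) (rot k ?_)
        simpa [hk, hkj, hkl] using hI'
    · push Not at hj
      refine Finset.prod_eq_zero (Finset.mem_univ j) (rot j ?_)
      by_cases hji : j = i
      · subst hji
        simpa [hj.1, hj.2] using hm1
      · simpa [hji, hj.1, hj.2] using hI
  · push Not at hi
    refine Finset.prod_eq_zero (Finset.mem_univ i) (rot i ?_)
    by_cases hij : i = j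
    · subst hij
      simpa [hi.1, hi.2] using hm1
    · simpa [hij, hi.1, hi.2] using hI

theorem integrable_coord_mul_conj (n : ℕ) (i j : Fin n) :
    Integrable (fun z : E n => z i * conj (z j)) (G n) :=
  memLp_one_iff_integrable.1 (memLp_prod2' n i j 1 (by simp))

theorem integrable_four (n : ℕ) (i j k l : Fin n) :
    Integrable (fun z : E n => z i * z j * conj (z k) * conj (z l)) (G n) := by
  have := (memLp_prod2' n i k 2 (by simp)).integrable_mul (memLp_prod2' n j l 2 (by simp))
  refine this.congr (ae_of_all _ fun z => ?_)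
  simp only [Pi.mul_apply]
  ring

theorem integrable_sq (n : ℕ) (i : Fin n) : Integrable (fun z : E n => ‖z i‖ ^ 2) (G n) := by
  refine (integrable_coord_mul_conj n i i).norm.congr (ae_of_all _ fun z => ?_)
  simp only [norm_mul, RCLike.norm_conj]
  ring

theorem integrable_sq_sq (n : ℕ) (i j : Fin n) :
    Integrable (fun z : E n => ‖z i‖ ^ 2 * ‖z j‖ ^ 2) (G n) := by
  refine (integrable_four n i j i j).norm.congr (ae_of_all _ fun z => ?_)
  simp only [norm_mul, RCLike.norm_conj]
  ring

end Mom

theorem integral_Hp_mul_conj (n : ℕ) (i j k l : Fin n) :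
    ∫ z : E n, Hp i j k z * conj (z l) ∂(G n) = 0 := by
  have h : ∀ z : E n, Hp i j k z * conj (z l) = z i * z j * conj (z k) * conj (z l) -
      (if j = k then 1 else 0) * (z i * conj (z l)) -
      (if i = k then 1 else 0) * (z j * conj (z l)) := by
    intro z
    simp only [Hp]
    split_ifs <;> ring
  simp only [h]
  have i1 := integrable_four n i j k l
  have i2 : Integrable (fun z : E n => (if j = k then (1:ℂ) else 0) * (z i * conj (z l))) (G n) :=
    (integrable_coord_mul_conj n i l).const_mul _
  have i3 : Integrable (fun z : E n => (if i = k then (1:ℂ) else 0) * (z j * conj (z l))) (G n) :=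
    (integrable_coord_mul_conj n j l).const_mul _
  have i12 : Integrable (fun z : E n => z i * z j * conj (z k) * conj (z l) -
      (if j = k then (1:ℂ) else 0) * (z i * conj (z l))) (G n) := i1.sub i2
  rw [integral_sub i12 i3, integral_sub i1 i2, integral_const_mul, integral_const_mul,
    wick, integral_coord_mul_conj, integral_coord_mul_conj]
  have hand : ∀ (P Q : Prop) [Decidable P] [Decidable Q],
      (if P ∧ Q then (1:ℂ) else 0) = (if P then 1 else 0) * (if Q then 1 else 0) := by
    intro P Q _ _
    by_cases hP : P <;> by_cases hQ : Q <;> simp [hP, hQ]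
  rw [hand, hand]
  ring

theorem integral_norm_sq_G (n : ℕ) : ∫ z : E n, ‖z‖ ^ 2 ∂(G n) = n := by
  simp only [EuclideanSpace.norm_sq_eq]
  rw [integral_finsetSum _ fun i _ => integrable_sq n i]
  simp [second]

theorem integral_norm_four_G (n : ℕ) : ∫ z : E n, ‖z‖ ^ 4 ∂(G n) = n ^ 2 + n := by
  have h : ∀ z : E n, ‖z‖ ^ 4 = ∑ i, ∑ j, ‖z i‖ ^ 2 * ‖z j‖ ^ 2 := by
    intro z
    rw [show ‖z‖ ^ 4 = ‖z‖ ^ 2 * ‖z‖ ^ 2 by ring, EuclideanSpace.norm_sq_eq,
      Finset.sum_mul_sum]
  simp only [h]
  rw [integral_finsetSum _ fun i _ => integrable_finsetSum _ fun j _ => integrable_sq_sq n i j]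
  have h2 : ∀ i : Fin n, ∫ z : E n, ∑ j, ‖z i‖ ^ 2 * ‖z j‖ ^ 2 ∂(G n) = n + 1 := by
    intro i
    rw [integral_finsetSum _ fun j _ => integrable_sq_sq n i j]
    simp only [fourth]
    have : ∀ j : Fin n, (if i = j then (2:ℝ) else 1) = 1 + if i = j then 1 else 0 := fun j => by
      split_ifs <;> norm_num
    simp only [this]
    rw [Finset.sum_add_distrib]
    simp
  simp only [h2]
  simp
  ring

end GLB
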