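import Pool.Agent.Lib.MP_721eb4_an.LB.GaussN
import Pool.Agent.Lib.MP_721eb4_an.LB.Moments

set_option autoImplicit false

open MeasureTheory Complex Set
open scoped ComplexConjugate ENNReal

namespace GLB

/-! ### Discretisation -/

lemma Lp_coeFn_sum {ι α : Type*} [MeasurableSpace α] {ν : Measure α} (s : Finset ι)
    (f : ι → Lp ℂ 2 ν) (g : ι → α → ℂ) (h : ∀ i ∈ s, (f i : α → ℂ) =ᵐ[ν] g i) :
    ((∑ i ∈ s, f i : Lp ℂ 2 ν) : α → ℂ) =ᵐ[ν] fun z => ∑ i ∈ s, g i z := by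
  classical
  induction s using Finset.induction_on with
  | empty =>
    simp only [Finset.sum_empty]
    exact Lp.coeFn_zero _ _ _
  | insert a s ha ih =>
    rw [Finset.sum_insert ha]
    have h1 := ih fun i hi => h i (Finset.mem_insert_of_mem hi)
    have h2 := h a (Finset.mem_insert_self _ _)
    filter_upwards [Lp.coeFn_add (f a) (∑ i ∈ s, f i), h1, h2] with z h3 h4 h5
    rw [h3, Pi.add_apply, h4, h5, Finset.sum_insert ha]

section simple

variable {n d : ℕ} (φ : SimpleFunc (E n) (E d))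

/-- indicator of a fibre -/
noncomputable def ind (v : E d) : Lp ℂ 2 (G n) :=
  indicatorConstLp 2 (φ.measurableSet_fiber v) (measure_ne_top _ _) (1 : ℂ)

/-- the class of `s ∘ φ` -/
noncomputable def Fs (s : E d → ℂ) : Lp ℂ 2 (G n) := ∑ v ∈ φ.range, s v • ind φ v

lemma Fs_ae (s : E d → ℂ) : Fs φ s =ᵐ[G n] fun z => s (φ z) := by
  classical
  have h1 : ∀ v ∈ φ.range, (s v • ind φ v : Lp ℂ 2 (G n)) =ᵐ[G n]
      fun z => s v * (φ ⁻¹' {v}).indicator (fun _ => (1 : ℂ)) z := by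
    intro v _
    filter_upwards [Lp.coeFn_smul (s v) (ind φ v),
      indicatorConstLp_coeFn (p := 2) (hs := φ.measurableSet_fiber v)
        (hμs := measure_ne_top (G n) _) (c := (1 : ℂ))] with z h2 h3
    rw [h2, Pi.smul_apply, smul_eq_mul]
    unfold ind
    rw [h3]
  refine (Lp_coeFn_sum φ.range _ _ h1).trans (Filter.Eventually.of_forall fun z => ?_)
  simp only
  rw [Finset.sum_eq_single (φ z)]
  · simp
  · intro v _ hv
    rw [indicator_of_notMem, mul_zero]
    simpa using hv.symm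
  · intro h
    exact absurd (φ.mem_range_self z) h

lemma inner_Fs (Tt : Lp ℂ 2 (G n) →L[ℂ] Lp ℂ 2 (G n)) (s t : E d → ℂ) :
    inner ℂ (Tt (Fs φ s)) (Fs φ t) =
      ∑ u ∈ φ.range, ∑ v ∈ φ.range, inner ℂ (Tt (ind φ u)) (ind φ v) * conj (s u) * t v := by
  unfold Fs
  rw [map_sum, sum_inner]
  refine Finset.sum_congr rfl fun u _ => ?_
  rw [inner_sum]
  refine Finset.sum_congr rfl fun v _ => ?_
  rw [map_smul, inner_smul_left, inner_smul_right]
  ring

lemma simple_bound {V K : ℝ} (hV : 0 < V) (hK : K ∈ KSet)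
    (Tt : Lp ℂ 2 (G n) →L[ℂ] Lp ℂ 2 (G n))
    (h : ∀ f g : Lp ℂ 2 (G n), (∀ᵐ z ∂(G n), ‖f z‖ ≤ 1) → (∀ᵐ z ∂(G n), ‖g z‖ ≤ 1) →
      ‖inner ℂ (Tt f) g‖ ≤ V) (hφ : ∀ z, ‖φ z‖ ≤ 1) :
    ‖∑ m : Fin d, inner ℂ (Tt (Fs φ fun v => v m)) (Fs φ fun v => v m)‖ ≤ K * V := by
  classical
  set e := φ.range.equivFin with he
  set N := φ.range.card with hN
  have hsum : ∀ F : E d → ℂ, ∑ i : Fin N, F (e.symm i) = ∑ v ∈ φ.range, F v := by
    intro F
    rw [← Finset.sum_coe_sort φ.range F]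
    exact Fintype.sum_equiv e.symm _ _ (fun _ => rfl)
  set a : Matrix (Fin N) (Fin N) ℂ := fun i j =>
    inner ℂ (Tt (ind φ (e.symm i))) (ind φ (e.symm j)) / (V : ℂ) with ha
  have hkey := hK N d a ?_ (fun i => (e.symm i : E d)) (fun i => (e.symm i : E d)) ?_ ?_
  · have e1 : ∑ i, ∑ j, a i j * inner ℂ (e.symm i : E d) (e.symm j : E d) =
        (∑ m : Fin d, inner ℂ (Tt (Fs φ fun v => v m)) (Fs φ fun v => v m)) / (V : ℂ) := by
      have e2 : ∀ m : Fin d, inner ℂ (Tt (Fs φ fun v => v m)) (Fs φ fun v => v m) =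
          ∑ i : Fin N, ∑ j : Fin N, inner ℂ (Tt (ind φ (e.symm i))) (ind φ (e.symm j)) *
            conj ((e.symm i : E d) m) * (e.symm j : E d) m := by
        intro m
        rw [inner_Fs, ← hsum]
        refine Finset.sum_congr rfl fun i _ => ?_
        rw [← hsum]
      simp_rw [e2]
      conv_rhs => rw [Finset.sum_comm, Finset.sum_div]
      refine Finset.sum_congr rfl fun i _ => ?_
      conv_rhs => rw [Finset.sum_comm, Finset.sum_div]
      refine Finset.sum_congr rfl fun j _ => ?_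
      rw [Finset.sum_div, PiLp.inner_apply, Finset.mul_sum]
      refine Finset.sum_congr rfl fun m _ => ?_
      rw [ha, RCLike.inner_apply']
      ring
    rw [e1, norm_div, Complex.norm_of_nonneg hV.le, div_le_iff₀ hV] at hkey
    exact hkey
  · intro s t hs ht
    -- extend `s`, `t` to functions on `E d`
    set S : E d → ℂ := fun v => if hv : v ∈ φ.range then conj (s (e ⟨v, hv⟩)) else 0 with hS
    set T' : E d → ℂ := fun v => if hv : v ∈ φ.range then t (e ⟨v, hv⟩) else 0 with hT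
    have hSi : ∀ i, S (e.symm i) = conj (s i) := by
      intro i
      rw [hS]; simp only
      rw [dif_pos (e.symm i).2]; simp
    have hTi : ∀ i, T' (e.symm i) = t i := by
      intro i
      rw [hT]; simp only
      rw [dif_pos (e.symm i).2]; simp
    have hS1 : ∀ z, ‖S (φ z)‖ ≤ 1 := by
      intro z
      rw [hS]; simp only
      rw [dif_pos (φ.mem_range_self z), RCLike.norm_conj]
      exact hs _
    have hT1 : ∀ z, ‖T' (φ z)‖ ≤ 1 := by
      intro z
      rw [hT]; simp only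
      rw [dif_pos (φ.mem_range_self z)]
      exact ht _
    have hb := h (Fs φ S) (Fs φ T')
      (by filter_upwards [Fs_ae φ S] with z hz; rw [hz]; exact hS1 z)
      (by filter_upwards [Fs_ae φ T'] with z hz; rw [hz]; exact hT1 z)
    have e3 : ∑ i : Fin N, ∑ j : Fin N, a i j * s i * t j = inner ℂ (Tt (Fs φ S)) (Fs φ T') / (V : ℂ) := by
      rw [inner_Fs, ← hsum, Finset.sum_div]
      refine Finset.sum_congr rfl fun i _ => ?_
      rw [← hsum, Finset.sum_div]
      refine Finset.sum_congr rfl fun j _ => ?_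
      rw [hSi, hTi, ha, Complex.conj_conj]
      ring
    rw [e3, norm_div, Complex.norm_of_nonneg hV.le, div_le_one hV]
    exact hb
  · intro i
    obtain ⟨z, hz⟩ := SimpleFunc.mem_range.1 (e.symm i).2
    rw [← hz]; exact hφ z
  · intro i
    obtain ⟨z, hz⟩ := SimpleFunc.mem_range.1 (e.symm i).2
    rw [← hz]; exact hφ z

end simple

section limit

variable {n d : ℕ}

lemma lim_bound {V K : ℝ} (hV : 0 < V) (hK : K ∈ KSet)
    (Tt : Lp ℂ 2 (G n) →L[ℂ] Lp ℂ 2 (G n))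
    (h : ∀ f g : Lp ℂ 2 (G n), (∀ᵐ z ∂(G n), ‖f z‖ ≤ 1) → (∀ᵐ z ∂(G n), ‖g z‖ ≤ 1) →
      ‖inner ℂ (Tt f) g‖ ≤ V) {X : E n → E d} (hX : Measurable X) (hX1 : ∀ z, ‖X z‖ ≤ 1)
    (Xc : Fin d → Lp ℂ 2 (G n)) (hXc : ∀ m, Xc m =ᵐ[G n] fun z => X z m) :
    ‖∑ m : Fin d, inner ℂ (Tt (Xc m)) (Xc m)‖ ≤ K * V := by
  have h0 : (0 : E d) ∈ Metric.closedBall (0 : E d) 1 := by simp
  set φ : ℕ → SimpleFunc (E n) (E d) :=
    fun k => SimpleFunc.approxOn X hX (Metric.closedBall 0 1) 0 h0 k with hφ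
  have hφ1 : ∀ k z, ‖φ k z‖ ≤ 1 := by
    intro k z
    have := SimpleFunc.approxOn_mem hX h0 k z
    simpa using this
  have ht : Filter.Tendsto (fun k => eLpNorm (⇑(φ k) - X) 2 (G n)) Filter.atTop (nhds 0) := by
    refine SimpleFunc.tendsto_approxOn_Lp_eLpNorm hX h0 (by simp) ?_ ?_
    · refine Filter.Eventually.of_forall fun z => subset_closure ?_
      simpa using hX1 z
    · refine lt_of_le_of_lt (eLpNorm_le_of_ae_bound (C := 1) ?_) ?_
      · refine Filter.Eventually.of_forall fun z => ?_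
        simpa using hX1 z
      · simp
  have hlim : ∀ m, Filter.Tendsto (fun k => Fs (φ k) (fun v => v m)) Filter.atTop
      (nhds (Xc m)) := by
    intro m
    rw [Lp.tendsto_Lp_iff_tendsto_eLpNorm']
    refine tendsto_of_tendsto_of_tendsto_of_le_of_le tendsto_const_nhds ht (fun _ => bot_le) ?_
    intro k
    refine eLpNorm_mono_ae ?_
    filter_upwards [Fs_ae (φ k) (fun v => v m), hXc m] with z h1 h2
    rw [Pi.sub_apply, Pi.sub_apply, h1, h2]
    exact PiLp.norm_apply_le (φ k z - X z) m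
  have hl : Filter.Tendsto (fun k => ‖∑ m : Fin d, inner ℂ (Tt (Fs (φ k) fun v => v m))
      (Fs (φ k) fun v => v m)‖) Filter.atTop (nhds ‖∑ m : Fin d, inner ℂ (Tt (Xc m)) (Xc m)‖) := by
    refine (tendsto_finsetSum _ fun m _ => ?_).norm
    exact ((Tt.continuous.tendsto _).comp (hlim m)).inner (hlim m)
  exact le_of_tendsto' hl fun k => simple_bound (φ k) hV hK Tt h (hφ1 k)

end limit

section value

lemma cl_coord (n : ℕ) (i : Fin n) : cl (fun z : E n => z i) =ᵐ[G n] fun z => z i := by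
  unfold cl
  rw [dif_pos (memLp_coord n i 2 (by simp))]
  exact MemLp.coeFn_toLp _

lemma cl_Hp (n : ℕ) (i j k : Fin n) : cl (Hp i j k) =ᵐ[G n] Hp i j k := by
  unfold cl
  rw [dif_pos (memLp_Hp n i j k 2 (by simp))]
  exact MemLp.coeFn_toLp _

lemma ortho (n : ℕ) : S0 n ⟂ S1 n := by
  unfold S0 S1
  rw [Submodule.isOrtho_span]
  rintro _ ⟨l, rfl⟩ _ ⟨⟨i, j, k⟩, rfl⟩
  rw [L2.inner_def, ← integral_Hp_mul_conj n i j k l]
  refine integral_congr_ae ?_
  filter_upwards [cl_coord n l, cl_Hp n i j k] with z h1 h2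
  rw [h1, h2, RCLike.inner_apply', mul_comm]

lemma T_inner (μ : ℝ) (hμ : 0 ≤ μ) (n : ℕ) (x : Lp ℂ 2 (G n)) :
    (1 + μ) * ‖(S0 n).starProjection x‖ ^ 2 - μ * ‖x‖ ^ 2 ≤ (inner ℂ (T μ n x) x).re := by
  set p := (S0 n).starProjection x with hp
  set q := (S1 n).starProjection x with hq
  have hpS : p ∈ S0 n := Submodule.starProjection_apply_mem _ _
  have hqS : q ∈ S1 n := Submodule.starProjection_apply_mem _ _
  have hpq : inner ℂ p q = 0 := (Submodule.isOrtho_iff_inner_eq.1 (ortho n)) p hpS q hqS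
  have hxp : inner ℂ x p = ((‖p‖ ^ 2 : ℝ) : ℂ) := by
    have h1 := Submodule.starProjection_inner_eq_zero (K := S0 n) x p hpS
    rw [← hp, inner_sub_left, sub_eq_zero] at h1
    rw [h1, inner_self_eq_norm_sq_to_K]
    push_cast; rfl
  have hxq : inner ℂ x q = ((‖q‖ ^ 2 : ℝ) : ℂ) := by
    have h1 := Submodule.starProjection_inner_eq_zero (K := S1 n) x q hqS
    rw [← hq, inner_sub_left, sub_eq_zero] at h1
    rw [h1, inner_self_eq_norm_sq_to_K]
    push_cast; rfl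
  have hpx : inner ℂ p x = ((‖p‖ ^ 2 : ℝ) : ℂ) := by
    rw [← inner_conj_symm, hxp, Complex.conj_ofReal]
  have hqx : inner ℂ q x = ((‖q‖ ^ 2 : ℝ) : ℂ) := by
    rw [← inner_conj_symm, hxq, Complex.conj_ofReal]
  have hbes : ‖p‖ ^ 2 + ‖q‖ ^ 2 ≤ ‖x‖ ^ 2 := by
    have h1 := norm_sub_sq (𝕜 := ℂ) (x - p) q
    have h2 := norm_sub_sq (𝕜 := ℂ) x p
    rw [inner_sub_left, hpq, sub_zero, hxq] at h1
    rw [hxp] at h2
    have h3 : (0 : ℝ) ≤ ‖x - p - q‖ ^ 2 := by positivity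
    have e1 : RCLike.re (((‖q‖ ^ 2 : ℝ) : ℂ)) = ‖q‖ ^ 2 := Complex.ofReal_re _
    have e2 : RCLike.re (((‖p‖ ^ 2 : ℝ) : ℂ)) = ‖p‖ ^ 2 := Complex.ofReal_re _
    rw [e1] at h1
    rw [e2] at h2
    linarith
  have hT : inner ℂ (T μ n x) x = ((‖p‖ ^ 2 - μ * ‖q‖ ^ 2 : ℝ) : ℂ) := by
    have : T μ n x = p - (μ : ℂ) • q := rfl
    rw [this, inner_sub_left, inner_smul_left, hpx, hqx, Complex.conj_ofReal]
    push_cast; ring
  rw [hT, Complex.ofReal_re]
  nlinarith

/-- the direction of a vector -/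
noncomputable def dir {n : ℕ} (z : E n) : E n := ((‖z‖⁻¹ : ℝ) : ℂ) • z

lemma measurable_dir (n : ℕ) : Measurable (dir : E n → E n) := by
  unfold dir
  exact (Complex.measurable_ofReal.comp measurable_norm.inv).smul measurable_id

lemma norm_dir_le {n : ℕ} (z : E n) : ‖dir z‖ ≤ 1 := by
  unfold dir
  rw [norm_smul, Complex.norm_real, norm_inv, norm_norm]
  exact inv_mul_le_one

lemma dir_memLp (n : ℕ) (m : Fin n) : MemLp (fun z : E n => dir z m) 2 (G n) := by
  refine MemLp.of_bound ?_ 1 (Filter.Eventually.of_forall fun z => ?_)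
  · exact ((EuclideanSpace.proj (𝕜 := ℂ) m).continuous.measurable.comp
      (measurable_dir n)).aestronglyMeasurable
  · exact (PiLp.norm_apply_le (dir z) m).trans (norm_dir_le z)

lemma integrable_norm_sq {n : ℕ} (hn : 0 < n) : Integrable (fun z : E n => ‖z‖ ^ 2) (G n) := by
  by_contra h
  have h1 := integral_norm_sq_G n
  rw [integral_undef h] at h1
  have : (0 : ℝ) < n := by exact_mod_cast hn
  linarith

lemma integrable_norm_four {n : ℕ} (hn : 0 < n) :
    Integrable (fun z : E n => ‖z‖ ^ 4) (G n) := by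
  by_contra h
  have h1 := integral_norm_four_G n
  rw [integral_undef h] at h1
  have : (0 : ℝ) < n := by exact_mod_cast hn
  nlinarith

lemma integrable_norm {n : ℕ} (hn : 0 < n) : Integrable (fun z : E n => ‖z‖) (G n) := by
  refine Integrable.mono' ((integrable_const (1 : ℝ)).add (integrable_norm_sq hn))
    measurable_norm.aestronglyMeasurable (Filter.Eventually.of_forall fun z => ?_)
  rw [norm_norm, Pi.add_apply]
  nlinarith [sq_nonneg (‖z‖ - 1), norm_nonneg z]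

lemma integral_norm_ge {n : ℕ} (hn : 0 < n) :
    √n * (1 - 1 / (2 * n)) ≤ ∫ z : E n, ‖z‖ ∂(G n) := by
  have hn' : (0 : ℝ) < n := by exact_mod_cast hn
  have hs : 0 < √(n : ℝ) := Real.sqrt_pos.2 hn'
  have hs2 : √(n : ℝ) ^ 2 = n := Real.sq_sqrt hn'.le
  have h1 : ∫ z : E n, (√(n : ℝ) / 2) * (3 * (‖z‖ ^ 2 / n) - ‖z‖ ^ 4 / n ^ 2) ∂(G n) ≤
      ∫ z : E n, ‖z‖ ∂(G n) := by
    refine integral_mono ?_ (integrable_norm hn) fun z => ?_
    · exact ((((integrable_norm_sq hn).div_const _).const_mul _).sub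
        ((integrable_norm_four hn).div_const _)).const_mul _
    · simp only
      set u := ‖z‖ / √(n : ℝ) with hu
      have hu0 : 0 ≤ u := div_nonneg (norm_nonneg z) hs.le
      have hz : ‖z‖ = √(n : ℝ) * u := by rw [hu]; field_simp
      have e2 : ‖z‖ ^ 2 / n = u ^ 2 := by rw [hz, mul_pow, hs2]; field_simp
      have e4 : ‖z‖ ^ 4 / n ^ 2 = u ^ 4 := by
        have : ‖z‖ ^ 4 / (n : ℝ) ^ 2 = (‖z‖ ^ 2 / n) ^ 2 := by ring
        rw [this, e2]; ring
      rw [e2, e4, hz]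
      have : 3 * u ^ 2 - u ^ 4 ≤ 2 * u := by
        nlinarith [mul_nonneg hu0 (mul_nonneg (sq_nonneg (u - 1)) (by linarith : 0 ≤ u + 2))]
      nlinarith
  rw [integral_const_mul, integral_sub (((integrable_norm_sq hn).div_const _).const_mul _)
        ((integrable_norm_four hn).div_const _), integral_const_mul, integral_div, integral_div,
        integral_norm_sq_G, integral_norm_four_G] at h1
  refine le_trans (le_of_eq ?_) h1
  field_simp
  ring

lemma int_coord {n : ℕ} (hn : 0 < n) (m : Fin n) :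
    Integrable (fun z : E n => ‖z m‖ ^ 2 * ‖z‖⁻¹) (G n) := by
  refine Integrable.mono' (integrable_norm hn) ?_ (Filter.Eventually.of_forall fun z => ?_)
  · exact (((EuclideanSpace.proj (𝕜 := ℂ) m).continuous.measurable.norm.pow_const 2).mul
      measurable_norm.inv).aestronglyMeasurable
  · rw [norm_mul, norm_pow, norm_norm, norm_inv, norm_norm]
    have h1 : ‖z m‖ ≤ ‖z‖ := PiLp.norm_apply_le z m
    rcases eq_or_lt_of_le (norm_nonneg z) with h | h
    · rw [← h]; simp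
    · rw [← div_eq_mul_inv, div_le_iff₀ h]
      nlinarith [norm_nonneg (z m)]

lemma inner_coord_dir {n : ℕ} (m : Fin n) :
    inner ℂ ((dir_memLp n m).toLp) (cl (fun z : E n => z m)) =
      ((∫ z : E n, ‖z m‖ ^ 2 * ‖z‖⁻¹ ∂(G n) : ℝ) : ℂ) := by
  rw [L2.inner_def, ← integral_complex_ofReal]
  refine integral_congr_ae ?_
  filter_upwards [cl_coord n m, MemLp.coeFn_toLp (dir_memLp n m)] with z h1 h2
  rw [h1, h2, RCLike.inner_apply']
  unfold dir
  rw [PiLp.smul_apply, smul_eq_mul, map_mul, Complex.conj_ofReal, mul_assoc, Complex.conj_mul']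
  push_cast
  ring

lemma norm_cl_coord {n : ℕ} (m : Fin n) : ‖cl (fun z : E n => z m)‖ = 1 := by
  have h : (inner ℂ (cl (fun z : E n => z m)) (cl (fun z : E n => z m)) : ℂ) = 1 := by
    rw [L2.inner_def]
    have := integral_coord_mul_conj n m m
    rw [if_pos rfl] at this
    rw [← this]
    refine integral_congr_ae ?_
    filter_upwards [cl_coord n m] with z h1
    rw [h1, RCLike.inner_apply', mul_comm]
  have h2 := inner_self_eq_norm_sq (𝕜 := ℂ) (cl (fun z : E n => z m))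
  rw [h] at h2
  have h3 : RCLike.re (1 : ℂ) = 1 := Complex.one_re
  rw [h3] at h2
  nlinarith [norm_nonneg (cl (fun z : E n => z m))]

lemma proj_ge {n : ℕ} (m : Fin n) :
    (∫ z : E n, ‖z m‖ ^ 2 * ‖z‖⁻¹ ∂(G n)) ≤ ‖(S0 n).starProjection ((dir_memLp n m).toLp)‖ := by
  have hS : cl (fun z : E n => z m) ∈ S0 n := Submodule.subset_span ⟨m, rfl⟩
  have h1 := Submodule.starProjection_inner_eq_zero (K := S0 n) ((dir_memLp n m).toLp) _ hS
  rw [inner_sub_left, sub_eq_zero, inner_coord_dir] at h1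
  have h2 := norm_inner_le_norm (𝕜 := ℂ) ((S0 n).starProjection ((dir_memLp n m).toLp))
    (cl (fun z : E n => z m))
  rw [← h1, norm_cl_coord, mul_one, Complex.norm_real] at h2
  exact (le_abs_self _).trans h2

lemma sum_norm_dir (n : ℕ) : ∑ m : Fin n, ‖((dir_memLp n m).toLp)‖ ^ 2 ≤ 1 := by
  have h1 : ∀ m : Fin n, ‖((dir_memLp n m).toLp)‖ ^ 2 = ∫ z : E n, ‖dir z m‖ ^ 2 ∂(G n) := by
    intro m
    have h : (inner ℂ ((dir_memLp n m).toLp) ((dir_memLp n m).toLp) : ℂ) =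
        ((∫ z : E n, ‖dir z m‖ ^ 2 ∂(G n) : ℝ) : ℂ) := by
      rw [L2.inner_def, ← integral_complex_ofReal]
      refine integral_congr_ae ?_
      filter_upwards [MemLp.coeFn_toLp (dir_memLp n m)] with z h2
      rw [h2, RCLike.inner_apply', Complex.conj_mul']
      push_cast; rfl
    have h2 := inner_self_eq_norm_sq (𝕜 := ℂ) ((dir_memLp n m).toLp)
    rw [h] at h2
    rw [← h2]
    exact Complex.ofReal_re _
  have h2 : ∀ m : Fin n, Integrable (fun z : E n => ‖dir z m‖ ^ 2) (G n) := by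
    intro m
    have := (dir_memLp n m).integrable_norm_pow (by norm_num)
    simpa using this
  rw [Finset.sum_congr rfl fun m _ => h1 m, ← integral_finsetSum _ fun m _ => h2 m]
  have h3 : ∫ z : E n, ∑ m, ‖dir z m‖ ^ 2 ∂(G n) ≤ ∫ _ : E n, (1 : ℝ) ∂(G n) := by
    refine integral_mono (integrable_finsetSum _ fun m _ => h2 m) (integrable_const _) fun z => ?_
    simp only
    rw [← EuclideanSpace.norm_sq_eq]
    have := norm_dir_le z
    nlinarith [norm_nonneg (dir z)]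
  simpa using h3

lemma value_ge (μ : ℝ) (hμ : 0 ≤ μ) {n : ℕ} (hn : 0 < n) :
    (1 + μ) * (1 - 1 / (2 * n)) ^ 2 - μ ≤
      ‖∑ m : Fin n, inner ℂ (T μ n ((dir_memLp n m).toLp)) ((dir_memLp n m).toLp)‖ := by
  have hn' : (0 : ℝ) < n := by exact_mod_cast hn
  have hn1 : (1 : ℝ) ≤ n := by exact_mod_cast hn
  set c : Fin n → ℝ := fun m => ∫ z : E n, ‖z m‖ ^ 2 * ‖z‖⁻¹ ∂(G n) with hc
  have hc0 : ∀ m, 0 ≤ c m := fun m => integral_nonneg fun z => by positivity
  have hsum : ∑ m, c m = ∫ z : E n, ‖z‖ ∂(G n) := by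
    rw [hc]
    simp only
    rw [← integral_finsetSum _ fun m _ => int_coord hn m]
    refine integral_congr_ae (Filter.Eventually.of_forall fun z => ?_)
    simp only
    rw [← Finset.sum_mul, ← EuclideanSpace.norm_sq_eq]
    rcases eq_or_lt_of_le (norm_nonneg z) with h | h
    · rw [← h]; simp
    · field_simp
  have hge := integral_norm_ge hn
  rw [← hsum] at hge
  have hcs : (∑ m, c m) ^ 2 ≤ n * ∑ m, c m ^ 2 := by
    have := sq_sum_le_card_mul_sum_sq (s := (Finset.univ : Finset (Fin n))) (f := c)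
    simpa using this
  have hq : (1 - 1 / (2 * (n : ℝ))) ^ 2 ≤ ∑ m, c m ^ 2 := by
    have h1 : (0 : ℝ) ≤ 1 - 1 / (2 * n) := by
      rw [sub_nonneg, div_le_one (by linarith)]; linarith
    have h2 : (√(n : ℝ) * (1 - 1 / (2 * n))) ^ 2 ≤ (∑ m, c m) ^ 2 :=
      pow_le_pow_left₀ (by positivity) hge 2
    rw [mul_pow, Real.sq_sqrt hn'.le] at h2
    exact le_of_mul_le_mul_left (h2.trans hcs) hn'
  have hP : ∑ m, c m ^ 2 ≤ ∑ m : Fin n, ‖(S0 n).starProjection ((dir_memLp n m).toLp)‖ ^ 2 :=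
    Finset.sum_le_sum fun m _ => pow_le_pow_left₀ (hc0 m) (proj_ge m) 2
  have hre : ∑ m : Fin n, ((1 + μ) * ‖(S0 n).starProjection ((dir_memLp n m).toLp)‖ ^ 2 -
      μ * ‖((dir_memLp n m).toLp)‖ ^ 2) ≤
      (∑ m : Fin n, inner ℂ (T μ n ((dir_memLp n m).toLp)) ((dir_memLp n m).toLp)).re := by
    rw [Complex.re_sum]
    exact Finset.sum_le_sum fun m _ => T_inner μ hμ n _
  rw [Finset.sum_sub_distrib, ← Finset.mul_sum, ← Finset.mul_sum] at hre
  have hn2 := sum_norm_dir n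
  have hre2 := Complex.re_le_norm
    (∑ m : Fin n, inner ℂ (T μ n ((dir_memLp n m).toLp)) ((dir_memLp n m).toLp))
  nlinarith

end value

theorem of_op_bound (μ V : ℝ) (hμ : 0 ≤ μ) (hV : 0 < V)
    (h : ∀ (n : ℕ) (f g : Lp ℂ 2 (G (n + 1))), (∀ᵐ z ∂(G (n + 1)), ‖f z‖ ≤ 1) →
      (∀ᵐ z ∂(G (n + 1)), ‖g z‖ ≤ 1) → ‖inner ℂ (T μ (n + 1) f) g‖ ≤ V)
    (K : ℝ) (hK : K ∈ KSet) : 1 ≤ K * V := by
  have key : ∀ n : ℕ, (1 + μ) * (1 - 1 / (2 * ((n : ℝ) + 1))) ^ 2 - μ ≤ K * V := by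
    intro n
    have h1 := value_ge μ hμ (Nat.succ_pos n)
    have h2 := lim_bound hV hK (T μ (n + 1)) (h n) (measurable_dir (n + 1)) norm_dir_le
      (fun m => (dir_memLp (n + 1) m).toLp) (fun m => MemLp.coeFn_toLp _)
    have h3 := h1.trans h2
    push_cast at h3
    exact h3
  have ht : Filter.Tendsto (fun n : ℕ => (1 + μ) * (1 - 1 / (2 * ((n : ℝ) + 1))) ^ 2 - μ)
      Filter.atTop (nhds ((1 + μ) * (1 - 1 / 2 * 0) ^ 2 - μ)) := by
    have h1 : Filter.Tendsto (fun n : ℕ => 1 / ((n : ℝ) + 1)) Filter.atTop (nhds 0) :=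
      tendsto_one_div_add_atTop_nhds_zero_nat
    have h2 : (fun n : ℕ => (1 + μ) * (1 - 1 / (2 * ((n : ℝ) + 1))) ^ 2 - μ) =
        fun n : ℕ => (1 + μ) * (1 - 1 / 2 * (1 / ((n : ℝ) + 1))) ^ 2 - μ := by
      funext n
      have : ((n : ℝ) + 1) ≠ 0 := by positivity
      congr 3
      field_simp
    rw [h2]
    exact (((tendsto_const_nhds.sub (h1.const_mul _)).pow 2).const_mul _).sub_const _
  have := le_of_tendsto' ht key
  simpa using this

end GLB
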