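import Pool.Agent.Lib.MP_721eb4_an.LB.Defs

/-! The one-dimensional complex Gaussian measure. -/

set_option autoImplicit false

open MeasureTheory Complex Set
open scoped ComplexConjugate ENNReal

namespace GLB

/-- the density of `cg` -/
noncomputable def dens (z : ℂ) : ℝ := Real.exp (-‖z‖ ^ 2) / Real.pi

theorem dens_nonneg (z : ℂ) : 0 ≤ dens z :=
  div_nonneg (Real.exp_pos _).le Real.pi_pos.le

theorem continuous_dens : Continuous dens := by
  unfold dens
  fun_prop

theorem cg_eq : cg = (volume : Measure ℂ).withDensity (fun z => ENNReal.ofReal (dens z)) := rfl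

theorem integral_cg {F : Type*} [NormedAddCommGroup F] [NormedSpace ℝ F] (f : ℂ → F) :
    ∫ z, f z ∂cg = ∫ z, dens z • f z := by
  rw [cg_eq, integral_withDensity_eq_integral_toReal_smul₀
    (continuous_dens.measurable.ennreal_ofReal.aemeasurable)
    (Filter.Eventually.of_forall fun z => ENNReal.ofReal_lt_top)]
  refine integral_congr_ae (Filter.Eventually.of_forall fun z => ?_)
  simp only
  rw [ENNReal.toReal_ofReal (dens_nonneg z)]

theorem integrable_cg_iff {F : Type*} [NormedAddCommGroup F] [NormedSpace ℝ F] (f : ℂ → F) :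
    Integrable f cg ↔ Integrable (fun z => dens z • f z) volume := by
  rw [cg_eq, integrable_withDensity_iff_integrable_smul'
    (continuous_dens.measurable.ennreal_ofReal)
    (Filter.Eventually.of_forall fun z => ENNReal.ofReal_lt_top)]
  refine integrable_congr (Filter.Eventually.of_forall fun z => ?_)
  simp only
  rw [ENNReal.toReal_ofReal (dens_nonneg z)]

theorem moment_vol (k : ℕ) :
    ∫ z : ℂ, ‖z‖ ^ k * Real.exp (-‖z‖ ^ 2) = Real.pi * Real.Gamma ((k + 2) / 2) := by
  have h := Complex.integral_rpow_mul_exp_neg_rpow (p := 2) (q := k) (by norm_num)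
    (by have : (0 : ℝ) ≤ k := Nat.cast_nonneg k
        linarith)
  rw [show (2 * Real.pi / 2 : ℝ) = Real.pi by ring] at h
  rw [← h]
  refine integral_congr_ae (Filter.Eventually.of_forall fun z => ?_)
  simp only
  rw [Real.rpow_natCast]
  congr 2
  norm_cast

theorem integrable_moment_vol (k : ℕ) :
    Integrable (fun z : ℂ => ‖z‖ ^ k * Real.exp (-‖z‖ ^ 2)) := by
  by_contra h
  have h1 := integral_undef h
  rw [moment_vol] at h1
  have h2 : 0 < Real.pi * Real.Gamma ((k + 2) / 2) :=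
    mul_pos Real.pi_pos (Real.Gamma_pos_of_pos (by positivity))
  exact h2.ne' h1

/-- all moments are finite -/
theorem integrable_norm_pow_cg (k : ℕ) : Integrable (fun z : ℂ => ‖z‖ ^ k) cg := by
  rw [integrable_cg_iff]
  have h := (integrable_moment_vol k).const_mul (1 / Real.pi)
  refine h.congr (Filter.Eventually.of_forall fun z => ?_)
  simp only [dens, smul_eq_mul]
  ring

theorem integral_norm_pow_cg (k : ℕ) :
    ∫ z : ℂ, ‖z‖ ^ k ∂cg = Real.Gamma ((k + 2) / 2) := by
  rw [integral_cg]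
  have h : ∀ z : ℂ, dens z • ‖z‖ ^ k = (1 / Real.pi) * (‖z‖ ^ k * Real.exp (-‖z‖ ^ 2)) := by
    intro z
    simp only [dens, smul_eq_mul]
    ring
  simp_rw [h]
  rw [integral_const_mul, moment_vol, ← mul_assoc, one_div, inv_mul_cancel₀ Real.pi_pos.ne',
    one_mul]

theorem integral_norm_sq_cg : ∫ z : ℂ, ‖z‖ ^ 2 ∂cg = 1 := by
  rw [integral_norm_pow_cg]
  rw [show (((2 : ℕ) : ℝ) + 2) / 2 = ((1 : ℕ) : ℝ) + 1 by norm_num, Real.Gamma_nat_eq_factorial]
  norm_num

theorem integral_norm_four_cg : ∫ z : ℂ, ‖z‖ ^ 4 ∂cg = 2 := by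
  rw [integral_norm_pow_cg]
  rw [show (((4 : ℕ) : ℝ) + 2) / 2 = ((2 : ℕ) : ℝ) + 1 by norm_num, Real.Gamma_nat_eq_factorial]
  norm_num [Nat.factorial]

instance : IsProbabilityMeasure cg := by
  constructor
  have hi : Integrable (fun _ : ℂ => (1 : ℝ)) cg := by
    simpa using integrable_norm_pow_cg 0
  have : IsFiniteMeasure cg := by
    rw [integrable_const_iff] at hi
    rcases hi with h | h
    · exact absurd h one_ne_zero
    · exact h
  have h := integral_norm_pow_cg 0
  simp only [pow_zero, integral_const, smul_eq_mul, mul_one, Nat.cast_zero, zero_add] at h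
  rw [div_self (two_ne_zero), Real.Gamma_one] at h
  have h2 : cg univ = ENNReal.ofReal (cg.real univ) := by
    rw [Measure.real, ENNReal.ofReal_toReal (measure_ne_top _ _)]
  rw [h2, h, ENNReal.ofReal_one]

theorem charFun_cg (t : ℂ) : charFun cg t = exp (-((‖t‖ : ℂ) ^ 2) / 4) := by
  rw [charFun_apply, integral_cg]
  have h := GaussianFourier.integral_cexp_neg_mul_sq_norm_add (V := ℂ) (b := 1)
    (by norm_num) I t
  have h1 : ∀ z : ℂ, dens z • exp ((inner ℝ z t : ℝ) * I)
      = (1 / (Real.pi : ℂ)) * exp (-1 * (‖z‖ : ℂ) ^ 2 + I * (inner ℝ t z : ℝ)) := by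
    intro z
    rw [exp_add, real_smul, dens, real_inner_comm z t]
    push_cast
    rw [neg_one_mul, mul_comm I]
    ring
  simp_rw [h1]
  rw [integral_const_mul, h]
  have hpi : (Real.pi : ℂ) ≠ 0 := by exact_mod_cast Real.pi_pos.ne'
  rw [Complex.finrank_real_complex, I_sq]
  simp only [div_one, Nat.cast_ofNat, mul_one]
  rw [div_self (two_ne_zero), cpow_one, ← mul_assoc, one_div, inv_mul_cancel₀ hpi, one_mul]
  congr 1
  ring

/-- the measure is rotation invariant -/
theorem measurePreserving_rot_cg (w : ℂ) (hw : ‖w‖ = 1) :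
    MeasurePreserving (fun z : ℂ => w * z) cg cg := by
  refine ⟨by fun_prop, ?_⟩
  have : IsProbabilityMeasure (cg.map (fun z : ℂ => w * z)) :=
    Measure.isProbabilityMeasure_map (by fun_prop)
  refine Measure.ext_of_charFun ?_
  funext t
  rw [charFun_cg, charFun_apply, integral_map (by fun_prop) (by
    apply Continuous.aestronglyMeasurable
    fun_prop)]
  have h : ∀ z : ℂ, (inner ℝ (w * z) t : ℝ) = inner ℝ z (conj w * t) := by
    intro z
    simp only [Complex.inner, map_mul]
    ring_nf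
  simp_rw [h]
  rw [← charFun_apply, charFun_cg, norm_mul, RCLike.norm_conj, hw, one_mul]

theorem integrableOn_pow_gauss (k : ℕ) :
    IntegrableOn (fun r : ℝ => r ^ k * Real.exp (-r ^ 2)) (Ioi 0) := by
  have h := integrableOn_rpow_mul_exp_neg_mul_sq (b := 1) one_pos (s := k)
    (by have : (0 : ℝ) ≤ k := Nat.cast_nonneg k
        linarith)
  refine h.congr_fun (fun r _ => ?_) measurableSet_Ioi
  simp only [Real.rpow_natCast]
  congr 2
  ring

theorem integrableOn_bound (C : ℝ) (k : ℕ) :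
    IntegrableOn (fun r : ℝ => (2 * r * Real.exp (-r ^ 2)) * (C * (1 + r) ^ k)) (Ioi 0) := by
  have h : (fun r : ℝ => (2 * r * Real.exp (-r ^ 2)) * (C * (1 + r) ^ k))
      = fun r : ℝ => ∑ m ∈ Finset.range (k + 1),
        (2 * C * (k.choose m : ℝ)) * (r ^ (m + 1) * Real.exp (-r ^ 2)) := by
    funext r
    rw [add_comm (1 : ℝ) r, add_pow, Finset.mul_sum, Finset.mul_sum]
    refine Finset.sum_congr rfl fun m _ => ?_
    rw [one_pow]
    ring
  rw [h]
  refine integrable_finsetSum _ fun m _ => ?_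
  exact (integrableOn_pow_gauss (m + 1)).const_mul _

/-- polar coordinates -/
theorem integral_cg_polar (f : ℂ → ℝ) (hf : Continuous f) (C : ℝ) (k : ℕ)
    (hb : ∀ z, |f z| ≤ C * (1 + ‖z‖) ^ k) :
    ∫ z, f z ∂cg = ∫ r in Ioi (0 : ℝ), (2 * r * Real.exp (-r ^ 2)) *
      ((2 * Real.pi)⁻¹ * ∫ θ in (-Real.pi)..Real.pi, f ((r : ℂ) * exp ((θ : ℂ) * I))) := by
  rw [integral_cg, ← Complex.integral_comp_polarCoord_symm, polarCoord_target]
  have hcs : ∀ p : ℝ × ℝ, Complex.polarCoord.symm p = (p.1 : ℂ) * exp ((p.2 : ℂ) * I) := by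
    intro p
    rw [Complex.polarCoord_symm_apply, exp_mul_I, ofReal_cos, ofReal_sin]
  set g : ℝ × ℝ → ℝ := fun p => (2 * p.1 * Real.exp (-p.1 ^ 2)) *
    ((2 * Real.pi)⁻¹ * f ((p.1 : ℂ) * exp ((p.2 : ℂ) * I))) with hg
  have hgc : Continuous g := by
    rw [hg]
    fun_prop
  have hnorm : ∀ p : ℝ × ℝ, ‖(p.1 : ℂ) * exp ((p.2 : ℂ) * I)‖ = |p.1| := by
    intro p
    rw [norm_mul, norm_exp_ofReal_mul_I, mul_one, norm_real, Real.norm_eq_abs]
  have heq : ∀ p : ℝ × ℝ, p.1 • (dens (Complex.polarCoord.symm p) •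
      f (Complex.polarCoord.symm p)) = g p := by
    intro p
    rw [hcs, hg, dens, hnorm, sq_abs]
    simp only [smul_eq_mul]
    have := Real.pi_pos.ne'
    field_simp
  simp_rw [heq]
  have hgi : IntegrableOn g (Ioi (0 : ℝ) ×ˢ Ioo (-Real.pi) Real.pi) := by
    have h1 : Integrable (fun p : ℝ × ℝ => ((2 * p.1 * Real.exp (-p.1 ^ 2)) *
        (C * (1 + p.1) ^ k)) * (2 * Real.pi)⁻¹)
        ((volume.restrict (Ioi (0 : ℝ))).prod (volume.restrict (Ioo (-Real.pi) Real.pi))) :=
      (integrableOn_bound C k).mul_prod (integrable_const ((2 * Real.pi)⁻¹))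
    rw [Measure.prod_restrict] at h1
    refine Integrable.mono' h1 hgc.aestronglyMeasurable ?_
    refine (ae_restrict_iff' (measurableSet_Ioi.prod measurableSet_Ioo)).2
      (Filter.Eventually.of_forall fun p hp => ?_)
    have hp1 : 0 < p.1 := hp.1
    have h2 := hb ((p.1 : ℂ) * exp ((p.2 : ℂ) * I))
    rw [hnorm, abs_of_pos hp1] at h2
    rw [hg, Real.norm_eq_abs]
    simp only
    have e1 : |2 * p.1 * Real.exp (-p.1 ^ 2)| = 2 * p.1 * Real.exp (-p.1 ^ 2) :=
      abs_of_nonneg (by positivity)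
    have e2 : |(2 * Real.pi)⁻¹| = (2 * Real.pi)⁻¹ := abs_of_nonneg (by positivity)
    rw [abs_mul, e1, abs_mul ((2 * Real.pi)⁻¹), e2, mul_comm ((2 * Real.pi)⁻¹), ← mul_assoc]
    gcongr
  rw [Measure.volume_eq_prod] at hgi ⊢
  rw [setIntegral_prod g hgi]
  refine setIntegral_congr_fun measurableSet_Ioi fun r _ => ?_
  simp only [hg]
  rw [intervalIntegral.integral_of_le (by linarith [Real.pi_pos]), integral_Ioc_eq_integral_Ioo,
    ← integral_const_mul, ← integral_const_mul]

end GLB
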