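import Pool.Agent.Lib.MP_721eb4_an.LB.Gauss1

/-! Lower bound for the complex Grothendieck constant: the Gaussian measure on `ℂ^n`. -/

set_option autoImplicit false

open MeasureTheory Complex Set
open scoped ComplexConjugate ENNReal

namespace GLB

/-! ## Module GaussN : the measure `G n` (uses Gauss1) -/

theorem measurable_toLp_fin (n : ℕ) :
    Measurable (WithLp.toLp 2 : (Fin n → ℂ) → E n) :=
  (MeasurableEquiv.toLp 2 (Fin n → ℂ)).measurable

theorem measurable_ofLp_fin (n : ℕ) :
    Measurable (WithLp.ofLp : E n → (Fin n → ℂ)) :=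
  (MeasurableEquiv.toLp 2 (Fin n → ℂ)).symm.measurable

instance (n : ℕ) : IsProbabilityMeasure (G n) := by
  unfold G
  exact Measure.isProbabilityMeasure_map (measurable_toLp_fin n).aemeasurable

theorem measurePreserving_toLp_G (n : ℕ) :
    MeasurePreserving (WithLp.toLp 2 : (Fin n → ℂ) → E n)
      (Measure.pi (fun _ : Fin n => cg)) (G n) :=
  ⟨measurable_toLp_fin n, rfl⟩

theorem measurePreserving_ofLp_G (n : ℕ) :
    MeasurePreserving (WithLp.ofLp : E n → (Fin n → ℂ))
      (G n) (Measure.pi (fun _ : Fin n => cg)) := by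
  have h : MeasurePreserving (MeasurableEquiv.toLp 2 (Fin n → ℂ))
      (Measure.pi (fun _ : Fin n => cg)) (G n) := measurePreserving_toLp_G n
  exact h.symm

/-- first coordinate `ζ`, remaining coordinates `w` -/
noncomputable def consE {n : ℕ} (ζ : ℂ) (w : E n) : E (n + 1) :=
  WithLp.toLp 2 (Fin.cons ζ w.ofLp : Fin (n + 1) → ℂ)

theorem G_succ (n : ℕ) :
    MeasurePreserving (fun p : ℂ × E n => consE p.1 p.2) (cg.prod (G n)) (G (n + 1)) := by
  have h1 := (measurePreserving_piFinSuccAbove (α := fun _ : Fin (n + 1) => ℂ)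
    (fun _ : Fin (n + 1) => cg) 0).symm
  have h2 : MeasurePreserving (fun p : ℂ × E n => (p.1, p.2.ofLp))
      (cg.prod (G n)) (cg.prod (Measure.pi (fun _ : Fin n => cg))) :=
    (MeasurePreserving.id cg).prod (measurePreserving_ofLp_G n)
  have h3 := (measurePreserving_toLp_G (n + 1)).comp (h1.comp h2)
  convert h3 using 1
  funext p
  simp [consE, MeasurableEquiv.piFinSuccAbove, Fin.insertNthEquiv, Fin.insertNth_zero']

theorem measurePreserving_coord (n : ℕ) (i : Fin n) :
    MeasurePreserving (fun z : E n => z i) (G n) cg := by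
  have h1 := measurePreserving_eval (fun _ : Fin n => cg) i
  exact h1.comp (measurePreserving_ofLp_G n)

theorem charFun_G (n : ℕ) (t : E n) : charFun (G n) t = exp (-((‖t‖ : ℂ) ^ 2) / 4) := by
  unfold G
  rw [MeasureTheory.charFun_pi]
  simp only [charFun_cg]
  rw [← Complex.exp_sum]
  congr 1
  rw [← Complex.ofReal_pow, EuclideanSpace.norm_sq_eq, Complex.ofReal_sum, ← Finset.sum_div,
    Finset.sum_neg_distrib]
  simp

/-- unitary invariance -/
theorem G_unitary (n : ℕ) (U : E n ≃ₗᵢ[ℂ] E n) : MeasurePreserving U (G n) (G n) := by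
  have hm : Measurable (U : E n → E n) := U.continuous.measurable
  refine ⟨hm, ?_⟩
  have : IsProbabilityMeasure ((G n).map (U : E n → E n)) :=
    Measure.isProbabilityMeasure_map hm.aemeasurable
  apply Measure.ext_of_charFun
  funext t
  have h1 : charFun ((G n).map (U : E n → E n)) t = charFun (G n) (U.symm t) := by
    rw [charFun_apply, charFun_apply, integral_map hm.aemeasurable]
    · refine integral_congr_ae (Filter.Eventually.of_forall fun x => ?_)
      have h2 : inner ℝ (U x) t = inner ℝ x (U.symm t) := by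
        rw [real_inner_eq_norm_add_mul_self_sub_norm_mul_self_sub_norm_mul_self_div_two,
          real_inner_eq_norm_add_mul_self_sub_norm_mul_self_sub_norm_mul_self_div_two]
        have h3 : U x + t = U (x + U.symm t) := by simp
        rw [h3, U.norm_map, U.norm_map, U.symm.norm_map]
      simp only [h2]
    · exact Continuous.aestronglyMeasurable (by fun_prop)
  rw [h1, charFun_G, charFun_G, U.symm.norm_map]

theorem memLp_id_cg (p : ℝ≥0∞) (hp : p ≠ ∞) : MemLp (fun z : ℂ => z) p cg := by
  obtain ⟨k, hk⟩ := ENNReal.exists_nat_gt hp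
  have hk0 : k ≠ 0 := by
    rintro rfl
    simp at hk
  have h : MemLp (fun z : ℂ => z) (k : ℝ≥0∞) cg := by
    rw [← integrable_norm_rpow_iff (by fun_prop) (by exact_mod_cast hk0) (by simp)]
    simpa using integrable_norm_pow_cg k
  exact h.mono_exponent hk.le

theorem memLp_coord (n : ℕ) (i : Fin n) (p : ℝ≥0∞) (hp : p ≠ ∞) :
    MemLp (fun z : E n => z i) p (G n) :=
  (memLp_id_cg p hp).comp_measurePreserving (measurePreserving_coord n i)

theorem memLp_conj_coord (n : ℕ) (i : Fin n) (p : ℝ≥0∞) (hp : p ≠ ∞) :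
    MemLp (fun z : E n => conj (z i)) p (G n) := by
  have h := memLp_coord n i p hp
  refine h.congr_norm ?_ (Filter.Eventually.of_forall fun z => by simp)
  exact Continuous.aestronglyMeasurable (by fun_prop)

theorem memLp_mul {n : ℕ} (f g : E n → ℂ) (hf : ∀ p : ℝ≥0∞, p ≠ ∞ → MemLp f p (G n))
    (hg : ∀ p : ℝ≥0∞, p ≠ ∞ → MemLp g p (G n)) (p : ℝ≥0∞) (hp : p ≠ ∞) :
    MemLp (fun z => f z * g z) p (G n) := by
  have : ENNReal.HolderTriple (2 * p) (2 * p) p := by
    constructor
    rw [ENNReal.mul_inv (Or.inl (by simp)) (Or.inl (by simp)), ← two_mul, ← mul_assoc,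
      ENNReal.mul_inv_cancel (by simp) (by simp), one_mul]
  exact (hg (2 * p) (ENNReal.mul_ne_top (by simp) hp)).mul'
    (hf (2 * p) (ENNReal.mul_ne_top (by simp) hp))

theorem memLp_prod2 (n : ℕ) (i j : Fin n) (p : ℝ≥0∞) (hp : p ≠ ∞) :
    MemLp (fun z : E n => z i * z j) p (G n) :=
  memLp_mul _ _ (fun q hq => memLp_coord n i q hq) (fun q hq => memLp_coord n j q hq) p hp

theorem memLp_prod2' (n : ℕ) (i j : Fin n) (p : ℝ≥0∞) (hp : p ≠ ∞) :
    MemLp (fun z : E n => z i * conj (z j)) p (G n) :=
  memLp_mul _ _ (fun q hq => memLp_coord n i q hq) (fun q hq => memLp_conj_coord n j q hq) p hp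

theorem memLp_Hp (n : ℕ) (i j k : Fin n) (p : ℝ≥0∞) (hp : p ≠ ∞) :
    MemLp (Hp i j k) p (G n) := by
  have h1 : MemLp (fun z : E n => z i * z j * conj (z k)) p (G n) :=
    memLp_mul _ _ (fun q hq => memLp_prod2 n i j q hq) (fun q hq => memLp_conj_coord n k q hq) p hp
  have h2 : MemLp (fun z : E n => if j = k then z i else 0) p (G n) := by
    split_ifs
    · exact memLp_coord n i p hp
    · exact MemLp.zero
  have h3 : MemLp (fun z : E n => if i = k then z j else 0) p (G n) := by
    split_ifs
    · exact memLp_coord n j p hp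
    · exact MemLp.zero
  exact (h1.sub h2).sub h3

end GLB
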