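import Pool.Agent.Lib.MP_721eb4_an.LB.Rot
import Pool.Agent.Lib.MP_721eb4_an.LB.Moments

set_option autoImplicit false

open MeasureTheory Complex Set
open scoped ComplexConjugate ENNReal

namespace GLB

/-! The operator bound. -/

theorem inner_cl_coord {n : ℕ} (i j : Fin n) :
    inner ℂ (cl (fun z : E n => z i)) (cl (fun z : E n => z j)) = if i = j then (1 : ℂ) else 0 := by
  rw [L2.inner_def]
  have h : (fun a => inner ℂ ((cl (fun z : E n => z i)) a) ((cl (fun z : E n => z j)) a))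
      =ᵐ[G n] fun z => z j * conj (z i) := by
    filter_upwards [coeFn_cl (memLp_coord2 i), coeFn_cl (memLp_coord2 j)] with z h1 h2
    rw [h1, h2]; simp
  rw [integral_congr_ae h, integral_coord_mul_conj]
  by_cases hij : i = j
  · subst hij; simp
  · simp [hij, Ne.symm hij]

theorem cl_coord_mem {n : ℕ} (i : Fin n) : cl (fun z : E n => z i) ∈ S0 n :=
  Submodule.subset_span ⟨i, rfl⟩

theorem P0_eq {n : ℕ} (s : Lp ℂ 2 (G n)) :
    (S0 n).starProjection s = ∑ i, inner ℂ (cl (fun z : E n => z i)) s • cl (fun z : E n => z i) := by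
  apply Submodule.eq_starProjection_of_mem_of_inner_eq_zero
  · exact Submodule.sum_mem _ fun i _ => Submodule.smul_mem _ _ (cl_coord_mem i)
  · intro w hw
    obtain ⟨c, rfl⟩ := (Submodule.mem_span_range_iff_exists_fun ℂ).mp hw
    rw [inner_sum]
    refine Finset.sum_eq_zero fun j _ => ?_
    rw [inner_smul_right, inner_sub_left, sum_inner]
    have : ∀ i, inner ℂ (inner ℂ (cl (fun z : E n => z i)) s • cl (fun z : E n => z i))
        (cl (fun z : E n => z j)) = conj (inner ℂ (cl (fun z : E n => z i)) s) *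
          (if i = j then 1 else 0) := by
      intro i
      rw [inner_smul_left, inner_cl_coord]
    simp_rw [this]
    simp

theorem norm_cl_coord {n : ℕ} (i : Fin n) : ‖cl (fun z : E n => z i)‖ = 1 := by
  have h := inner_cl_coord i i
  rw [inner_self_eq_norm_sq_to_K] at h
  simp only [if_true] at h
  have h2 : ‖cl (fun z : E n => z i)‖ ^ 2 = 1 := by
    have h3 : ((‖cl (fun z : E n => z i)‖ ^ 2 : ℝ) : ℂ) = ((1 : ℝ) : ℂ) := by
      push_cast; exact h
    exact Complex.ofReal_injective h3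
  exact (pow_eq_one_iff_of_nonneg (norm_nonneg _) two_ne_zero).mp h2

theorem exists_unitary_single {n : ℕ} (v : E (n + 1)) (hv : ‖v‖ = 1) :
    ∃ U : E (n + 1) ≃ₗᵢ[ℂ] E (n + 1), U (EuclideanSpace.single 0 1) = v := by
  have h0 : Orthonormal ℂ (({0} : Set (Fin (n + 1))).domRestrict (fun _ => v)) := by
    rw [orthonormal_iff_ite]
    rintro ⟨i, hi⟩ ⟨j, hj⟩
    simp only [mem_singleton_iff] at hi hj
    subst hi; subst hj
    simp [Set.domRestrict, inner_self_eq_norm_sq_to_K, hv]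
  obtain ⟨b, hb⟩ := h0.exists_orthonormalBasis_extension_of_card_eq
    (by simp)
  refine ⟨b.repr.symm, ?_⟩
  rw [OrthonormalBasis.repr_symm_single]
  exact hb 0 rfl

theorem exists_rot {n : ℕ} (s : Lp ℂ 2 (G (n + 1))) :
    ∃ (U : E (n + 1) ≃ₗᵢ[ℂ] E (n + 1)) (c : ℝ), 0 ≤ c ∧
      (S0 (n + 1)).starProjection (CU U s) = (c : ℂ) • cl (fun z : E (n + 1) => z 0) := by
  set α : Fin (n + 1) → ℂ := fun i => inner ℂ (cl (fun z : E (n + 1) => z i)) s with hα
  set x : E (n + 1) := WithLp.toLp 2 (fun i => conj (α i)) with hx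
  by_cases hx0 : x = 0
  · refine ⟨LinearIsometryEquiv.refl ℂ _, 0, le_rfl, ?_⟩
    rw [starProjection_CU _ (S0 (n + 1)) CU_S0 s, P0_eq]
    have : ∀ i, α i = 0 := by
      intro i
      have h := congrArg (fun y : E (n + 1) => conj (y i)) hx0
      simpa [hx] using h
    have h0 : ∑ i, inner ℂ (cl (fun z : E (n + 1) => z i)) s • cl (fun z : E (n + 1) => z i) = 0 :=
      Finset.sum_eq_zero fun i _ => by
        rw [show inner ℂ (cl (fun z : E (n + 1) => z i)) s = 0 from this i, zero_smul]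
    rw [h0, map_zero]
    simp
  · have hxn : ‖x‖ ≠ 0 := by simpa using hx0
    obtain ⟨U, hU⟩ := exists_unitary_single (((‖x‖ : ℂ)⁻¹) • x) (by
      rw [norm_smul]; simp [hxn])
    refine ⟨U, ‖x‖, norm_nonneg _, ?_⟩
    rw [starProjection_CU _ (S0 (n + 1)) CU_S0 s, P0_eq, map_sum]
    simp_rw [map_smul]
    have e1 : ∀ i, CU U (cl (fun z : E (n + 1) => z i)) = cl (fun z => (U z) i) :=
      fun i => CU_cl U (memLp_coord2 i)
    simp_rw [e1]
    have hm : ∀ i, MemLp (fun z : E (n + 1) => (U z) i) 2 (G (n + 1)) := fun i =>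
      (memLp_coord2 i).comp_measurePreserving (G_unitary _ U)
    have e2 := cl_sum α (fun i (z : E (n + 1)) => (U z) i) hm
    rw [← e2]
    have e3 : (fun z : E (n + 1) => ∑ i, α i * (U z) i) = fun z => ∑ _j : Unit, ((‖x‖ : ℂ)) * z 0 := by
      ext z
      have e4 : inner ℂ x (U z) = ∑ i, α i * (U z) i := by
        rw [PiLp.inner_apply]
        refine Finset.sum_congr rfl fun i _ => ?_
        simp [hx, mul_comm]
      rw [← e4]
      have e5 : x = ((‖x‖ : ℂ)) • U (EuclideanSpace.single 0 1) := by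
        rw [hU, smul_smul, mul_inv_cancel₀ (by exact_mod_cast hxn), one_smul]
      conv_lhs => rw [e5]
      rw [inner_smul_left, LinearIsometryEquiv.inner_map_map, EuclideanSpace.inner_single_left]
      simp
    rw [e3, cl_sum (fun _ : Unit => (‖x‖ : ℂ)) (fun _ (z : E (n + 1)) => z 0)
      (fun _ => memLp_coord2 0)]
    simp

theorem ae_CU {n : ℕ} (U : E n ≃ₗᵢ[ℂ] E n) (f : Lp ℂ 2 (G n)) (hf : ∀ᵐ z ∂(G n), ‖f z‖ ≤ 1) :
    ∀ᵐ z ∂(G n), ‖CU U f z‖ ≤ 1 := by
  have h2 : ∀ᵐ z ∂(G n), ‖f (U z)‖ ≤ 1 :=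
    (G_unitary n U).quasiMeasurePreserving.ae hf
  filter_upwards [CU_coe U f, h2] with z h1 h2
  rw [h1]; exact h2

theorem re_inner_le {n : ℕ} (h f : Lp ℂ 2 (G n)) (hf : ∀ᵐ z ∂(G n), ‖f z‖ ≤ 1) :
    (inner ℂ h f : ℂ).re ≤ ∫ z, ‖h z‖ ∂(G n) := by
  rw [L2.inner_def]
  have hint : Integrable (fun z => ‖h z‖) (G n) :=
    ((Lp.memLp h).integrable (by norm_num)).norm
  calc (∫ z, inner ℂ (h z) (f z) ∂(G n)).re ≤ ‖∫ z, inner ℂ (h z) (f z) ∂(G n)‖ := re_le_norm _
    _ ≤ ∫ z, ‖h z‖ ∂(G n) := by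
        refine norm_integral_le_of_norm_le hint ?_
        filter_upwards [hf] with z hz
        refine (norm_inner_le_norm _ _).trans ?_
        exact mul_le_of_le_one_right (norm_nonneg _) hz

theorem Lp_norm_le_one {n : ℕ} (f : Lp ℂ 2 (G n)) (hf : ∀ᵐ z ∂(G n), ‖f z‖ ≤ 1) : ‖f‖ ≤ 1 := by
  have := Lp.norm_le_of_ae_bound (f := f) (C := 1) zero_le_one hf
  have h1 : measureUnivNNReal (G n) = 1 := by simp [measureUnivNNReal]
  simpa [h1] using this

/-- Fubini -/
theorem fubini {n : ℕ} (F : E (n + 1) → ℝ) (hF : Integrable F (G (n + 1))) :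
    ∫ z, F z ∂(G (n + 1)) = ∫ w, ∫ ζ, F (consE ζ w) ∂cg ∂(G n) ∧
      Integrable (fun w => ∫ ζ, F (consE ζ w) ∂cg) (G n) := by
  have hm := G_succ n
  have hF' : Integrable F ((cg.prod (G n)).map (fun p : ℂ × E n => consE p.1 p.2)) := by
    rw [hm.map_eq]; exact hF
  have hF2 : Integrable (fun p : ℂ × E n => F (consE p.1 p.2)) (cg.prod (G n)) :=
    hF'.comp_measurable hm.measurable
  constructor
  · rw [← hm.map_eq, integral_map hm.measurable.aemeasurable hF'.1]
    exact integral_prod_symm _ hF2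
  · exact hF2.integral_prod_right

end GLB
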