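import Pool.Agent.Lib.MP_721eb4_an.LB.GaussN
import Pool.Agent.Lib.MP_721eb4_an.LB.Moments

set_option autoImplicit false

open MeasureTheory Complex Set
open scoped ComplexConjugate ENNReal

namespace GLB

/-! Decomposition of an element of the (2,1)-chaos by the first coordinate. -/

section Split

variable {n : ℕ}

theorem consE_zero (ζ : ℂ) (w : E n) : (consE ζ w) 0 = ζ := rfl

theorem consE_succ (ζ : ℂ) (w : E n) (i : Fin n) : (consE ζ w) i.succ = w i := rfl

/-- coefficient of `1` -/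
noncomputable def sb1 (t : Fin (n + 1) → Fin (n + 1) → Fin (n + 1) → ℂ) (w : E n) : ℂ :=
  ∑ i : Fin n, ∑ j : Fin n, ∑ k : Fin n, t i.succ j.succ k.succ * Hp i j k w

/-- coefficient of `|z|² - 1` -/
noncomputable def sb10 (t : Fin (n + 1) → Fin (n + 1) → Fin (n + 1) → ℂ) (w : E n) : ℂ :=
  ∑ j : Fin n, (t 0 j.succ 0 + t j.succ 0 0) * w j

/-- coefficient of `z` -/
noncomputable def sb11 (t : Fin (n + 1) → Fin (n + 1) → Fin (n + 1) → ℂ) (w : E n) : ℂ :=
  ∑ j : Fin n, ∑ k : Fin n, (t 0 j.succ k.succ + t j.succ 0 k.succ) *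
    (w j * conj (w k) - if j = k then 1 else 0)

/-- coefficient of `conj z` -/
noncomputable def sb20 (t : Fin (n + 1) → Fin (n + 1) → Fin (n + 1) → ℂ) (w : E n) : ℂ :=
  ∑ i : Fin n, ∑ j : Fin n, t i.succ j.succ 0 * (w i * w j)

/-- coefficient of `z² / √2` -/
noncomputable def sb01 (t : Fin (n + 1) → Fin (n + 1) → Fin (n + 1) → ℂ) (w : E n) : ℂ :=
  ∑ k : Fin n, ((√2 : ℝ) : ℂ) * t 0 0 k.succ * conj (w k)

theorem sq2_mul : ((√2 : ℝ) : ℂ) * ((√2 : ℝ) : ℂ) = 2 := by
  rw [← Complex.ofReal_mul, Real.mul_self_sqrt (by norm_num)]; norm_num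

theorem sq2_ne : ((√2 : ℝ) : ℂ) ≠ 0 := by
  rw [Ne, Complex.ofReal_eq_zero]; positivity

theorem mul_conj_norm (ζ : ℂ) : ζ * conj ζ = ((‖ζ‖ ^ 2 : ℝ) : ℂ) := by
  rw [Complex.mul_conj, Complex.normSq_eq_norm_sq]

theorem Hp_sss (ζ : ℂ) (w : E n) (i j k : Fin n) :
    Hp i.succ j.succ k.succ (consE ζ w) = Hp i j k w := by
  simp only [Hp, consE_succ, Fin.succ_inj]

theorem Hp_ss0 (ζ : ℂ) (w : E n) (i j : Fin n) :
    Hp i.succ j.succ 0 (consE ζ w) = w i * w j * conj ζ := by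
  simp [Hp, consE_succ, consE_zero, Fin.succ_ne_zero]

theorem Hp_0ss (ζ : ℂ) (w : E n) (j k : Fin n) :
    Hp 0 j.succ k.succ (consE ζ w) = (w j * conj (w k) - if j = k then 1 else 0) * ζ := by
  simp only [Hp, consE_succ, consE_zero, Fin.succ_inj, (Fin.succ_ne_zero k).symm, if_false]
  split_ifs <;> ring

theorem Hp_s0s (ζ : ℂ) (w : E n) (i k : Fin n) :
    Hp i.succ 0 k.succ (consE ζ w) = (w i * conj (w k) - if i = k then 1 else 0) * ζ := by
  simp only [Hp, consE_succ, consE_zero, Fin.succ_inj, (Fin.succ_ne_zero k).symm, if_false]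
  split_ifs <;> ring

theorem Hp_00s (ζ : ℂ) (w : E n) (k : Fin n) :
    Hp 0 0 k.succ (consE ζ w) = conj (w k) * ζ ^ 2 := by
  simp only [Hp, consE_succ, consE_zero, (Fin.succ_ne_zero k).symm, if_false]
  ring

theorem Hp_0s0 (ζ : ℂ) (w : E n) (j : Fin n) :
    Hp 0 j.succ 0 (consE ζ w) = w j * ((‖ζ‖ ^ 2 - 1 : ℝ) : ℂ) := by
  simp only [Hp, consE_succ, consE_zero, Fin.succ_ne_zero, if_false, if_true]
  rw [Complex.ofReal_sub, ← mul_conj_norm, Complex.ofReal_one]
  ring

theorem Hp_s00 (ζ : ℂ) (w : E n) (i : Fin n) :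
    Hp i.succ 0 0 (consE ζ w) = w i * ((‖ζ‖ ^ 2 - 1 : ℝ) : ℂ) := by
  simp only [Hp, consE_succ, consE_zero, Fin.succ_ne_zero, if_false, if_true]
  rw [Complex.ofReal_sub, ← mul_conj_norm, Complex.ofReal_one]
  ring

theorem Hp_000 (ζ : ℂ) (w : E n) :
    Hp 0 0 0 (consE ζ w) = ζ * ((‖ζ‖ ^ 2 - 2 : ℝ) : ℂ) := by
  simp only [Hp, consE_zero, if_true]
  rw [Complex.ofReal_sub, ← mul_conj_norm, Complex.ofReal_ofNat]
  ring

theorem split_eq (t : Fin (n + 1) → Fin (n + 1) → Fin (n + 1) → ℂ) (ζ : ℂ) (w : E n) :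
    ∑ i, ∑ j, ∑ k, t i j k * Hp i j k (consE ζ w)
      = qp (sb1 t w) (sb10 t w) (sb11 t w) (((√2 : ℝ) : ℂ) * t 0 0 0) (sb20 t w) (sb01 t w) ζ := by
  have h2 := sq2_ne
  have h1 : sb1 t w = ∑ i : Fin n, ∑ j : Fin n, ∑ k : Fin n,
      t i.succ j.succ k.succ * Hp i.succ j.succ k.succ (consE ζ w) := by
    simp only [Hp_sss, sb1]
  have h10 : sb10 t w * ((‖ζ‖ ^ 2 - 1 : ℝ) : ℂ) =
      ∑ j : Fin n, t 0 j.succ 0 * Hp 0 j.succ 0 (consE ζ w) +
      ∑ j : Fin n, t j.succ 0 0 * Hp j.succ 0 0 (consE ζ w) := by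
    simp only [Hp_0s0, Hp_s00, sb10, Finset.sum_mul, ← Finset.sum_add_distrib]
    exact Finset.sum_congr rfl fun j _ => by ring
  have h11 : sb11 t w * ζ =
      ∑ j : Fin n, ∑ k : Fin n, t 0 j.succ k.succ * Hp 0 j.succ k.succ (consE ζ w) +
      ∑ j : Fin n, ∑ k : Fin n, t j.succ 0 k.succ * Hp j.succ 0 k.succ (consE ζ w) := by
    simp only [Hp_0ss, Hp_s0s, sb11, Finset.sum_mul, ← Finset.sum_add_distrib]
    exact Finset.sum_congr rfl fun j _ => Finset.sum_congr rfl fun k _ => by ring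
  have h20 : sb20 t w * conj ζ =
      ∑ i : Fin n, ∑ j : Fin n, t i.succ j.succ 0 * Hp i.succ j.succ 0 (consE ζ w) := by
    simp only [Hp_ss0, sb20, Finset.sum_mul]
    exact Finset.sum_congr rfl fun j _ => Finset.sum_congr rfl fun k _ => by ring
  have h01 : sb01 t w * (ζ ^ 2 / ((√2 : ℝ) : ℂ)) =
      ∑ k : Fin n, t 0 0 k.succ * Hp 0 0 k.succ (consE ζ w) := by
    simp only [Hp_00s, sb01, Finset.sum_mul]
    exact Finset.sum_congr rfl fun j _ => by field_simp
  have h0 : (((√2 : ℝ) : ℂ) * t 0 0 0) * (ζ * ((‖ζ‖ ^ 2 - 2 : ℝ) : ℂ) / ((√2 : ℝ) : ℂ)) =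
      t 0 0 0 * Hp 0 0 0 (consE ζ w) := by
    rw [Hp_000]; field_simp
  rw [qp, h10, h11, h20, h01, h0, h1]
  simp only [Fin.sum_univ_succ, Finset.sum_add_distrib]
  ring

theorem memLp_sb1 (t : Fin (n + 1) → Fin (n + 1) → Fin (n + 1) → ℂ) :
    MemLp (sb1 t) 2 (G n) :=
  memLp_finsetSum _ fun i _ => memLp_finsetSum _ fun j _ => memLp_finsetSum _ fun k _ =>
    (memLp_Hp n i j k 2 (by norm_num)).const_mul _

theorem memLp_sb10 (t : Fin (n + 1) → Fin (n + 1) → Fin (n + 1) → ℂ) :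
    MemLp (sb10 t) 2 (G n) :=
  memLp_finsetSum _ fun j _ => (memLp_coord n j 2 (by norm_num)).const_mul _

theorem memLp_sb11 (t : Fin (n + 1) → Fin (n + 1) → Fin (n + 1) → ℂ) :
    MemLp (sb11 t) 2 (G n) :=
  memLp_finsetSum _ fun j _ => memLp_finsetSum _ fun k _ =>
    ((memLp_prod2' n j k 2 (by norm_num)).sub (memLp_const _)).const_mul _

theorem memLp_sb20 (t : Fin (n + 1) → Fin (n + 1) → Fin (n + 1) → ℂ) :
    MemLp (sb20 t) 2 (G n) :=
  memLp_finsetSum _ fun i _ => memLp_finsetSum _ fun j _ =>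
    (memLp_prod2 n i j 2 (by norm_num)).const_mul _

theorem memLp_sb01 (t : Fin (n + 1) → Fin (n + 1) → Fin (n + 1) → ℂ) :
    MemLp (sb01 t) 2 (G n) :=
  memLp_finsetSum _ fun k _ => (memLp_coord n k 2 (by norm_num)).star.const_mul _

theorem integrable_Hp_conj (i j k l : Fin n) :
    Integrable (fun z : E n => Hp i j k z * conj (z l)) (G n) :=
  (memLp_Hp n i j k 2 (by norm_num)).integrable_mul (memLp_coord n l 2 (by norm_num)).star

/-- decomposition of an element of the (2,1)-chaos by the first coordinate -/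
theorem split (n : ℕ) (t : Fin (n + 1) → Fin (n + 1) → Fin (n + 1) → ℂ) :
    ∃ (b1 b10 b11 b20 b01 : E n → ℂ) (b0 : ℂ),
      (∀ (ζ : ℂ) (w : E n), ∑ i, ∑ j, ∑ k, t i j k * Hp i j k (consE ζ w)
        = qp (b1 w) (b10 w) (b11 w) b0 (b20 w) (b01 w) ζ) ∧
      MemLp b1 2 (G n) ∧ MemLp b10 2 (G n) ∧ MemLp b11 2 (G n) ∧ MemLp b20 2 (G n) ∧
      MemLp b01 2 (G n) ∧
      ∫ w, b1 w * conj (b10 w) ∂(G n) = 0 ∧ ∫ w, b1 w * b01 w ∂(G n) = 0 ∧
      ∫ w, b11 w ∂(G n) = 0 := by
  refine ⟨sb1 t, sb10 t, sb11 t, sb20 t, sb01 t, ((√2 : ℝ) : ℂ) * t 0 0 0,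
    fun ζ w => split_eq t ζ w, memLp_sb1 t, memLp_sb10 t, memLp_sb11 t, memLp_sb20 t,
    memLp_sb01 t, ?_, ?_, ?_⟩
  · have e : ∀ w : E n, sb1 t w * conj (sb10 t w) =
        ∑ l : Fin n, ∑ i : Fin n, ∑ j : Fin n, ∑ k : Fin n,
          (conj (t 0 l.succ 0 + t l.succ 0 0) * t i.succ j.succ k.succ) *
            (Hp i j k w * conj (w l)) := by
      intro w
      simp only [sb1, sb10, map_sum, map_mul, Finset.mul_sum, Finset.sum_mul]
      exact Finset.sum_congr rfl fun l _ => Finset.sum_congr rfl fun i _ =>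
        Finset.sum_congr rfl fun j _ => Finset.sum_congr rfl fun k _ => by ring
    simp only [e]
    rw [integral_finsetSum _ fun l _ => integrable_finsetSum _ fun i _ =>
      integrable_finsetSum _ fun j _ => integrable_finsetSum _ fun k _ =>
        (integrable_Hp_conj i j k l).const_mul _]
    refine Finset.sum_eq_zero fun l _ => ?_
    rw [integral_finsetSum _ fun i _ =>
      integrable_finsetSum _ fun j _ => integrable_finsetSum _ fun k _ =>
        (integrable_Hp_conj i j k l).const_mul _]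
    refine Finset.sum_eq_zero fun i _ => ?_
    rw [integral_finsetSum _ fun j _ => integrable_finsetSum _ fun k _ =>
        (integrable_Hp_conj i j k l).const_mul _]
    refine Finset.sum_eq_zero fun j _ => ?_
    rw [integral_finsetSum _ fun k _ => (integrable_Hp_conj i j k l).const_mul _]
    refine Finset.sum_eq_zero fun k _ => ?_
    rw [integral_const_mul, integral_Hp_mul_conj, mul_zero]
  · have e : ∀ w : E n, sb1 t w * sb01 t w =
        ∑ l : Fin n, ∑ i : Fin n, ∑ j : Fin n, ∑ k : Fin n,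
          ((((√2 : ℝ) : ℂ) * t 0 0 l.succ) * t i.succ j.succ k.succ) *
            (Hp i j k w * conj (w l)) := by
      intro w
      simp only [sb1, sb01, Finset.mul_sum, Finset.sum_mul]
      exact Finset.sum_congr rfl fun l _ => Finset.sum_congr rfl fun i _ =>
        Finset.sum_congr rfl fun j _ => Finset.sum_congr rfl fun k _ => by ring
    simp only [e]
    rw [integral_finsetSum _ fun l _ => integrable_finsetSum _ fun i _ =>
      integrable_finsetSum _ fun j _ => integrable_finsetSum _ fun k _ =>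
        (integrable_Hp_conj i j k l).const_mul _]
    refine Finset.sum_eq_zero fun l _ => ?_
    rw [integral_finsetSum _ fun i _ =>
      integrable_finsetSum _ fun j _ => integrable_finsetSum _ fun k _ =>
        (integrable_Hp_conj i j k l).const_mul _]
    refine Finset.sum_eq_zero fun i _ => ?_
    rw [integral_finsetSum _ fun j _ => integrable_finsetSum _ fun k _ =>
        (integrable_Hp_conj i j k l).const_mul _]
    refine Finset.sum_eq_zero fun j _ => ?_
    rw [integral_finsetSum _ fun k _ => (integrable_Hp_conj i j k l).const_mul _]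
    refine Finset.sum_eq_zero fun k _ => ?_
    rw [integral_const_mul, integral_Hp_mul_conj, mul_zero]
  · have hint : ∀ j k : Fin n, Integrable (fun w : E n =>
        w j * conj (w k) - if j = k then 1 else 0) (G n) := fun j k =>
      ((memLp_prod2' n j k 1 (by norm_num)).integrable le_rfl).sub (integrable_const _)
    simp only [sb11]
    rw [integral_finsetSum _ fun j _ => integrable_finsetSum _ fun k _ =>
      (hint j k).const_mul _]
    refine Finset.sum_eq_zero fun j _ => ?_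
    rw [integral_finsetSum _ fun k _ => (hint j k).const_mul _]
    refine Finset.sum_eq_zero fun k _ => ?_
    rw [integral_const_mul, integral_sub ((memLp_prod2' n j k 1 (by norm_num)).integrable le_rfl)
      (integrable_const _), integral_coord_mul_conj, integral_const]
    simp

end Split

end GLB
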