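import Pool.Agent.Lib.MP_721eb4_an.LB.Oper
import Pool.Agent.Lib.MP_721eb4_an.LB.Split
import Pool.Agent.Lib.MP_721eb4_an.LB.OneVar

set_option autoImplicit false

open MeasureTheory Complex Set
open scoped ComplexConjugate ENNReal

namespace GLB

/-- the function `z₀ (|z₀|² - 2) / √2` -/
noncomputable def e0 (n : ℕ) : Lp ℂ 2 (G (n + 1)) :=
  ((((√2 : ℝ) : ℂ))⁻¹) • cl (Hp (0 : Fin (n + 1)) 0 0)

theorem e0_mem (n : ℕ) : e0 n ∈ S1 (n + 1) :=
  Submodule.smul_mem _ _ (Submodule.subset_span ⟨(0, 0, 0), rfl⟩)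

theorem e0_coe (n : ℕ) : e0 n =ᵐ[G (n + 1)] fun z => qp 0 0 0 1 0 0 (z 0) := by
  filter_upwards [Lp.coeFn_smul ((((√2 : ℝ) : ℂ))⁻¹) (cl (Hp (0 : Fin (n + 1)) 0 0)),
    coeFn_cl (memLp_Hp2 (0 : Fin (n + 1)) 0 0)] with z h1 h2
  rw [e0, h1, Pi.smul_apply, h2, smul_eq_mul, Hp, qp]
  have h3 : z.ofLp 0 * z.ofLp 0 * conj (z.ofLp 0) = z.ofLp 0 * ((‖z.ofLp 0‖ ^ 2 : ℝ) : ℂ) := by
    rw [mul_assoc, Complex.mul_conj, Complex.normSq_eq_norm_sq]
  simp only [if_true, h3]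
  push_cast
  ring

theorem continuous_qp (b1 b10 b11 b0 b20 b01 : ℂ) : Continuous (qp b1 b10 b11 b0 b20 b01) := by
  unfold qp
  fun_prop

theorem continuous_af (l β : ℝ) : Continuous (af l β) := by
  unfold af
  fun_prop

theorem continuous_coord {n : ℕ} (i : Fin n) : Continuous (fun z : E n => z i) := by
  fun_prop

theorem norm_sq_eq_integral {n : ℕ} (f : Lp ℂ 2 (G n)) :
    ‖f‖ ^ 2 = ∫ z, ‖f z‖ ^ 2 ∂(G n) := by
  have h := inner_self_eq_norm_sq_to_K (𝕜 := ℂ) f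
  rw [L2.inner_def] at h
  have h2 : (fun a => inner ℂ (f a) (f a)) = fun a => ((‖f a‖ ^ 2 : ℝ) : ℂ) := by
    ext a
    rw [inner_self_eq_norm_sq_to_K]
    push_cast; rfl
  rw [h2, integral_complex_ofReal] at h
  have h3 : ((∫ z, ‖f z‖ ^ 2 ∂(G n) : ℝ) : ℂ) = ((‖f‖ ^ 2 : ℝ) : ℂ) := by
    rw [h]; push_cast; rfl
  exact (Complex.ofReal_injective h3).symm

theorem norm_e0 (n : ℕ) : ‖e0 n‖ = 1 := by
  have h2 : ∫ z, ‖e0 n z‖ ^ 2 ∂(G (n + 1)) =
      ∫ z : E (n + 1), ‖qp 0 0 0 1 0 0 (z 0)‖ ^ 2 ∂(G (n + 1)) := by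
    refine integral_congr_ae ?_
    filter_upwards [e0_coe n] with z hz
    rw [hz]
  have hint : Integrable (fun z : E (n + 1) => ‖qp 0 0 0 1 0 0 (z 0)‖ ^ 2) (G (n + 1)) := by
    have h3 : MemLp (fun z : E (n + 1) => qp 0 0 0 1 0 0 (z 0)) 2 (G (n + 1)) :=
      (memLp_congr_ae (e0_coe n)).mp (Lp.memLp _)
    exact h3.integrable_norm_pow (by norm_num)
  have h3 := (fubini _ hint).1
  have h4 : ‖e0 n‖ ^ 2 = 1 := by
    rw [norm_sq_eq_integral, h2, h3]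
    simp [consE_zero, integral_qp_sq]
  exact (pow_eq_one_iff_of_nonneg (norm_nonneg _) two_ne_zero).mp h4

theorem re_inner_proj {n : ℕ} (S : Submodule ℂ (Lp ℂ 2 (G n))) [S.HasOrthogonalProjection]
    (s d : Lp ℂ 2 (G n)) :
    (inner ℂ (S.starProjection (s + d)) (s - d) : ℂ).re
      = ‖S.starProjection s‖ ^ 2 - ‖S.starProjection d‖ ^ 2 := by
  have h1 : ∀ v : Lp ℂ 2 (G n), (inner ℂ (S.starProjection v) v : ℂ).re
      = ‖S.starProjection v‖ ^ 2 := by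
    intro v
    have h := S.re_inner_starProjection_eq_normSq v
    rw [show ‖S.orthogonalProjectionOnto v‖ = ‖S.starProjection v‖ from rfl] at h
    exact h
  have h2 : (inner ℂ (S.starProjection d) s : ℂ).re = (inner ℂ (S.starProjection s) d : ℂ).re := by
    rw [Submodule.inner_starProjection_left_eq_right, ← inner_conj_symm, Complex.conj_re]
  rw [map_add, inner_add_left, inner_sub_right, inner_sub_right]
  simp only [Complex.add_re, Complex.sub_re]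
  rw [h1 s, h1 d, h2]
  ring

theorem neg_norm_sq_le {n : ℕ} (s : Lp ℂ 2 (G (n + 1))) (κ : ℝ) :
    -‖(S1 (n + 1)).starProjection s‖ ^ 2 ≤ κ ^ 2 + 2 * κ * (inner ℂ (e0 n) s : ℂ).re := by
  have h0 : (0 : ℝ) ≤ ‖(S1 (n + 1)).starProjection s + (κ : ℂ) • e0 n‖ ^ 2 := by positivity
  rw [@norm_add_sq ℂ] at h0
  rw [inner_smul_right, Submodule.inner_starProjection_left_eq_right,
    (S1 (n + 1)).starProjection_eq_self_iff.mpr (e0_mem n), norm_smul, norm_e0] at h0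
  have h1 : RCLike.re ((κ : ℂ) * inner ℂ s (e0 n)) = κ * (inner ℂ (e0 n) s : ℂ).re := by
    rw [← inner_conj_symm (e0 n) s, Complex.conj_re]
    simp
  rw [h1] at h0
  have h2 : (‖(κ : ℂ)‖ * 1) ^ 2 = κ ^ 2 := by simp
  rw [h2] at h0
  linarith

theorem exists_tensor {n : ℕ} (p : Lp ℂ 2 (G n)) (hp : p ∈ S1 n) :
    ∃ t : Fin n → Fin n → Fin n → ℂ, p =ᵐ[G n] fun z => ∑ i, ∑ j, ∑ k, t i j k * Hp i j k z := by
  obtain ⟨c, hc⟩ := (Submodule.mem_span_range_iff_exists_fun ℂ).mp hp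
  refine ⟨fun i j k => c (i, j, k), ?_⟩
  have h1 := cl_sum c (fun q : Fin n × Fin n × Fin n => Hp q.1 q.2.1 q.2.2)
    (fun q => memLp_Hp2 _ _ _)
  have hm : MemLp (fun z => ∑ q : Fin n × Fin n × Fin n, c q * Hp q.1 q.2.1 q.2.2 z) 2 (G n) :=
    memLp_finsetSum _ (fun q _ => (memLp_Hp2 _ _ _).const_mul (c q))
  rw [← hc, ← h1]
  refine (coeFn_cl hm).trans (Filter.Eventually.of_forall fun z => ?_)
  simp only [Fintype.sum_prod_type]

theorem A_coe (n : ℕ) (l β μ : ℝ) (hμ : 0 < μ) :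
    (((l : ℂ) • cl (fun z : E (n + 1) => z 0) + ((μ * (l * β * √2 / μ) : ℝ) : ℂ) • e0 n :
      Lp ℂ 2 (G (n + 1)))) =ᵐ[G (n + 1)] fun z => af l β (z 0) := by
  filter_upwards [Lp.coeFn_add ((l : ℂ) • cl (fun z : E (n + 1) => z 0))
    (((μ * (l * β * √2 / μ) : ℝ) : ℂ) • e0 n), Lp.coeFn_smul (l : ℂ) (cl (fun z : E (n + 1) => z 0)),
    Lp.coeFn_smul ((μ * (l * β * √2 / μ) : ℝ) : ℂ) (e0 n), e0_coe n,
    coeFn_cl (memLp_coord2 (0 : Fin (n + 1)))] with z h1 h2 h3 h4 h5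
  rw [h1, Pi.add_apply, h2, h3, Pi.smul_apply, Pi.smul_apply, h4, h5, smul_eq_mul, smul_eq_mul,
    af, qp]
  have h6 : μ * (l * β * √2 / μ) = l * β * √2 := by field_simp
  rw [h6]
  have h7 : (((√2 : ℝ)) : ℂ) ≠ 0 := by
    simp
  push_cast
  field_simp
  ring

theorem integral_comb {n : ℕ} (C μ a b c : ℝ) (F1 F2 F3 F4 : E n → ℝ)
    (h1 : Integrable F1 (G n)) (h2 : Integrable F2 (G n)) (h3 : Integrable F3 (G n))
    (h4 : Integrable F4 (G n)) :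
    ∫ w, (C + μ * F1 w + a * F2 w + b * F3 w + c * F4 w) ∂(G n)
      = C + μ * ∫ w, F1 w ∂(G n) + a * ∫ w, F2 w ∂(G n) + b * ∫ w, F3 w ∂(G n)
        + c * ∫ w, F4 w ∂(G n) := by
  have e0 : Integrable (fun _ : E n => C) (G n) := integrable_const _
  have e1 : Integrable (fun w => μ * F1 w) (G n) := h1.const_mul μ
  have e2 : Integrable (fun w => a * F2 w) (G n) := h2.const_mul a
  have e3 : Integrable (fun w => b * F3 w) (G n) := h3.const_mul b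
  have e4 : Integrable (fun w => c * F4 w) (G n) := h4.const_mul c
  have e01 : Integrable (fun w => C + μ * F1 w) (G n) := e0.add e1
  have e02 : Integrable (fun w => C + μ * F1 w + a * F2 w) (G n) := e01.add e2
  have e03 : Integrable (fun w => C + μ * F1 w + a * F2 w + b * F3 w) (G n) := e02.add e3
  rw [integral_add e03 e4, integral_add e02 e3, integral_add e01 e2, integral_add e0 e1,
    integral_const_mul, integral_const_mul, integral_const_mul, integral_const_mul]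
  simp

theorem core (μ V : ℝ) (hμ : 0 < μ) (hOne : One μ V) (n : ℕ) (f g : Lp ℂ 2 (G (n + 1)))
    (hf : ∀ᵐ z ∂(G (n + 1)), ‖f z‖ ≤ 1) (hg : ∀ᵐ z ∂(G (n + 1)), ‖g z‖ ≤ 1) (c : ℝ)
    (hc0 : 0 ≤ c) (hc : (S0 (n + 1)).starProjection (((2 : ℂ)⁻¹) • (f + g))
      = (c : ℂ) • cl (fun z : E (n + 1) => z 0)) :
    (inner ℂ (T μ (n + 1) f) g : ℂ).re ≤ V := by
  set s : Lp ℂ 2 (G (n + 1)) := ((2 : ℂ)⁻¹) • (f + g) with hs
  set d : Lp ℂ 2 (G (n + 1)) := ((2 : ℂ)⁻¹) • (f - g) with hd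
  have hfs : f = s + d := by
    rw [hs, hd, ← smul_add, add_add_sub_cancel, ← two_smul ℂ f, smul_smul]
    norm_num
  have hgs : g = s - d := by
    rw [hs, hd, ← smul_sub, add_sub_sub_cancel, ← two_smul ℂ g, smul_smul]
    norm_num
  set Z : Lp ℂ 2 (G (n + 1)) := cl (fun z : E (n + 1) => z 0) with hZ
  have hZn : ‖Z‖ = 1 := norm_cl_coord 0
  have hPs : ‖(S0 (n + 1)).starProjection s‖ = c := by
    rw [hc, norm_smul, hZn]; simp [abs_of_nonneg hc0]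
  have hs1 : ‖s‖ ≤ 1 := by
    rw [hs, norm_smul]
    have := norm_add_le f g
    have h1 := Lp_norm_le_one f hf
    have h2 := Lp_norm_le_one g hg
    have h3 : ‖(2 : ℂ)⁻¹‖ = 2⁻¹ := by simp
    rw [h3]; linarith
  have hc1 : c ≤ 1 := by
    rw [← hPs]; exact ((S0 (n + 1)).norm_starProjection_apply_le s).trans hs1
  obtain ⟨l, β, η₁, η₂, η₃, hO⟩ := hOne c hc0 hc1
  set κ : ℝ := l * β * √2 / μ with hκ
  set A : Lp ℂ 2 (G (n + 1)) := (l : ℂ) • Z + ((μ * κ : ℝ) : ℂ) • e0 n with hA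
  have hAc : A =ᵐ[G (n + 1)] fun z => af l β (z 0) := A_coe n l β μ hμ
  set p : Lp ℂ 2 (G (n + 1)) := (S1 (n + 1)).starProjection d with hp
  obtain ⟨t, ht⟩ := exists_tensor p ((S1 (n + 1)).starProjection_apply_mem d)
  -- the quadratic identity
  have hI1 : (inner ℂ (T μ (n + 1) f) g : ℂ).re = c ^ 2 - μ * ‖(S1 (n + 1)).starProjection s‖ ^ 2
      - ‖(S0 (n + 1)).starProjection d‖ ^ 2 + μ * ‖p‖ ^ 2 := by
    have h0 := re_inner_proj (S0 (n + 1)) s d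
    have h1 := re_inner_proj (S1 (n + 1)) s d
    have h2 : inner ℂ (T μ (n + 1) (s + d)) (s - d)
        = inner ℂ ((S0 (n + 1)).starProjection (s + d)) (s - d)
          - (μ : ℂ) * inner ℂ ((S1 (n + 1)).starProjection (s + d)) (s - d) := by
      simp only [T, sub_apply, smul_apply]
      rw [inner_sub_left, inner_smul_left, Complex.conj_ofReal]
    rw [hfs, hgs, h2, Complex.sub_re, Complex.re_ofReal_mul, h0, h1, hPs]
    ring
  have hI2 : (inner ℂ Z s : ℂ).re = c := by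
    have h1 : (S0 (n + 1)).starProjection Z = Z :=
      (S0 (n + 1)).starProjection_eq_self_iff.mpr (cl_coord_mem 0)
    rw [← h1, Submodule.inner_starProjection_left_eq_right, hc, inner_smul_right,
      inner_self_eq_norm_sq_to_K, hZn]
    simp
  have hI3 := neg_norm_sq_le s κ
  have hI4 : (inner ℂ p d : ℂ).re = ‖p‖ ^ 2 := by
    have h := (S1 (n + 1)).re_inner_starProjection_eq_normSq d
    exact h
  have hI5 : (inner ℂ (A + (μ : ℂ) • p) f : ℂ).re + (inner ℂ (A - (μ : ℂ) • p) g : ℂ).re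
      = 2 * l * c + 2 * μ * κ * (inner ℂ (e0 n) s : ℂ).re + 2 * μ * ‖p‖ ^ 2 := by
    have h1 : inner ℂ (A + (μ : ℂ) • p) f + inner ℂ (A - (μ : ℂ) • p) g
        = 2 * inner ℂ A s + 2 * ((μ : ℂ) * inner ℂ p d) := by
      rw [hfs, hgs]
      simp only [inner_add_left, inner_sub_left, inner_add_right, inner_sub_right, inner_smul_left,
        Complex.conj_ofReal]
      ring
    have h2 : inner ℂ A s = (l : ℂ) * inner ℂ Z s + ((μ * κ : ℝ) : ℂ) * inner ℂ (e0 n) s := by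
      rw [hA, inner_add_left, inner_smul_left, inner_smul_left, Complex.conj_ofReal,
        Complex.conj_ofReal]
    rw [← Complex.add_re, h1, h2]
    have h3 : ∀ x : ℂ, (2 * x).re = 2 * x.re := fun x => by simp
    rw [Complex.add_re, h3, h3, Complex.add_re, Complex.re_ofReal_mul, Complex.re_ofReal_mul,
      Complex.re_ofReal_mul, hI2, hI4]
    ring
  have hI6 := re_inner_le (A + (μ : ℂ) • p) f hf
  have hI6' := re_inner_le (A - (μ : ℂ) • p) g hg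
  -- the integral
  obtain ⟨b1, b10, b11, b20, b01, b0, hsp, hb1, hb10, hb11, hb20, hb01, hn1, hn2, hn3⟩ :=
    split n t
  have hq1 : (fun z => ‖(A + (μ : ℂ) • p : Lp ℂ 2 (G (n + 1))) z‖) =ᵐ[G (n + 1)]
      fun z => ‖af l β (z 0) + (μ : ℂ) * ∑ i, ∑ j, ∑ k, t i j k * Hp i j k z‖ := by
    filter_upwards [Lp.coeFn_add A ((μ : ℂ) • p), Lp.coeFn_smul (μ : ℂ) p, hAc, ht] with z h1 h2 h3 h4
    rw [h1, Pi.add_apply, h2, Pi.smul_apply, h3, h4, smul_eq_mul]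
  have hq2 : (fun z => ‖(A - (μ : ℂ) • p : Lp ℂ 2 (G (n + 1))) z‖) =ᵐ[G (n + 1)]
      fun z => ‖af l β (z 0) - (μ : ℂ) * ∑ i, ∑ j, ∑ k, t i j k * Hp i j k z‖ := by
    filter_upwards [Lp.coeFn_sub A ((μ : ℂ) • p), Lp.coeFn_smul (μ : ℂ) p, hAc, ht] with z h1 h2 h3 h4
    rw [h1, Pi.sub_apply, h2, Pi.smul_apply, h3, h4, smul_eq_mul]
  have hint1 : Integrable (fun z => ‖(A + (μ : ℂ) • p : Lp ℂ 2 (G (n + 1))) z‖) (G (n + 1)) :=
    ((Lp.memLp _).integrable (by norm_num)).norm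
  have hint2 : Integrable (fun z => ‖(A - (μ : ℂ) • p : Lp ℂ 2 (G (n + 1))) z‖) (G (n + 1)) :=
    ((Lp.memLp _).integrable (by norm_num)).norm
  have hintF : Integrable (fun z : E (n + 1) =>
      ‖af l β (z 0) + (μ : ℂ) * ∑ i, ∑ j, ∑ k, t i j k * Hp i j k z‖
      + ‖af l β (z 0) - (μ : ℂ) * ∑ i, ∑ j, ∑ k, t i j k * Hp i j k z‖) (G (n + 1)) :=
    (hint1.congr hq1).add (hint2.congr hq2)
  have hF1 : ∫ z, ‖(A + (μ : ℂ) • p : Lp ℂ 2 (G (n + 1))) z‖ ∂(G (n + 1))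
      + ∫ z, ‖(A - (μ : ℂ) • p : Lp ℂ 2 (G (n + 1))) z‖ ∂(G (n + 1))
      = ∫ z : E (n + 1), (‖af l β (z 0) + (μ : ℂ) * ∑ i, ∑ j, ∑ k, t i j k * Hp i j k z‖
      + ‖af l β (z 0) - (μ : ℂ) * ∑ i, ∑ j, ∑ k, t i j k * Hp i j k z‖) ∂(G (n + 1)) := by
    rw [integral_congr_ae hq1, integral_congr_ae hq2, ← integral_add (hint1.congr hq1)
      (hint2.congr hq2)]
  obtain ⟨hFub, hFubi⟩ := fubini _ hintF
  simp only [consE_zero, hsp] at hFub hFubi
  -- the norm of p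
  have hpint : Integrable (fun z : E (n + 1) => ‖∑ i, ∑ j, ∑ k, t i j k * Hp i j k z‖ ^ 2)
      (G (n + 1)) := by
    have h3 : MemLp (fun z : E (n + 1) => ∑ i, ∑ j, ∑ k, t i j k * Hp i j k z) 2 (G (n + 1)) :=
      (memLp_congr_ae ht).mp (Lp.memLp _)
    exact h3.integrable_norm_pow (by norm_num)
  have hpn : ‖p‖ ^ 2 = ∫ w, (‖b1 w‖ ^ 2 + ‖b10 w‖ ^ 2 + ‖b11 w‖ ^ 2 + ‖b0‖ ^ 2 + ‖b20 w‖ ^ 2
      + ‖b01 w‖ ^ 2) ∂(G n) := by
    rw [norm_sq_eq_integral]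
    have h1 : (fun z => ‖p z‖ ^ 2) =ᵐ[G (n + 1)]
        fun z => ‖∑ i, ∑ j, ∑ k, t i j k * Hp i j k z‖ ^ 2 := by
      filter_upwards [ht] with z hz
      rw [hz]
    rw [integral_congr_ae h1, (fubini _ hpint).1]
    simp only [hsp, integral_qp_sq]
  -- integrability of the right-hand side
  have i1 : Integrable (fun w => ‖b1 w‖ ^ 2) (G n) := hb1.integrable_norm_pow (by norm_num)
  have i10 : Integrable (fun w => ‖b10 w‖ ^ 2) (G n) := hb10.integrable_norm_pow (by norm_num)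
  have i11 : Integrable (fun w => ‖b11 w‖ ^ 2) (G n) := hb11.integrable_norm_pow (by norm_num)
  have i20 : Integrable (fun w => ‖b20 w‖ ^ 2) (G n) := hb20.integrable_norm_pow (by norm_num)
  have i01 : Integrable (fun w => ‖b01 w‖ ^ 2) (G n) := hb01.integrable_norm_pow (by norm_num)
  have j1 : Integrable (fun w => b1 w * conj (b10 w)) (G n) :=
    MemLp.integrable_mul hb1 hb10.star
  have j2 : Integrable (fun w => b1 w * b01 w) (G n) := MemLp.integrable_mul hb1 hb01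
  have j3 : Integrable (fun w => b11 w * conj b0) (G n) :=
    (hb11.integrable (by norm_num)).mul_const _
  have isum : Integrable (fun w => (‖b1 w‖ ^ 2 + ‖b10 w‖ ^ 2 + ‖b11 w‖ ^ 2 + ‖b0‖ ^ 2 + ‖b20 w‖ ^ 2
      + ‖b01 w‖ ^ 2)) (G n) :=
    ((((i1.add i10).add i11).add (integrable_const _)).add i20).add i01
  have hle : ∫ w, ∫ ζ, (‖af l β ζ + (μ : ℂ) * qp (b1 w) (b10 w) (b11 w) b0 (b20 w) (b01 w) ζ‖
      + ‖af l β ζ - (μ : ℂ) * qp (b1 w) (b10 w) (b11 w) b0 (b20 w) (b01 w) ζ‖) ∂cg ∂(G n)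
      ≤ V - c ^ 2 + 2 * c * l - 2 * l ^ 2 * β ^ 2 / μ + μ * ‖p‖ ^ 2 := by
    have hR : Integrable (fun w => V - c ^ 2 + 2 * c * l - 2 * l ^ 2 * β ^ 2 / μ
        + μ * (‖b1 w‖ ^ 2 + ‖b10 w‖ ^ 2 + ‖b11 w‖ ^ 2 + ‖b0‖ ^ 2 + ‖b20 w‖ ^ 2 + ‖b01 w‖ ^ 2)
        + η₁ * (b1 w * conj (b10 w)).re + η₂ * (b1 w * b01 w).re
        + η₃ * (b11 w * conj b0).re) (G n) :=
      ((((integrable_const _).add (isum.const_mul μ)).add (j1.re.const_mul η₁)).add
        (j2.re.const_mul η₂)).add (j3.re.const_mul η₃)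
    refine (integral_mono hFubi hR (fun w => hO _ _ _ _ _ _)).trans (le_of_eq ?_)
    have j1' : Integrable (fun w => (b1 w * conj (b10 w)).re) (G n) := j1.re
    have j2' : Integrable (fun w => (b1 w * b01 w).re) (G n) := j2.re
    have j3' : Integrable (fun w => (b11 w * conj b0).re) (G n) := j3.re
    rw [integral_comb _ μ η₁ η₂ η₃ _ _ _ _ isum j1' j2' j3', ← hpn]
    have k1 : ∫ w, (b1 w * conj (b10 w)).re ∂(G n) = 0 := by
      have := integral_re j1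
      rw [hn1] at this
      simpa using this
    have k2 : ∫ w, (b1 w * b01 w).re ∂(G n) = 0 := by
      have := integral_re j2
      rw [hn2] at this
      simpa using this
    have k3 : ∫ w, (b11 w * conj b0).re ∂(G n) = 0 := by
      have := integral_re j3
      rw [integral_mul_const, hn3] at this
      simpa using this
    rw [k1, k2, k3]
    simp
  -- conclusion
  have hκ2 : μ * κ ^ 2 = 2 * l ^ 2 * β ^ 2 / μ := by
    rw [hκ]
    have : (√2 : ℝ) ^ 2 = 2 := Real.sq_sqrt (by norm_num)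
    field_simp
    rw [this]
  have hd0 : 0 ≤ ‖(S0 (n + 1)).starProjection d‖ ^ 2 := by positivity
  have hμ3 := mul_le_mul_of_nonneg_left hI3 hμ.le
  rw [hI1]
  rw [← hFub] at hle
  rw [← hF1] at hle
  nlinarith [hI5, hI6, hI6', hle, hμ3, hκ2, hd0]

theorem op_bound_re (μ V : ℝ) (hμ : 0 < μ) (hOne : One μ V) (n : ℕ) (f g : Lp ℂ 2 (G (n + 1)))
    (hf : ∀ᵐ z ∂(G (n + 1)), ‖f z‖ ≤ 1) (hg : ∀ᵐ z ∂(G (n + 1)), ‖g z‖ ≤ 1) :
    (inner ℂ (T μ (n + 1) f) g : ℂ).re ≤ V := by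
  obtain ⟨U, c, hc0, hc⟩ := exists_rot (((2 : ℂ)⁻¹) • (f + g))
  rw [map_smul, map_add] at hc
  have h := core μ V hμ hOne n (CU U f) (CU U g) (ae_CU U f hf) (ae_CU U g hg) c hc0 hc
  rw [T_CU, LinearIsometry.inner_map_map] at h
  exact h

theorem op_bound (μ V : ℝ) (hμ : 0 < μ) (hOne : One μ V) (n : ℕ) (f g : Lp ℂ 2 (G (n + 1)))
    (hf : ∀ᵐ z ∂(G (n + 1)), ‖f z‖ ≤ 1) (hg : ∀ᵐ z ∂(G (n + 1)), ‖g z‖ ≤ 1) :
    ‖inner ℂ (T μ (n + 1) f) g‖ ≤ V := by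
  set x : ℂ := inner ℂ (T μ (n + 1) f) g with hx
  by_cases h0 : x = 0
  · have h := op_bound_re μ V hμ hOne n f g hf hg
    rw [← hx, h0] at h
    simpa [h0] using h
  · have hxn : ‖x‖ ≠ 0 := by simpa using h0
    set u : ℂ := conj x / ‖x‖ with hu
    have hun : ‖u‖ = 1 := by
      rw [hu, norm_div, RCLike.norm_conj]
      simp [hxn]
    have hug : ∀ᵐ z ∂(G (n + 1)), ‖(u • g) z‖ ≤ 1 := by
      filter_upwards [Lp.coeFn_smul u g, hg] with z h1 h2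
      rw [h1, Pi.smul_apply, norm_smul, hun, one_mul]
      exact h2
    have h := op_bound_re μ V hμ hOne n f (u • g) hf hug
    rw [inner_smul_right, ← hx] at h
    have h1 : u * x = ((‖x‖ : ℝ) : ℂ) := by
      rw [hu, div_mul_eq_mul_div, mul_comm, Complex.mul_conj, Complex.normSq_eq_norm_sq]
      rw [div_eq_iff (by exact_mod_cast hxn)]
      push_cast
      ring
    rw [h1, Complex.ofReal_re] at h
    exact h

end GLB
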