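import Pool.Agent.Lib.MP_721eb4_an.LB.Radial

set_option autoImplicit false

open MeasureTheory Complex Set
open scoped ComplexConjugate ENNReal

namespace GLB

theorem exp_neg_ge (x : ℝ) : 1 - x ≤ Real.exp (-x) := by
  have := Real.add_one_le_exp (-x); linarith

theorem exp_neg_le (x : ℝ) (hx : 0 ≤ x) : Real.exp (-x) ≤ 1 - x + x ^ 2 / 2 := by
  have h1 := Real.quadratic_le_exp_of_nonneg hx
  have h2 : Real.exp (-x) * Real.exp x = 1 := by rw [← Real.exp_add]; simp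
  have h3 := Real.exp_pos (-x)
  have h4 : Real.exp (-x) * (1 + x + x ^ 2 / 2) ≤ 1 :=
    (mul_le_mul_of_nonneg_left h1 h3.le).trans h2.le
  have h5 : 0 < 1 + x + x ^ 2 / 2 := by positivity
  have h6 : 1 ≤ (1 - x + x ^ 2 / 2) * (1 + x + x ^ 2 / 2) := by nlinarith [sq_nonneg (x ^ 2)]
  by_contra hcon
  push Not at hcon
  nlinarith [mul_lt_mul_of_pos_right hcon h5]

/-- the polynomial `q` as a function of `r` -/
noncomputable def qq (q0 q1 q2 q3 r : ℝ) : ℝ := q0 + q1 * r ^ 2 + q2 * r ^ 4 + q3 * r ^ 6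

noncomputable def DD (s : ℝ) : ℝ := 7 / 10 + 3 / 20 * s ^ 2

/-- what is gained on `[0, s]` -/
noncomputable def redf (s q0 q1 q2 q3 r : ℝ) : ℝ :=
  2 * (1 - r ^ 2) * qq q0 q1 q2 q3 r *
    ((1 + 3 / 20 * (s ^ 2 - r ^ 2) / DD s) / DD s - r / (s * DD s))

theorem DD_pos (s : ℝ) : 0 < DD s := by unfold DD; positivity

theorem mm_eq (s : ℝ) : mm s = s * DD s := rfl

theorem K_pt (s q0 q1 q2 q3 : ℝ) (hs : 0 < s) (hs1 : s ≤ 1)
    (hq : ∀ r, 0 ≤ qq q0 q1 q2 q3 r) (r : ℝ) (hr : 0 < r) :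
    wt r * (qq q0 q1 q2 q3 r / mb s r) ≤
      2 * (qq q0 q1 q2 q3 r * Pp (r ^ 2)) * Real.exp (-r ^ 2)
        - (Ioc 0 s).indicator (redf s q0 q1 q2 q3) r := by
  have hP := Pp_ge (r ^ 2) (by positivity)
  have hDr : 0 < 7 / 10 + 3 / 20 * r ^ 2 := by positivity
  have hPP : 1 / (7 / 10 + 3 / 20 * r ^ 2) ≤ Pp (r ^ 2) := by
    rw [div_le_iff₀ hDr]; linarith
  have hE := Real.exp_pos (-r ^ 2)
  have hqr := hq r
  have hD := DD_pos s
  by_cases hrs : r ≤ s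
  · rw [indicator_of_mem (by exact ⟨hr, hrs⟩), mb_eq_of_le hr.le hrs, mm_eq]
    set y : ℝ := 3 / 20 * (s ^ 2 - r ^ 2) with hy
    have hy0 : 0 ≤ y := by
      rw [hy]; nlinarith [mul_self_le_mul_self hr.le hrs]
    set g : ℝ := (1 + y / DD s) / DD s - r / (s * DD s) with hg
    have hg0 : 0 ≤ g := by
      have e : g = (1 / DD s) * (1 - r / s + y / DD s) := by
        rw [hg]; field_simp; ring
      rw [e]
      have : r / s ≤ 1 := by rw [div_le_one hs]; exact hrs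
      have h2 : 0 ≤ y / DD s := by positivity
      have h3 : 0 ≤ 1 / DD s := by positivity
      exact mul_nonneg h3 (by linarith)
    have hPg : g ≤ Pp (r ^ 2) - r / (s * DD s) := by
      have h1 : (1 + y / DD s) / DD s ≤ 1 / (7 / 10 + 3 / 20 * r ^ 2) := by
        have hDD : DD s = (7 / 10 + 3 / 20 * r ^ 2) + y := by
          rw [hy]; unfold DD; ring
        rw [div_le_div_iff₀ hD hDr]
        have h4 : (1 + y / DD s) * (7 / 10 + 3 / 20 * r ^ 2) = DD s - y ^ 2 / DD s := by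
          have : 7 / 10 + 3 / 20 * r ^ 2 = DD s - y := by rw [hDD]; ring
          rw [this]; field_simp; ring
        rw [h4]
        have : 0 ≤ y ^ 2 / DD s := by positivity
        linarith
      rw [hg]; linarith
    have hexp : 1 - r ^ 2 ≤ Real.exp (-r ^ 2) := exp_neg_ge (r ^ 2)
    have e1 : wt r * (qq q0 q1 q2 q3 r / (s * DD s))
        = 2 * (qq q0 q1 q2 q3 r * (r / (s * DD s))) * Real.exp (-r ^ 2) := by
      unfold wt; ring
    have e2 : redf s q0 q1 q2 q3 r = 2 * (1 - r ^ 2) * qq q0 q1 q2 q3 r * g := by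
      rw [hg, hy]; unfold redf; ring
    rw [e1, e2]
    have h5 : (1 - r ^ 2) * (qq q0 q1 q2 q3 r * g) ≤
        Real.exp (-r ^ 2) * (qq q0 q1 q2 q3 r * (Pp (r ^ 2) - r / (s * DD s))) := by
      have h6 : (1 - r ^ 2) * (qq q0 q1 q2 q3 r * g) ≤
          Real.exp (-r ^ 2) * (qq q0 q1 q2 q3 r * g) :=
        mul_le_mul_of_nonneg_right hexp (mul_nonneg hqr hg0)
      have h7 : Real.exp (-r ^ 2) * (qq q0 q1 q2 q3 r * g) ≤
          Real.exp (-r ^ 2) * (qq q0 q1 q2 q3 r * (Pp (r ^ 2) - r / (s * DD s))) :=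
        mul_le_mul_of_nonneg_left (mul_le_mul_of_nonneg_left hPg hqr) hE.le
      linarith
    nlinarith [h5]
  · push Not at hrs
    rw [indicator_of_notMem (by simp [hrs]), mb_eq_of_ge hs.le hrs.le, sub_zero]
    have e1 : wt r * (qq q0 q1 q2 q3 r / mm r)
        = 2 * (qq q0 q1 q2 q3 r * (1 / (7 / 10 + 3 / 20 * r ^ 2))) * Real.exp (-r ^ 2) := by
      unfold wt mm
      field_simp
    rw [e1]
    have : qq q0 q1 q2 q3 r * (1 / (7 / 10 + 3 / 20 * r ^ 2)) ≤ qq q0 q1 q2 q3 r * Pp (r ^ 2) :=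
      mul_le_mul_of_nonneg_left hPP hqr
    nlinarith [mul_le_mul_of_nonneg_right this hE.le]

theorem qq_bound (q0 q1 q2 q3 r : ℝ) (hr : 0 < r) :
    |qq q0 q1 q2 q3 r| ≤ (|q0| + |q1| + |q2| + |q3|) * (1 + r) ^ 6 := by
  have h1 : ∀ k : ℕ, k ≤ 6 → r ^ k ≤ (1 + r) ^ 6 := by
    intro k hk
    calc r ^ k ≤ (1 + r) ^ k := pow_le_pow_left₀ hr.le (by linarith) k
      _ ≤ (1 + r) ^ 6 := pow_le_pow_right₀ (by linarith) hk
  have h0 : (1 : ℝ) ≤ (1 + r) ^ 6 := one_le_pow₀ (by linarith)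
  unfold qq
  have a1 : |q0 + q1 * r ^ 2 + q2 * r ^ 4 + q3 * r ^ 6| ≤
      |q0| + |q1| * r ^ 2 + |q2| * r ^ 4 + |q3| * r ^ 6 := by
    refine (abs_add_le _ _).trans ?_
    have := (abs_add_le (q0 + q1 * r ^ 2) (q2 * r ^ 4))
    have h2 := abs_add_le q0 (q1 * r ^ 2)
    rw [abs_mul, abs_of_nonneg (by positivity : (0:ℝ) ≤ r ^ 2)] at h2
    rw [abs_mul q2, abs_of_nonneg (by positivity : (0:ℝ) ≤ r ^ 4)] at this
    rw [abs_mul q3, abs_of_nonneg (by positivity : (0:ℝ) ≤ r ^ 6)]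
    linarith
  refine a1.trans ?_
  nlinarith [mul_le_mul_of_nonneg_left h0 (abs_nonneg q0),
    mul_le_mul_of_nonneg_left (h1 2 (by norm_num)) (abs_nonneg q1),
    mul_le_mul_of_nonneg_left (h1 4 (by norm_num)) (abs_nonneg q2),
    mul_le_mul_of_nonneg_left (h1 6 (by norm_num)) (abs_nonneg q3)]

theorem continuous_qq (q0 q1 q2 q3 : ℝ) : Continuous (qq q0 q1 q2 q3) := by
  unfold qq; fun_prop

theorem integrable_qq_div (s q0 q1 q2 q3 : ℝ) (hs : 0 < s) :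
    IntegrableOn (fun r => wt r * (qq q0 q1 q2 q3 r / mb s r)) (Ioi 0) := by
  refine integrable_wt_mul _ ((continuous_qq q0 q1 q2 q3).div (continuous_mb s)
    (fun r => (mb_pos hs r).ne')) ((|q0| + |q1| + |q2| + |q3|) / mm s) 6 ?_
  intro r hr
  rw [abs_div, abs_of_pos (mb_pos hs r)]
  have h1 := qq_bound q0 q1 q2 q3 r hr
  have h2 := mm_pos hs
  calc |qq q0 q1 q2 q3 r| / mb s r ≤ |qq q0 q1 q2 q3 r| / mm s :=
        div_le_div_of_nonneg_left (abs_nonneg _) h2 (mb_ge r)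
    _ ≤ ((|q0| + |q1| + |q2| + |q3|) * (1 + r) ^ 6) / mm s :=
        div_le_div_of_nonneg_right h1 h2.le
    _ = _ := by ring

theorem continuous_redf (s q0 q1 q2 q3 : ℝ) : Continuous (redf s q0 q1 q2 q3) := by
  unfold redf qq; fun_prop

theorem K_le (s q0 q1 q2 q3 : ℝ) (hs : 0 < s) (hs1 : s ≤ 1)
    (hq : ∀ r, 0 ≤ qq q0 q1 q2 q3 r) :
    ∫ r in Ioi (0 : ℝ), wt r * (qq q0 q1 q2 q3 r / mb s r) ≤
      √Real.pi * ((20 / 7 * q0) / 2 + (20 / 7 * q1 - 72 / 125 * q0) / 4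
        + 3 / 8 * (20 / 7 * q2 - 72 / 125 * q1 + 19 / 250 * q0)
        + 15 / 16 * (20 / 7 * q3 - 72 / 125 * q2 + 19 / 250 * q1)
        + 105 / 32 * (19 / 250 * q2 - 72 / 125 * q3) + 945 / 64 * (19 / 250 * q3))
      - ∫ r in (0 : ℝ)..s, redf s q0 q1 q2 q3 r := by
  obtain ⟨hg1, hg2⟩ := gpoly (20 / 7 * q0) (20 / 7 * q1 - 72 / 125 * q0)
    (20 / 7 * q2 - 72 / 125 * q1 + 19 / 250 * q0) (20 / 7 * q3 - 72 / 125 * q2 + 19 / 250 * q1)
    (19 / 250 * q2 - 72 / 125 * q3) (19 / 250 * q3)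
  rw [← hg2]
  have heq : ∀ r : ℝ, 2 * (qq q0 q1 q2 q3 r * Pp (r ^ 2)) * Real.exp (-r ^ 2)
      = (20 / 7 * q0 + (20 / 7 * q1 - 72 / 125 * q0) * r ^ 2
        + (20 / 7 * q2 - 72 / 125 * q1 + 19 / 250 * q0) * r ^ 4
        + (20 / 7 * q3 - 72 / 125 * q2 + 19 / 250 * q1) * r ^ 6
        + (19 / 250 * q2 - 72 / 125 * q3) * r ^ 8 + (19 / 250 * q3) * r ^ 10)
        * Real.exp (-r ^ 2) := by
    intro r; unfold qq Pp; ring
  have hred : ∫ r in (0 : ℝ)..s, redf s q0 q1 q2 q3 r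
      = ∫ r in Ioi (0 : ℝ), (Ioc 0 s).indicator (redf s q0 q1 q2 q3) r := by
    rw [intervalIntegral.integral_of_le hs.le, setIntegral_indicator measurableSet_Ioc,
      inter_eq_self_of_subset_right Ioc_subset_Ioi_self]
  have hredi : IntegrableOn (fun r => (Ioc 0 s).indicator (redf s q0 q1 q2 q3) r) (Ioi 0) := by
    have h1 : IntegrableOn (redf s q0 q1 q2 q3) (Ioc 0 s) := by
      have : IntervalIntegrable (redf s q0 q1 q2 q3) volume 0 s :=
        ((continuous_redf s q0 q1 q2 q3).intervalIntegrable 0 s)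
      rwa [intervalIntegrable_iff_integrableOn_Ioc_of_le hs.le] at this
    have h2 : Integrable ((Ioc 0 s).indicator (redf s q0 q1 q2 q3)) volume :=
      (integrable_indicator_iff measurableSet_Ioc).mpr h1
    exact h2.integrableOn
  rw [hred, ← integral_sub hg1 hredi]
  refine setIntegral_mono_on (integrable_qq_div s q0 q1 q2 q3 hs) (hg1.sub hredi)
    measurableSet_Ioi ?_
  intro r hr
  have h := K_pt s q0 q1 q2 q3 hs hs1 hq r hr
  rw [heq r] at h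
  exact h

theorem redf_int (s q0 q1 q2 q3 : ℝ) :
    ∫ r in (0 : ℝ)..s, redf s q0 q1 q2 q3 r =
      (let u0 := (1 + 3 / 20 * s ^ 2 / DD s) / DD s
       let u1 := -1 / (s * DD s)
       let u2 := -(3 / 20) / DD s ^ 2
       2 * q0 * u0 * s + 2 * q0 * u1 * s ^ 2 / 2 + 2 * ((q1 - q0) * u0 + q0 * u2) * s ^ 3 / 3
        + 2 * (q1 - q0) * u1 * s ^ 4 / 4 + 2 * ((q2 - q1) * u0 + (q1 - q0) * u2) * s ^ 5 / 5
        + 2 * (q2 - q1) * u1 * s ^ 6 / 6 + 2 * ((q3 - q2) * u0 + (q2 - q1) * u2) * s ^ 7 / 7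
        + 2 * (q3 - q2) * u1 * s ^ 8 / 8 + 2 * (-q3 * u0 + (q3 - q2) * u2) * s ^ 9 / 9
        + 2 * (-q3) * u1 * s ^ 10 / 10 + 2 * (-q3) * u2 * s ^ 11 / 11) := by
  have h := pint s (2 * q0 * ((1 + 3 / 20 * s ^ 2 / DD s) / DD s)) (2 * q0 * (-1 / (s * DD s)))
    (2 * ((q1 - q0) * ((1 + 3 / 20 * s ^ 2 / DD s) / DD s) + q0 * (-(3 / 20) / DD s ^ 2)))
    (2 * (q1 - q0) * (-1 / (s * DD s)))
    (2 * ((q2 - q1) * ((1 + 3 / 20 * s ^ 2 / DD s) / DD s) + (q1 - q0) * (-(3 / 20) / DD s ^ 2)))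
    (2 * (q2 - q1) * (-1 / (s * DD s)))
    (2 * ((q3 - q2) * ((1 + 3 / 20 * s ^ 2 / DD s) / DD s) + (q2 - q1) * (-(3 / 20) / DD s ^ 2)))
    (2 * (q3 - q2) * (-1 / (s * DD s)))
    (2 * (-q3 * ((1 + 3 / 20 * s ^ 2 / DD s) / DD s) + (q3 - q2) * (-(3 / 20) / DD s ^ 2)))
    (2 * (-q3) * (-1 / (s * DD s))) (2 * (-q3) * (-(3 / 20) / DD s ^ 2)) 0
  have heq : ∀ r : ℝ, redf s q0 q1 q2 q3 r = (2 * q0 * ((1 + 3 / 20 * s ^ 2 / DD s) / DD s))
      + (2 * q0 * (-1 / (s * DD s))) * r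
      + (2 * ((q1 - q0) * ((1 + 3 / 20 * s ^ 2 / DD s) / DD s) + q0 * (-(3 / 20) / DD s ^ 2))) * r ^ 2
      + (2 * (q1 - q0) * (-1 / (s * DD s))) * r ^ 3
      + (2 * ((q2 - q1) * ((1 + 3 / 20 * s ^ 2 / DD s) / DD s) + (q1 - q0) * (-(3 / 20) / DD s ^ 2))) * r ^ 4
      + (2 * (q2 - q1) * (-1 / (s * DD s))) * r ^ 5
      + (2 * ((q3 - q2) * ((1 + 3 / 20 * s ^ 2 / DD s) / DD s) + (q2 - q1) * (-(3 / 20) / DD s ^ 2))) * r ^ 6
      + (2 * (q3 - q2) * (-1 / (s * DD s))) * r ^ 7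
      + (2 * (-q3 * ((1 + 3 / 20 * s ^ 2 / DD s) / DD s) + (q3 - q2) * (-(3 / 20) / DD s ^ 2))) * r ^ 8
      + (2 * (-q3) * (-1 / (s * DD s))) * r ^ 9 + (2 * (-q3) * (-(3 / 20) / DD s ^ 2)) * r ^ 10
      + 0 * r ^ 11 := by
    intro r
    have hD := (DD_pos s).ne'
    unfold redf qq
    ring
  rw [intervalIntegral.integral_congr (fun r _ => heq r), h]
  ring

/-- the cost on `[0, s]` -/
noncomputable def costf (s r : ℝ) : ℝ :=
  2 * r * (1 - r ^ 2 + r ^ 4 / 2) * (25 / 16 * mm s + 7 / 16 * mm r ^ 2 / mm s - 2 * mm r)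

noncomputable def Af (s r : ℝ) : ℝ := mb s r * (25 / 16 + 7 / 16 * (mm r / mb s r) ^ 2)

theorem A_pt (s : ℝ) (hs : 0 < s) (r : ℝ) (hr : 0 < r) :
    wt r * Af s r ≤ (14 / 5 * r ^ 2 + 3 / 5 * r ^ 4) * Real.exp (-r ^ 2)
      + (Ioc 0 s).indicator (costf s) r := by
  have e0 : (14 / 5 * r ^ 2 + 3 / 5 * r ^ 4) * Real.exp (-r ^ 2) = wt r * (2 * mm r) := by
    unfold wt mm; ring
  rw [e0]
  by_cases hrs : r ≤ s
  · rw [indicator_of_mem (by exact ⟨hr, hrs⟩)]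
    unfold Af costf
    rw [mb_eq_of_le hr.le hrs]
    have hms := mm_pos hs
    have hmr := mm_pos hr
    have hle : mm r ≤ mm s := mm_strictMono.monotoneOn hr.le hs.le hrs
    have e1 : mm s * (25 / 16 + 7 / 16 * (mm r / mm s) ^ 2)
        = 25 / 16 * mm s + 7 / 16 * mm r ^ 2 / mm s := by
      field_simp
    rw [e1]
    set H : ℝ := 25 / 16 * mm s + 7 / 16 * mm r ^ 2 / mm s - 2 * mm r with hH
    have hH0 : 0 ≤ H := by
      have e2 : H = (mm s - mm r) * (25 / 16 * mm s - 7 / 16 * mm r) / mm s := by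
        rw [hH]; field_simp; ring
      rw [e2]
      apply div_nonneg _ hms.le
      exact mul_nonneg (by linarith) (by linarith)
    have h2 : wt r ≤ 2 * r * (1 - r ^ 2 + r ^ 4 / 2) := by
      have := exp_neg_le (r ^ 2) (by positivity)
      unfold wt
      have h3 : (r ^ 2) ^ 2 = r ^ 4 := by ring
      rw [h3] at this
      exact mul_le_mul_of_nonneg_left this (by positivity)
    have h4 : wt r * H ≤ 2 * r * (1 - r ^ 2 + r ^ 4 / 2) * H :=
      mul_le_mul_of_nonneg_right h2 hH0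
    have h5 : 25 / 16 * mm s + 7 / 16 * mm r ^ 2 / mm s = 2 * mm r + H := by rw [hH]; ring
    rw [h5]
    linarith [mul_add (wt r) (2 * mm r) H]
  · push Not at hrs
    rw [indicator_of_notMem (by simp [hrs]), add_zero]
    unfold Af
    rw [mb_eq_of_ge hs.le hrs.le, div_self (mm_pos hr).ne']
    apply le_of_eq
    ring

theorem continuous_costf (s : ℝ) : Continuous (costf s) := by
  unfold costf mm; fun_prop

theorem integrable_Af (s : ℝ) (hs : 0 < s) (hs1 : s ≤ 1) :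
    IntegrableOn (fun r => wt r * Af s r) (Ioi 0) := by
  have hc : Continuous (Af s) := by
    have h1 : Continuous (fun r => mm r / mb s r) :=
      continuous_mm.div (continuous_mb s) (fun r => (mb_pos hs r).ne')
    exact (continuous_mb s).mul (continuous_const.add (continuous_const.mul (h1.pow 2)))
  refine integrable_wt_mul _ hc 2 3 ?_
  intro r hr
  have hpos := mb_pos hs r
  have hm := mm_pos hr
  have h1 : mm r / mb s r ≤ 1 := by rw [div_le_one hpos]; exact mm_le_mb s r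
  have h0 : 0 ≤ mm r / mb s r := by positivity
  have h2 : Af s r ≤ mb s r * 2 := by
    unfold Af
    apply mul_le_mul_of_nonneg_left _ hpos.le
    nlinarith
  have h3 : 0 ≤ Af s r := by unfold Af; positivity
  rw [abs_of_nonneg h3]
  have h4 : mb s r ≤ (1 + r) ^ 3 := by
    unfold mb
    apply max_le
    · unfold mm; nlinarith [pow_pos hr 2, pow_pos hr 3]
    · have : mm s ≤ 1 := by
        unfold mm; nlinarith [mul_nonneg hs.le hs.le, mul_nonneg (mul_nonneg hs.le hs.le) hs.le]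
      have h5 : (1 : ℝ) ≤ (1 + r) ^ 3 := one_le_pow₀ (by linarith)
      linarith
  linarith

theorem A_le (s : ℝ) (hs : 0 < s) (hs1 : s ≤ 1) :
    ∫ r in Ioi (0 : ℝ), wt r * Af s r ≤ 37 / 40 * √Real.pi + ∫ r in (0 : ℝ)..s, costf s r := by
  obtain ⟨hg1, hg2⟩ := gpoly 0 (14 / 5) (3 / 5) 0 0 0
  have heq : ∀ r : ℝ, (0 + 14 / 5 * r ^ 2 + 3 / 5 * r ^ 4 + 0 * r ^ 6 + 0 * r ^ 8 + 0 * r ^ 10)
      * Real.exp (-r ^ 2) = (14 / 5 * r ^ 2 + 3 / 5 * r ^ 4) * Real.exp (-r ^ 2) := by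
    intro r; ring
  simp_rw [heq] at hg1 hg2
  have hv : 37 / 40 * √Real.pi = ∫ r in Ioi (0 : ℝ),
      (14 / 5 * r ^ 2 + 3 / 5 * r ^ 4) * Real.exp (-r ^ 2) := by
    rw [hg2]; ring
  have hred : ∫ r in (0 : ℝ)..s, costf s r
      = ∫ r in Ioi (0 : ℝ), (Ioc 0 s).indicator (costf s) r := by
    rw [intervalIntegral.integral_of_le hs.le, setIntegral_indicator measurableSet_Ioc,
      inter_eq_self_of_subset_right Ioc_subset_Ioi_self]
  have hredi : IntegrableOn (fun r => (Ioc 0 s).indicator (costf s) r) (Ioi 0) := by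
    have h1 : IntegrableOn (costf s) (Ioc 0 s) := by
      have : IntervalIntegrable (costf s) volume 0 s :=
        ((continuous_costf s).intervalIntegrable 0 s)
      rwa [intervalIntegrable_iff_integrableOn_Ioc_of_le hs.le] at this
    have h2 : Integrable ((Ioc 0 s).indicator (costf s)) volume :=
      (integrable_indicator_iff measurableSet_Ioc).mpr h1
    exact h2.integrableOn
  rw [hv, hred, ← integral_add hg1 hredi]
  exact setIntegral_mono_on (integrable_Af s hs hs1) (hg1.add hredi)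
    measurableSet_Ioi (fun r hr => A_pt s hs r hr)

theorem costf_int (s : ℝ) (hs : 0 < s) :
    ∫ r in (0 : ℝ)..s, costf s r =
      (let h0 := 25 / 16 * mm s
       let h2 := 343 / 1600 / mm s
       let h4 := 147 / 1600 / mm s
       let h6 := 63 / 6400 / mm s
       2 * h0 * s ^ 2 / 2 + 2 * (-7 / 5) * s ^ 3 / 3 + 2 * (h2 - h0) * s ^ 4 / 4
        + 2 * (-3 / 10 + 7 / 5) * s ^ 5 / 5 + 2 * (h4 - h2 + h0 / 2) * s ^ 6 / 6
        + 2 * (3 / 10 - 7 / 10) * s ^ 7 / 7 + 2 * (h6 - h4 + h2 / 2) * s ^ 8 / 8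
        + 2 * (-3 / 20) * s ^ 9 / 9 + 2 * (-h6 + h4 / 2) * s ^ 10 / 10
        + h6 * s ^ 12 / 12) := by
  have hms := (mm_pos hs).ne'
  have h := pint s 0 (2 * (25 / 16 * mm s)) (2 * (-7 / 5))
    (2 * (343 / 1600 / mm s - 25 / 16 * mm s)) (2 * (-3 / 10 + 7 / 5))
    (2 * (147 / 1600 / mm s - 343 / 1600 / mm s + 25 / 16 * mm s / 2)) (2 * (3 / 10 - 7 / 10))
    (2 * (63 / 6400 / mm s - 147 / 1600 / mm s + 343 / 1600 / mm s / 2)) (2 * (-3 / 20))
    (2 * (-(63 / 6400 / mm s) + 147 / 1600 / mm s / 2)) 0 (63 / 6400 / mm s)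
  have heq : ∀ r : ℝ, costf s r = 0 + (2 * (25 / 16 * mm s)) * r + (2 * (-7 / 5)) * r ^ 2
    + (2 * (343 / 1600 / mm s - 25 / 16 * mm s)) * r ^ 3 + (2 * (-3 / 10 + 7 / 5)) * r ^ 4
    + (2 * (147 / 1600 / mm s - 343 / 1600 / mm s + 25 / 16 * mm s / 2)) * r ^ 5
    + (2 * (3 / 10 - 7 / 10)) * r ^ 6
    + (2 * (63 / 6400 / mm s - 147 / 1600 / mm s + 343 / 1600 / mm s / 2)) * r ^ 7
    + (2 * (-3 / 20)) * r ^ 8
    + (2 * (-(63 / 6400 / mm s) + 147 / 1600 / mm s / 2)) * r ^ 9 + 0 * r ^ 10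
    + (63 / 6400 / mm s) * r ^ 11 := by
    intro r
    unfold costf
    rw [show mm r = r * (7 / 10 + 3 / 20 * r ^ 2) from rfl]
    ring
  rw [intervalIntegral.integral_congr (fun r _ => heq r), h]
  ring

end GLB
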