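import Pool.Agent.Lib.MP_721eb4_an.LB.CertA
import Pool.Agent.Lib.MP_721eb4_an.LB.RadialB

set_option autoImplicit false

open MeasureTheory Complex Set
open scoped ComplexConjugate ENNReal

namespace GLB

theorem norm_add_real_mul_sq (a b : ℂ) (y : ℝ) :
    ‖a + b * ((y : ℝ) : ℂ)‖ ^ 2 = ‖a‖ ^ 2 + 2 * y * (a * conj b).re + y ^ 2 * ‖b‖ ^ 2 := by
  rw [← Complex.normSq_eq_norm_sq, ← Complex.normSq_eq_norm_sq, ← Complex.normSq_eq_norm_sq]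
  simp only [Complex.normSq_apply, Complex.add_re, Complex.add_im, Complex.mul_re, Complex.mul_im,
    Complex.ofReal_re, Complex.ofReal_im, Complex.conj_re, Complex.conj_im]
  ring

theorem cross_bound (R y r : ℝ) (hR0 : 0 ≤ R) (hR1 : R ≤ 1) (b10 b01 : ℂ) :
    -(2 / 5 * R * (r ^ 2 / √2) * (y * (b10 * b01).re)) ≤
      6 / 25 * (y ^ 2 * ‖b10‖ ^ 2) + 1 / 6 * ((r ^ 4 / 2) * ‖b01‖ ^ 2) := by
  have h1 : |(b10 * b01).re| ≤ ‖b10‖ * ‖b01‖ := by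
    rw [← norm_mul]; exact abs_re_le_norm _
  have h2 : -(2 / 5 * R * (r ^ 2 / √2) * (y * (b10 * b01).re)) ≤
      2 / 5 * (r ^ 2 / √2) * |y| * (‖b10‖ * ‖b01‖) := by
    have h3 : |2 / 5 * R * (r ^ 2 / √2) * (y * (b10 * b01).re)|
        ≤ 2 / 5 * (r ^ 2 / √2) * |y| * (‖b10‖ * ‖b01‖) := by
      rw [abs_mul, abs_mul y, abs_mul, abs_mul]
      rw [abs_of_nonneg hR0, abs_of_nonneg (by norm_num : (0:ℝ) ≤ 2 / 5),
        abs_of_nonneg (by positivity : (0:ℝ) ≤ r ^ 2 / √2)]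
      have h4 : 2 / 5 * R * (r ^ 2 / √2) ≤ 2 / 5 * (r ^ 2 / √2) := by
        have : 0 ≤ r ^ 2 / √2 := by positivity
        nlinarith
      have h5 : |y| * |(b10 * b01).re| ≤ |y| * (‖b10‖ * ‖b01‖) :=
        mul_le_mul_of_nonneg_left h1 (abs_nonneg _)
      calc 2 / 5 * R * (r ^ 2 / √2) * (|y| * |(b10 * b01).re|)
          ≤ 2 / 5 * (r ^ 2 / √2) * (|y| * (‖b10‖ * ‖b01‖)) :=
            mul_le_mul h4 h5 (by positivity) (by positivity)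
        _ = _ := by ring
    exact (neg_le_abs _).trans h3
  refine h2.trans ?_
  have h6 : (r ^ 2 / √2) ^ 2 = r ^ 4 / 2 := by
    rw [div_pow, Real.sq_sqrt (by norm_num)]; ring
  have h7 : 0 ≤ (6 / 5 * (|y| * ‖b10‖) - (r ^ 2 / √2) * ‖b01‖) ^ 2 := sq_nonneg _
  have h8 : (6 / 5 * (|y| * ‖b10‖) - (r ^ 2 / √2) * ‖b01‖) ^ 2 = 36 / 25 * (y ^ 2 * ‖b10‖ ^ 2)
      - 12 / 5 * ((r ^ 2 / √2) * |y| * (‖b10‖ * ‖b01‖)) + (r ^ 4 / 2) * ‖b01‖ ^ 2 := by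
    rw [← h6, ← sq_abs y]; ring
  rw [h8] at h7
  linarith

theorem integrable_w7 (s : ℝ) (hs : 0 < s) :
    IntegrableOn (fun r => wt r * ((mm r / mb s r) ^ 2 * (r ^ 2 / √2) / mb s r)) (Ioi 0) := by
  have h1 : Continuous (fun r => mm r / mb s r) :=
    continuous_mm.div (continuous_mb s) (fun r => (mb_pos hs r).ne')
  refine integrable_wt_mul _ (((h1.pow 2).mul (by fun_prop)).div (continuous_mb s)
    (fun r => (mb_pos hs r).ne')) (1 / mm s) 2 ?_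
  intro r hr
  have hpos := mb_pos hs r
  have hm := mm_pos hr
  have hms := mm_pos hs
  have h1 : mm r / mb s r ≤ 1 := by rw [div_le_one hpos]; exact mm_le_mb s r
  have h0 : 0 ≤ mm r / mb s r := by positivity
  have h2 : (mm r / mb s r) ^ 2 ≤ 1 := pow_le_one₀ h0 h1
  have hs2 : (1 : ℝ) ≤ √2 := by
    rw [show (1 : ℝ) = √1 by simp]
    exact Real.sqrt_le_sqrt (by norm_num)
  have h3 : r ^ 2 / √2 ≤ (1 + r) ^ 2 := by
    rw [div_le_iff₀ (by positivity)]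
    nlinarith [sq_nonneg (1 + r)]
  rw [abs_of_nonneg (by positivity)]
  calc (mm r / mb s r) ^ 2 * (r ^ 2 / √2) / mb s r ≤ 1 * (1 + r) ^ 2 / mm s := by
        apply div_le_div₀ (by positivity) _ hms (mb_ge r)
        exact mul_le_mul h2 h3 (by positivity) (by norm_num)
    _ = 1 / mm s * (1 + r) ^ 2 := by ring

theorem continuous_integrand (l β μ : ℝ) (b1 b10 b11 b0 b20 b01 : ℂ) :
    Continuous (fun z : ℂ => ‖af l β z + (μ : ℂ) * qp b1 b10 b11 b0 b20 b01 z‖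
        + ‖af l β z - (μ : ℂ) * qp b1 b10 b11 b0 b20 b01 z‖) := by
  unfold af qp
  fun_prop

theorem growth_af (l β : ℝ) (z : ℂ) : ‖af l β z‖ ≤ |l| * (1 + 2 * |β|) * (1 + ‖z‖) ^ 3 := by
  unfold af
  rw [norm_mul, norm_mul, Complex.norm_real, Complex.norm_real, Real.norm_eq_abs, Real.norm_eq_abs]
  have h1 : |1 + β * (‖z‖ ^ 2 - 2)| ≤ (1 + 2 * |β|) * (1 + ‖z‖) ^ 2 := by
    have h2 : |‖z‖ ^ 2 - 2| ≤ 2 * (1 + ‖z‖) ^ 2 := by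
      rw [abs_le]; constructor <;> nlinarith [norm_nonneg z, sq_nonneg (‖z‖)]
    have h3 : |1 + β * (‖z‖ ^ 2 - 2)| ≤ 1 + |β| * |‖z‖ ^ 2 - 2| := by
      refine (abs_add_le _ _).trans ?_
      rw [abs_one, abs_mul]
    have h4 : (1 : ℝ) ≤ (1 + ‖z‖) ^ 2 := one_le_pow₀ (by linarith [norm_nonneg z])
    nlinarith [mul_le_mul_of_nonneg_left h2 (abs_nonneg β)]
  have h5 : ‖z‖ ≤ 1 + ‖z‖ := by linarith
  calc |l| * ‖z‖ * |1 + β * (‖z‖ ^ 2 - 2)|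
      ≤ |l| * (1 + ‖z‖) * ((1 + 2 * |β|) * (1 + ‖z‖) ^ 2) := by
        apply mul_le_mul _ h1 (abs_nonneg _) (by positivity)
        exact mul_le_mul_of_nonneg_left h5 (abs_nonneg _)
    _ = |l| * (1 + 2 * |β|) * (1 + ‖z‖) ^ 3 := by ring

theorem growth_qp (b1 b10 b11 b0 b20 b01 z : ℂ) :
    ‖qp b1 b10 b11 b0 b20 b01 z‖ ≤ 2 * (‖b1‖ + ‖b10‖ + ‖b11‖ + ‖b0‖ + ‖b20‖ + ‖b01‖)
      * (1 + ‖z‖) ^ 3 := by
  have hz := norm_nonneg z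
  have hs2 : (1 : ℝ) ≤ √2 := by
    rw [show (1 : ℝ) = √1 by simp]
    exact Real.sqrt_le_sqrt (by norm_num)
  have p3 : (1 : ℝ) ≤ (1 + ‖z‖) ^ 3 := one_le_pow₀ (by linarith)
  have e1 : ‖b1‖ ≤ ‖b1‖ * (2 * (1 + ‖z‖) ^ 3) := by
    nlinarith [norm_nonneg b1]
  have e2 : ‖b10 * ((‖z‖ ^ 2 - 1 : ℝ) : ℂ)‖ ≤ ‖b10‖ * (2 * (1 + ‖z‖) ^ 3) := by
    rw [norm_mul, Complex.norm_real, Real.norm_eq_abs]
    refine mul_le_mul_of_nonneg_left ?_ (norm_nonneg _)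
    rw [abs_le]; constructor <;> nlinarith [sq_nonneg ‖z‖, mul_nonneg hz (sq_nonneg ‖z‖)]
  have e3 : ‖b11 * z‖ ≤ ‖b11‖ * (2 * (1 + ‖z‖) ^ 3) := by
    rw [norm_mul]
    refine mul_le_mul_of_nonneg_left ?_ (norm_nonneg _)
    nlinarith [sq_nonneg ‖z‖, mul_nonneg hz (sq_nonneg ‖z‖)]
  have e4 : ‖b0 * (z * ((‖z‖ ^ 2 - 2 : ℝ) : ℂ) / ((√2 : ℝ) : ℂ))‖ ≤ ‖b0‖ * (2 * (1 + ‖z‖) ^ 3) := by
    rw [norm_mul, norm_div, norm_mul, Complex.norm_real, Complex.norm_real, Real.norm_eq_abs,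
      Real.norm_eq_abs, abs_of_nonneg (Real.sqrt_nonneg 2)]
    refine mul_le_mul_of_nonneg_left ?_ (norm_nonneg _)
    rw [div_le_iff₀ (by positivity)]
    have h2 : |‖z‖ ^ 2 - 2| ≤ 2 * (1 + ‖z‖) ^ 2 := by
      rw [abs_le]; constructor <;> nlinarith [sq_nonneg (‖z‖)]
    have h3 : ‖z‖ * |‖z‖ ^ 2 - 2| ≤ 2 * (1 + ‖z‖) ^ 3 := by
      calc ‖z‖ * |‖z‖ ^ 2 - 2| ≤ (1 + ‖z‖) * (2 * (1 + ‖z‖) ^ 2) :=
            mul_le_mul (by linarith) h2 (abs_nonneg _) (by linarith)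
        _ = _ := by ring
    have h4 : 0 ≤ 2 * (1 + ‖z‖) ^ 3 := by positivity
    nlinarith
  have e5 : ‖b20 * conj z‖ ≤ ‖b20‖ * (2 * (1 + ‖z‖) ^ 3) := by
    rw [norm_mul, RCLike.norm_conj]
    refine mul_le_mul_of_nonneg_left ?_ (norm_nonneg _)
    nlinarith [sq_nonneg ‖z‖, mul_nonneg hz (sq_nonneg ‖z‖)]
  have e6 : ‖b01 * (z ^ 2 / ((√2 : ℝ) : ℂ))‖ ≤ ‖b01‖ * (2 * (1 + ‖z‖) ^ 3) := by
    rw [norm_mul, norm_div, norm_pow, Complex.norm_real, Real.norm_eq_abs,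
      abs_of_nonneg (Real.sqrt_nonneg 2)]
    refine mul_le_mul_of_nonneg_left ?_ (norm_nonneg _)
    rw [div_le_iff₀ (by positivity)]
    have h4 : 0 ≤ 2 * (1 + ‖z‖) ^ 3 := by positivity
    have h5 : ‖z‖ ^ 2 ≤ 2 * (1 + ‖z‖) ^ 3 := by
      nlinarith [sq_nonneg ‖z‖, mul_nonneg hz (sq_nonneg ‖z‖)]
    nlinarith
  unfold qp
  have t := norm_add₄_le (a := b1) (b := b10 * ((‖z‖ ^ 2 - 1 : ℝ) : ℂ)) (c := b11 * z)
    (d := b0 * (z * ((‖z‖ ^ 2 - 2 : ℝ) : ℂ) / ((√2 : ℝ) : ℂ)))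
  have t2 := norm_add₃_le (a := b1 + b10 * ((‖z‖ ^ 2 - 1 : ℝ) : ℂ) + b11 * z
    + b0 * (z * ((‖z‖ ^ 2 - 2 : ℝ) : ℂ) / ((√2 : ℝ) : ℂ))) (b := b20 * conj z)
    (c := b01 * (z ^ 2 / ((√2 : ℝ) : ℂ)))
  refine t2.trans ?_
  linarith

/-- the functions whose radial integrals occur -/
noncomputable def fw (s : ℝ) : Fin 9 → ℝ → ℝ :=
  ![fun r => wt r * Af s r,
    fun r => wt r * (qq 1 0 0 0 r / mb s r),
    fun r => wt r * (qq (-1) 1 0 0 r / mb s r),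
    fun r => wt r * (qq 1 (-2) 1 0 r / mb s r),
    fun r => wt r * (qq 0 1 0 0 r / mb s r),
    fun r => wt r * (qq 0 (-2 / √2) (1 / √2) 0 r / mb s r),
    fun r => wt r * (qq 0 2 (-2) (1 / 2) r / mb s r),
    fun r => wt r * (qq 0 0 (1 / 2) 0 r / mb s r),
    fun r => wt r * ((mm r / mb s r) ^ 2 * (r ^ 2 / √2) / mb s r)]

theorem integrable_fw (s : ℝ) (hs : 0 < s) (hs1 : s ≤ 1) (i : Fin 9) :
    IntegrableOn (fw s i) (Ioi 0) := by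
  fin_cases i
  · exact integrable_Af s hs hs1
  · exact integrable_qq_div s _ _ _ _ hs
  · exact integrable_qq_div s _ _ _ _ hs
  · exact integrable_qq_div s _ _ _ _ hs
  · exact integrable_qq_div s _ _ _ _ hs
  · exact integrable_qq_div s _ _ _ _ hs
  · exact integrable_qq_div s _ _ _ _ hs
  · exact integrable_qq_div s _ _ _ _ hs
  · exact integrable_w7 s hs

/-- the coefficients -/
noncomputable def cw (l : ℝ) (b1 b10 b11 b0 b20 b01 : ℂ) : Fin 9 → ℝ :=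
  ![l,
    (16 / 25) ^ 2 / l * (16 / 25 * ‖b1‖ ^ 2),
    (16 / 25) ^ 2 / l * (32 / 25 * (b1 * conj b10).re),
    (16 / 25) ^ 2 / l * (22 / 25 * ‖b10‖ ^ 2),
    (16 / 25) ^ 2 / l * (‖b11‖ ^ 2 + ‖b20‖ ^ 2),
    (16 / 25) ^ 2 / l * (2 * (b11 * conj b0).re),
    (16 / 25) ^ 2 / l * ‖b0‖ ^ 2,
    (16 / 25) ^ 2 / l * (41 / 30 * ‖b01‖ ^ 2),
    (16 / 25) ^ 2 / l * (-(2 / 5) * (b1 * b01).re)]

theorem pointwise_bound (s l r : ℝ) (hs : 0 < s) (hl : 0 < l) (hr : 0 < r)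
    (b1 b10 b11 b0 b20 b01 : ℂ) :
    wt r * ((2 * Real.pi)⁻¹ * ∫ θ in (-Real.pi)..Real.pi,
      (‖af l (3 / 20) ((r : ℂ) * exp ((θ : ℂ) * I))
          + ((16 / 25 : ℝ) : ℂ) * qp b1 b10 b11 b0 b20 b01 ((r : ℂ) * exp ((θ : ℂ) * I))‖
        + ‖af l (3 / 20) ((r : ℂ) * exp ((θ : ℂ) * I))
          - ((16 / 25 : ℝ) : ℂ) * qp b1 b10 b11 b0 b20 b01 ((r : ℂ) * exp ((θ : ℂ) * I))‖))
    ≤ ∑ i, cw l b1 b10 b11 b0 b20 b01 i * fw s i r := by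
  have hmb := mb_pos hs r
  have h := mean_bound l (mb s r) r hl hr (mm_le_mb s r) b1 b10 b11 b0 b20 b01
  have hR : r * (7 / 10 + 3 / 20 * r ^ 2) = mm r := rfl
  rw [hR] at h
  have hm := mm_pos hr
  have hR0 : 0 ≤ (mm r / mb s r) ^ 2 := by positivity
  have hR1 : (mm r / mb s r) ^ 2 ≤ 1 := by
    apply pow_le_one₀ (by positivity)
    rw [div_le_one hmb]; exact mm_le_mb s r
  have hcb := cross_bound ((mm r / mb s r) ^ 2) (r ^ 2 - 1) r hR0 hR1 b10 b01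
  have e1 := norm_add_real_mul_sq b1 b10 (r ^ 2 - 1)
  have e2 := norm_add_real_mul_sq b11 b0 ((r ^ 2 - 2) / √2)
  have e3 : ((b1 + b10 * ((r ^ 2 - 1 : ℝ) : ℂ)) * b01).re
      = (b1 * b01).re + (r ^ 2 - 1) * (b10 * b01).re := by
    rw [add_mul, Complex.add_re, show b10 * ((r ^ 2 - 1 : ℝ) : ℂ) * b01
      = ((r ^ 2 - 1 : ℝ) : ℂ) * (b10 * b01) by ring, Complex.re_ofReal_mul]
  rw [e1, e2, e3] at h
  have hs2 : (√2 : ℝ) ^ 2 = 2 := Real.sq_sqrt (by norm_num)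
  have hv2 : ((r ^ 2 - 2) / √2) ^ 2 = (r ^ 2 - 2) ^ 2 / 2 := by rw [div_pow, hs2]
  rw [hv2] at h
  have hw := wt_nonneg hr.le
  refine (mul_le_mul_of_nonneg_left h hw).trans ?_
  have hk : 0 ≤ (16 / 25 : ℝ) ^ 2 / (l * mb s r) := by positivity
  have hk2 := mul_le_mul_of_nonneg_left hcb hk
  have hsum : ∑ i, cw l b1 b10 b11 b0 b20 b01 i * fw s i r
      = wt r * (l * (mb s r * (25 / 16 + 7 / 16 * (mm r / mb s r) ^ 2))
        + (16 / 25 : ℝ) ^ 2 / (l * mb s r) * (16 / 25 * ‖b1‖ ^ 2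
          + 32 / 25 * (b1 * conj b10).re * (r ^ 2 - 1)
          + 22 / 25 * ‖b10‖ ^ 2 * (r ^ 2 - 1) ^ 2 + (‖b11‖ ^ 2 + ‖b20‖ ^ 2) * r ^ 2
          + 2 * (b11 * conj b0).re * (r ^ 2 * ((r ^ 2 - 2) / √2))
          + ‖b0‖ ^ 2 * (r ^ 2 * ((r ^ 2 - 2) ^ 2 / 2)) + 41 / 30 * ‖b01‖ ^ 2 * (r ^ 4 / 2)
          - 2 / 5 * (b1 * b01).re * ((mm r / mb s r) ^ 2 * (r ^ 2 / √2)))) := by
    simp only [cw, fw, Fin.sum_univ_succ, Fin.sum_univ_zero, Matrix.cons_val_zero,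
      Matrix.cons_val_succ, Af, qq]
    have := hmb.ne'
    have := hl.ne'
    field_simp
    ring
  rw [hsum]
  refine mul_le_mul_of_nonneg_left ?_ hw
  nlinarith [hk2]

end GLB
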