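import Pool.Agent.Lib.MP_721eb4_an.LB.Piece

set_option autoImplicit false

open MeasureTheory Complex Set
open scoped ComplexConjugate ENNReal

namespace GLB

theorem piece (s l : ℝ) (hs : 0 < s) (hs1 : s ≤ 1) (hl : 0 < l) (A : ℝ)
    (hA : ∫ r in Ioi (0 : ℝ), fw s 0 r ≤ A)
    (h1 : 256 / 625 * ∫ r in Ioi (0 : ℝ), fw s 1 r ≤ l)
    (h3 : 352 / 625 * ∫ r in Ioi (0 : ℝ), fw s 3 r ≤ l)
    (h4 : 16 / 25 * ∫ r in Ioi (0 : ℝ), fw s 4 r ≤ l)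
    (h6 : 16 / 25 * ∫ r in Ioi (0 : ℝ), fw s 6 r ≤ l)
    (h7 : 328 / 375 * ∫ r in Ioi (0 : ℝ), fw s 7 r ≤ l) :
    ∃ η₁ η₂ η₃ : ℝ, ∀ b1 b10 b11 b0 b20 b01 : ℂ,
    ∫ z, (‖af l (3 / 20) z + ((16 / 25 : ℝ) : ℂ) * qp b1 b10 b11 b0 b20 b01 z‖
        + ‖af l (3 / 20) z - ((16 / 25 : ℝ) : ℂ) * qp b1 b10 b11 b0 b20 b01 z‖) ∂cg
      ≤ l * A
        + (16 / 25) * (‖b1‖ ^ 2 + ‖b10‖ ^ 2 + ‖b11‖ ^ 2 + ‖b0‖ ^ 2 + ‖b20‖ ^ 2 + ‖b01‖ ^ 2)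
        + η₁ * (b1 * conj b10).re + η₂ * (b1 * b01).re + η₃ * (b11 * conj b0).re := by
  set J : Fin 9 → ℝ := fun i => ∫ r in Ioi (0 : ℝ), fw s i r with hJ
  refine ⟨(16 / 25) ^ 2 / l * (32 / 25) * J 2, (16 / 25) ^ 2 / l * (-(2 / 5)) * J 8,
    (16 / 25) ^ 2 / l * 2 * J 5, ?_⟩
  intro b1 b10 b11 b0 b20 b01
  set B : ℝ := ‖b1‖ + ‖b10‖ + ‖b11‖ + ‖b0‖ + ‖b20‖ + ‖b01‖ with hB
  have hbound : ∀ z : ℂ, |‖af l (3 / 20) z + ((16 / 25 : ℝ) : ℂ) * qp b1 b10 b11 b0 b20 b01 z‖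
        + ‖af l (3 / 20) z - ((16 / 25 : ℝ) : ℂ) * qp b1 b10 b11 b0 b20 b01 z‖|
      ≤ (2 * (|l| * (1 + 2 * |(3 / 20 : ℝ)|) + 16 / 25 * (2 * B))) * (1 + ‖z‖) ^ 3 := by
    intro z
    rw [abs_of_nonneg (by positivity)]
    have g1 := growth_af l (3 / 20) z
    have g2 := growth_qp b1 b10 b11 b0 b20 b01 z
    have n1 := norm_add_le (af l (3 / 20) z) (((16 / 25 : ℝ) : ℂ) * qp b1 b10 b11 b0 b20 b01 z)
    have n2 := norm_sub_le (af l (3 / 20) z) (((16 / 25 : ℝ) : ℂ) * qp b1 b10 b11 b0 b20 b01 z)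
    have n3 : ‖((16 / 25 : ℝ) : ℂ) * qp b1 b10 b11 b0 b20 b01 z‖
        = 16 / 25 * ‖qp b1 b10 b11 b0 b20 b01 z‖ := by
      rw [norm_mul, Complex.norm_real, Real.norm_eq_abs, abs_of_nonneg (by norm_num)]
    rw [n3] at n1 n2
    rw [← hB] at g2
    nlinarith
  rw [integral_cg_polar _ (continuous_integrand l (3 / 20) (16 / 25) b1 b10 b11 b0 b20 b01)
    _ 3 hbound]
  have hint : Integrable (fun r => ∑ i, cw l b1 b10 b11 b0 b20 b01 i * fw s i r)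
      (volume.restrict (Ioi 0)) :=
    integrable_finsetSum _ fun i _ => (integrable_fw s hs hs1 i).const_mul _
  have hle : ∫ r in Ioi (0 : ℝ), (2 * r * Real.exp (-r ^ 2)) *
      ((2 * Real.pi)⁻¹ * ∫ θ in (-Real.pi)..Real.pi,
      (‖af l (3 / 20) ((r : ℂ) * exp ((θ : ℂ) * I))
          + ((16 / 25 : ℝ) : ℂ) * qp b1 b10 b11 b0 b20 b01 ((r : ℂ) * exp ((θ : ℂ) * I))‖
        + ‖af l (3 / 20) ((r : ℂ) * exp ((θ : ℂ) * I))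
          - ((16 / 25 : ℝ) : ℂ) * qp b1 b10 b11 b0 b20 b01 ((r : ℂ) * exp ((θ : ℂ) * I))‖))
      ≤ ∫ r in Ioi (0 : ℝ), ∑ i, cw l b1 b10 b11 b0 b20 b01 i * fw s i r := by
    refine integral_mono_of_nonneg ?_ hint ?_
    · rw [Filter.EventuallyLE, ae_restrict_iff' measurableSet_Ioi]
      refine Filter.Eventually.of_forall fun r hr => ?_
      have hr' : (0 : ℝ) < r := hr
      have hpi := Real.pi_pos
      simp only [Pi.zero_apply]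
      refine mul_nonneg (by positivity) (mul_nonneg (by positivity) ?_)
      exact intervalIntegral.integral_nonneg (by linarith) (fun θ _ => by positivity)
    · rw [Filter.EventuallyLE, ae_restrict_iff' measurableSet_Ioi]
      refine Filter.Eventually.of_forall fun r hr => ?_
      exact pointwise_bound s l r hs hl hr b1 b10 b11 b0 b20 b01
  refine hle.trans ?_
  rw [integral_finsetSum _ (fun i _ => (integrable_fw s hs hs1 i).const_mul _)]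
  simp_rw [integral_const_mul]
  have hs9 : ∑ i, cw l b1 b10 b11 b0 b20 b01 i * (∫ r in Ioi (0 : ℝ), fw s i r)
      = l * J 0 + (16 / 25) ^ 2 / l * (16 / 25 * ‖b1‖ ^ 2) * J 1
        + (16 / 25) ^ 2 / l * (32 / 25 * (b1 * conj b10).re) * J 2
        + (16 / 25) ^ 2 / l * (22 / 25 * ‖b10‖ ^ 2) * J 3
        + (16 / 25) ^ 2 / l * (‖b11‖ ^ 2 + ‖b20‖ ^ 2) * J 4
        + (16 / 25) ^ 2 / l * (2 * (b11 * conj b0).re) * J 5
        + (16 / 25) ^ 2 / l * ‖b0‖ ^ 2 * J 6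
        + (16 / 25) ^ 2 / l * (41 / 30 * ‖b01‖ ^ 2) * J 7
        + (16 / 25) ^ 2 / l * (-(2 / 5) * (b1 * b01).re) * J 8 := by
    rw [hJ]
    simp only [cw, Fin.sum_univ_succ, Fin.sum_univ_zero, Matrix.cons_val_zero,
      Matrix.cons_val_succ]
    simp only [Fin.succ_zero_eq_one, Fin.succ_one_eq_two]
    ring_nf
    rfl
  rw [hs9]
  have q1 : (16 / 25) ^ 2 / l * (16 / 25 * ‖b1‖ ^ 2) * J 1 ≤ 16 / 25 * ‖b1‖ ^ 2 := by
    have e : (16 / 25) ^ 2 / l * (16 / 25 * ‖b1‖ ^ 2) * J 1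
        = 16 / 25 * ‖b1‖ ^ 2 * ((256 / 625 * J 1) / l) := by ring
    rw [e]
    exact mul_le_of_le_one_right (by positivity) ((div_le_one hl).mpr h1)
  have q3 : (16 / 25) ^ 2 / l * (22 / 25 * ‖b10‖ ^ 2) * J 3 ≤ 16 / 25 * ‖b10‖ ^ 2 := by
    have e : (16 / 25) ^ 2 / l * (22 / 25 * ‖b10‖ ^ 2) * J 3
        = 16 / 25 * ‖b10‖ ^ 2 * ((352 / 625 * J 3) / l) := by ring
    rw [e]
    exact mul_le_of_le_one_right (by positivity) ((div_le_one hl).mpr h3)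
  have q4 : (16 / 25) ^ 2 / l * (‖b11‖ ^ 2 + ‖b20‖ ^ 2) * J 4
      ≤ 16 / 25 * (‖b11‖ ^ 2 + ‖b20‖ ^ 2) := by
    have e : (16 / 25) ^ 2 / l * (‖b11‖ ^ 2 + ‖b20‖ ^ 2) * J 4
        = 16 / 25 * (‖b11‖ ^ 2 + ‖b20‖ ^ 2) * ((16 / 25 * J 4) / l) := by ring
    rw [e]
    exact mul_le_of_le_one_right (by positivity) ((div_le_one hl).mpr h4)
  have q6 : (16 / 25) ^ 2 / l * ‖b0‖ ^ 2 * J 6 ≤ 16 / 25 * ‖b0‖ ^ 2 := by
    have e : (16 / 25) ^ 2 / l * ‖b0‖ ^ 2 * J 6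
        = 16 / 25 * ‖b0‖ ^ 2 * ((16 / 25 * J 6) / l) := by ring
    rw [e]
    exact mul_le_of_le_one_right (by positivity) ((div_le_one hl).mpr h6)
  have q7 : (16 / 25) ^ 2 / l * (41 / 30 * ‖b01‖ ^ 2) * J 7 ≤ 16 / 25 * ‖b01‖ ^ 2 := by
    have e : (16 / 25) ^ 2 / l * (41 / 30 * ‖b01‖ ^ 2) * J 7
        = 16 / 25 * ‖b01‖ ^ 2 * ((328 / 375 * J 7) / l) := by ring
    rw [e]
    exact mul_le_of_le_one_right (by positivity) ((div_le_one hl).mpr h7)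
  have q0 : l * J 0 ≤ l * A := mul_le_mul_of_nonneg_left hA hl.le
  linarith

end GLB
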