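import Pool.Agent.Lib.MP_721eb4_an.LB.Gauss1

set_option autoImplicit false

open MeasureTheory Complex Set
open scoped ComplexConjugate ENNReal

namespace GLB

/-! Radial integrals for the certificate. -/

noncomputable def mm (r : ℝ) : ℝ := r * (7 / 10 + 3 / 20 * r ^ 2)

noncomputable def mb (s r : ℝ) : ℝ := max (mm r) (mm s)

/-- a polynomial upper bound of `1 / (7/10 + 3x/20)` -/
noncomputable def Pp (x : ℝ) : ℝ := 10 / 7 - 36 / 125 * x + 19 / 500 * x ^ 2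

theorem Pp_ge (x : ℝ) (hx : 0 ≤ x) : 1 ≤ (7 / 10 + 3 / 20 * x) * Pp x := by
  unfold Pp
  have h : (7 / 10 + 3 / 20 * x) * (10 / 7 - 36 / 125 * x + 19 / 500 * x ^ 2) - 1
      = x * ((3 / 14 - 63 / 250 * 4 / 5) + (133 / 5000 - 27 / 625) * x + 57 / 10000 * x ^ 2) := by
    ring
  have h2 : 0 ≤ (3 / 14 - 63 / 250 * 4 / 5) + (133 / 5000 - 27 / 625) * x + 57 / 10000 * x ^ 2 := by
    nlinarith [sq_nonneg (x - 83 / 57)]
  nlinarith [mul_nonneg hx h2]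

theorem mm_strictMono : StrictMonoOn mm (Ici 0) := by
  intro a ha b hb hab
  simp only [mem_Ici] at ha hb
  unfold mm
  nlinarith [mul_pos (sub_pos.mpr hab) (sub_pos.mpr hab), mul_nonneg ha hb, sq_nonneg (a + b),
    mul_nonneg (sub_pos.mpr hab).le (sq_nonneg a), mul_nonneg (sub_pos.mpr hab).le (sq_nonneg b),
    mul_nonneg (sub_pos.mpr hab).le (mul_nonneg ha hb)]

theorem mm_pos {s : ℝ} (hs : 0 < s) : 0 < mm s := by
  unfold mm; positivity

theorem mb_pos {s : ℝ} (hs : 0 < s) (r : ℝ) : 0 < mb s r :=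
  lt_of_lt_of_le (mm_pos hs) (le_max_right _ _)

theorem mb_ge {s : ℝ} (r : ℝ) : mm s ≤ mb s r := le_max_right _ _

theorem mm_le_mb (s r : ℝ) : mm r ≤ mb s r := le_max_left _ _

theorem mb_eq_of_le {s r : ℝ} (hr : 0 ≤ r) (h : r ≤ s) : mb s r = mm s :=
  max_eq_right (mm_strictMono.monotoneOn hr (hr.trans h) h)

theorem mb_eq_of_ge {s r : ℝ} (hs : 0 ≤ s) (h : s ≤ r) : mb s r = mm r :=
  max_eq_left (mm_strictMono.monotoneOn hs (hs.trans h) h)

theorem continuous_mm : Continuous mm := by unfold mm; fun_prop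

theorem continuous_mb (s : ℝ) : Continuous (mb s) := continuous_mm.max continuous_const

/-- the weight -/
noncomputable def wt (r : ℝ) : ℝ := 2 * r * Real.exp (-r ^ 2)

theorem wt_nonneg {r : ℝ} (hr : 0 ≤ r) : 0 ≤ wt r := by unfold wt; positivity

theorem integrable_wt_mul (F : ℝ → ℝ) (hF : Continuous F) (C : ℝ) (k : ℕ)
    (hb : ∀ r, 0 < r → |F r| ≤ C * (1 + r) ^ k) :
    IntegrableOn (fun r => wt r * F r) (Ioi 0) := by
  have h := integrableOn_bound C k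
  refine Integrable.mono' h ?_ ?_
  · have : Continuous (fun r => wt r * F r) := by
      unfold wt; fun_prop
    exact this.aestronglyMeasurable
  · rw [ae_restrict_iff' measurableSet_Ioi]
    refine Filter.Eventually.of_forall fun r hr => ?_
    have hr' : (0 : ℝ) < r := hr
    rw [Real.norm_eq_abs, abs_mul, abs_of_nonneg (wt_nonneg hr'.le)]
    exact mul_le_mul_of_nonneg_left (hb r hr') (wt_nonneg hr'.le)

/-- Gaussian moments on the half line -/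
theorem gauss_moment (k : ℕ) :
    ∫ r in Ioi (0 : ℝ), r ^ k * Real.exp (-r ^ 2) = Real.Gamma ((k + 1) / 2) / 2 := by
  have h := _root_.integral_rpow_mul_exp_neg_rpow (p := 2) (q := k) (by norm_num)
    (by have : (0 : ℝ) ≤ k := Nat.cast_nonneg k
        linarith)
  have h2 : ∫ r in Ioi (0 : ℝ), r ^ k * Real.exp (-r ^ 2)
      = ∫ x in Ioi (0 : ℝ), x ^ (k : ℝ) * Real.exp (-x ^ (2 : ℝ)) := by
    refine setIntegral_congr_fun measurableSet_Ioi fun r hr => ?_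
    simp only [Real.rpow_natCast, Real.rpow_two]
  rw [h2, h]
  ring

theorem gamma_half_rec (k : ℕ) : Real.Gamma ((k + 2 + 1) / 2) = ((k : ℝ) + 1) / 2 * Real.Gamma ((k + 1) / 2) := by
  have h : ((k : ℝ) + 1) / 2 ≠ 0 := by positivity
  rw [show ((k : ℝ) + 2 + 1) / 2 = ((k : ℝ) + 1) / 2 + 1 by ring, Real.Gamma_add_one h]

/-- even moments -/
theorem gm0 : ∫ r in Ioi (0 : ℝ), r ^ 0 * Real.exp (-r ^ 2) = √Real.pi / 2 := by
  rw [gauss_moment]
  norm_num [Real.Gamma_one_half_eq]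

theorem gm_succ (k : ℕ) : ∫ r in Ioi (0 : ℝ), r ^ (k + 2) * Real.exp (-r ^ 2)
    = ((k : ℝ) + 1) / 2 * ∫ r in Ioi (0 : ℝ), r ^ k * Real.exp (-r ^ 2) := by
  rw [gauss_moment, gauss_moment, show (((k + 2 : ℕ) : ℝ) + 1) / 2 = ((k : ℝ) + 2 + 1) / 2 by
    push_cast; ring, gamma_half_rec]
  ring

theorem gm2 : ∫ r in Ioi (0 : ℝ), r ^ 2 * Real.exp (-r ^ 2) = √Real.pi / 4 := by
  rw [gm_succ 0, gm0]; push_cast; ring

theorem gm4 : ∫ r in Ioi (0 : ℝ), r ^ 4 * Real.exp (-r ^ 2) = 3 / 8 * √Real.pi := by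
  rw [gm_succ 2, gm2]; push_cast; ring

theorem gm6 : ∫ r in Ioi (0 : ℝ), r ^ 6 * Real.exp (-r ^ 2) = 15 / 16 * √Real.pi := by
  rw [gm_succ 4, gm4]; push_cast; ring

theorem gm8 : ∫ r in Ioi (0 : ℝ), r ^ 8 * Real.exp (-r ^ 2) = 105 / 32 * √Real.pi := by
  rw [gm_succ 6, gm6]; push_cast; ring

theorem gm10 : ∫ r in Ioi (0 : ℝ), r ^ 10 * Real.exp (-r ^ 2) = 945 / 64 * √Real.pi := by
  rw [gm_succ 8, gm8]; push_cast; ring

/-- integral of an even polynomial against the Gaussian -/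
theorem gpoly (a0 a2 a4 a6 a8 a10 : ℝ) :
    IntegrableOn (fun r : ℝ => (a0 + a2 * r ^ 2 + a4 * r ^ 4 + a6 * r ^ 6 + a8 * r ^ 8
      + a10 * r ^ 10) * Real.exp (-r ^ 2)) (Ioi 0) ∧
    ∫ r in Ioi (0 : ℝ), (a0 + a2 * r ^ 2 + a4 * r ^ 4 + a6 * r ^ 6 + a8 * r ^ 8
      + a10 * r ^ 10) * Real.exp (-r ^ 2)
      = √Real.pi * (a0 / 2 + a2 / 4 + 3 / 8 * a4 + 15 / 16 * a6 + 105 / 32 * a8
        + 945 / 64 * a10) := by
  have i0 := (integrableOn_pow_gauss 0).const_mul a0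
  have i2 := (integrableOn_pow_gauss 2).const_mul a2
  have i4 := (integrableOn_pow_gauss 4).const_mul a4
  have i6 := (integrableOn_pow_gauss 6).const_mul a6
  have i8 := (integrableOn_pow_gauss 8).const_mul a8
  have i10 := (integrableOn_pow_gauss 10).const_mul a10
  have heq : (fun r : ℝ => (a0 + a2 * r ^ 2 + a4 * r ^ 4 + a6 * r ^ 6 + a8 * r ^ 8
      + a10 * r ^ 10) * Real.exp (-r ^ 2)) = fun r => a0 * (r ^ 0 * Real.exp (-r ^ 2))
      + a2 * (r ^ 2 * Real.exp (-r ^ 2)) + a4 * (r ^ 4 * Real.exp (-r ^ 2))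
      + a6 * (r ^ 6 * Real.exp (-r ^ 2)) + a8 * (r ^ 8 * Real.exp (-r ^ 2))
      + a10 * (r ^ 10 * Real.exp (-r ^ 2)) := by
    funext r; ring
  rw [heq]
  have j2 : Integrable (fun r : ℝ => a0 * (r ^ 0 * Real.exp (-r ^ 2)) + a2 * (r ^ 2 * Real.exp (-r ^ 2)))
      (volume.restrict (Ioi 0)) := i0.add i2
  have j4 : Integrable (fun r : ℝ => a0 * (r ^ 0 * Real.exp (-r ^ 2)) + a2 * (r ^ 2 * Real.exp (-r ^ 2)) + a4 * (r ^ 4 * Real.exp (-r ^ 2)))
      (volume.restrict (Ioi 0)) := j2.add i4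
  have j6 : Integrable (fun r : ℝ => a0 * (r ^ 0 * Real.exp (-r ^ 2)) + a2 * (r ^ 2 * Real.exp (-r ^ 2)) + a4 * (r ^ 4 * Real.exp (-r ^ 2)) + a6 * (r ^ 6 * Real.exp (-r ^ 2)))
      (volume.restrict (Ioi 0)) := j4.add i6
  have j8 : Integrable (fun r : ℝ => a0 * (r ^ 0 * Real.exp (-r ^ 2)) + a2 * (r ^ 2 * Real.exp (-r ^ 2)) + a4 * (r ^ 4 * Real.exp (-r ^ 2)) + a6 * (r ^ 6 * Real.exp (-r ^ 2)) + a8 * (r ^ 8 * Real.exp (-r ^ 2)))
      (volume.restrict (Ioi 0)) := j6.add i8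
  have j10 : Integrable (fun r : ℝ => a0 * (r ^ 0 * Real.exp (-r ^ 2)) + a2 * (r ^ 2 * Real.exp (-r ^ 2)) + a4 * (r ^ 4 * Real.exp (-r ^ 2)) + a6 * (r ^ 6 * Real.exp (-r ^ 2)) + a8 * (r ^ 8 * Real.exp (-r ^ 2)) + a10 * (r ^ 10 * Real.exp (-r ^ 2)))
      (volume.restrict (Ioi 0)) := j8.add i10
  refine ⟨j10, ?_⟩
  rw [integral_add j8 i10, integral_add j6 i8, integral_add j4 i6, integral_add j2 i4,
    integral_add i0 i2, integral_const_mul, integral_const_mul, integral_const_mul,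
    integral_const_mul, integral_const_mul, integral_const_mul, gm0, gm2, gm4, gm6, gm8, gm10]
  ring

/-- polynomial integral on `[0, s]` -/
theorem pint (s a0 a1 a2 a3 a4 a5 a6 a7 a8 a9 a10 a11 : ℝ) :
    ∫ r in (0 : ℝ)..s, (a0 + a1 * r + a2 * r ^ 2 + a3 * r ^ 3 + a4 * r ^ 4 + a5 * r ^ 5
      + a6 * r ^ 6 + a7 * r ^ 7 + a8 * r ^ 8 + a9 * r ^ 9 + a10 * r ^ 10 + a11 * r ^ 11)
      = a0 * s + a1 * s ^ 2 / 2 + a2 * s ^ 3 / 3 + a3 * s ^ 4 / 4 + a4 * s ^ 5 / 5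
        + a5 * s ^ 6 / 6 + a6 * s ^ 7 / 7 + a7 * s ^ 8 / 8 + a8 * s ^ 9 / 9 + a9 * s ^ 10 / 10
        + a10 * s ^ 11 / 11 + a11 * s ^ 12 / 12 := by
  have h : ∀ r ∈ uIcc 0 s, HasDerivAt (fun r : ℝ => a0 * r + a1 * r ^ 2 / 2 + a2 * r ^ 3 / 3
      + a3 * r ^ 4 / 4 + a4 * r ^ 5 / 5
        + a5 * r ^ 6 / 6 + a6 * r ^ 7 / 7 + a7 * r ^ 8 / 8 + a8 * r ^ 9 / 9 + a9 * r ^ 10 / 10
        + a10 * r ^ 11 / 11 + a11 * r ^ 12 / 12) (a0 + a1 * r + a2 * r ^ 2 + a3 * r ^ 3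
        + a4 * r ^ 4 + a5 * r ^ 5
      + a6 * r ^ 6 + a7 * r ^ 7 + a8 * r ^ 8 + a9 * r ^ 9 + a10 * r ^ 10 + a11 * r ^ 11) r := by
    intro r _
    have e : ∀ (c : ℝ) (k : ℕ) (d : ℝ), d = (k : ℝ) + 1 →
        HasDerivAt (fun r : ℝ => c * r ^ (k + 1) / d) (c * r ^ k) r := by
      intro c k d hd
      have h1 := ((hasDerivAt_pow (k + 1) r).const_mul c).div_const d
      have hk : d ≠ 0 := by rw [hd]; positivity
      refine h1.congr_deriv ?_
      rw [Nat.add_sub_cancel, div_eq_iff hk, hd]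
      push_cast
      ring
    have e0 : HasDerivAt (fun r : ℝ => a0 * r) a0 r := by
      simpa using (hasDerivAt_id r).const_mul a0
    have e1 : HasDerivAt (fun r : ℝ => a1 * r ^ 2 / 2) (a1 * r) r := by
      simpa using e a1 1 2 (by norm_num)
    exact ((((((((((e0.add e1).add (e a2 2 3 (by norm_num))).add (e a3 3 4 (by norm_num))).add
      (e a4 4 5 (by norm_num))).add (e a5 5 6 (by norm_num))).add (e a6 6 7 (by norm_num))).add
      (e a7 7 8 (by norm_num))).add (e a8 8 9 (by norm_num))).add (e a9 9 10 (by norm_num))).add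
      (e a10 10 11 (by norm_num))).add (e a11 11 12 (by norm_num))
  rw [intervalIntegral.integral_eq_sub_of_hasDerivAt h]
  · ring
  · apply Continuous.intervalIntegrable
    fun_prop

end GLB
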