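import Pool.Agent.Lib.MP_721eb4_an.LB.GaussN

set_option autoImplicit false

open MeasureTheory Complex Set
open scoped ComplexConjugate ENNReal

namespace GLB

/-! Rotations: the composition operators commute with the projections. -/

theorem memLp_coord2 {n : ℕ} (i : Fin n) : MemLp (fun z : E n => z i) 2 (G n) :=
  memLp_coord n i 2 (by norm_num)

theorem memLp_Hp2 {n : ℕ} (i j k : Fin n) : MemLp (Hp i j k) 2 (G n) :=
  memLp_Hp n i j k 2 (by norm_num)

theorem cl_eq {n : ℕ} {f : E n → ℂ} (hf : MemLp f 2 (G n)) : cl f = hf.toLp f := dif_pos hf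

theorem coeFn_cl {n : ℕ} {f : E n → ℂ} (hf : MemLp f 2 (G n)) : cl f =ᵐ[G n] f := by
  rw [cl_eq hf]; exact hf.coeFn_toLp

/-- composition with a unitary map -/
noncomputable def CU {n : ℕ} (U : E n ≃ₗᵢ[ℂ] E n) : Lp ℂ 2 (G n) →ₗᵢ[ℂ] Lp ℂ 2 (G n) :=
  Lp.compMeasurePreservingₗᵢ ℂ U (G_unitary n U)

theorem CU_coe {n : ℕ} (U : E n ≃ₗᵢ[ℂ] E n) (f : Lp ℂ 2 (G n)) :
    CU U f =ᵐ[G n] fun z => f (U z) :=
  Lp.coeFn_compMeasurePreserving f (G_unitary n U)

theorem CU_cl {n : ℕ} (U : E n ≃ₗᵢ[ℂ] E n) {f : E n → ℂ} (hf : MemLp f 2 (G n)) :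
    CU U (cl f) = cl (fun z => f (U z)) := by
  have h2 : MemLp (fun z => f (U z)) 2 (G n) := hf.comp_measurePreserving (G_unitary n U)
  rw [cl_eq hf, cl_eq h2]
  exact Lp.toLp_compMeasurePreserving hf (G_unitary n U)

theorem CU_CU_symm {n : ℕ} (U : E n ≃ₗᵢ[ℂ] E n) (f : Lp ℂ 2 (G n)) :
    CU U (CU U.symm f) = f := by
  apply Lp.ext
  have h1 := CU_coe U (CU U.symm f)
  have h2 := (G_unitary n U).quasiMeasurePreserving.ae_eq_comp (CU_coe U.symm f)
  filter_upwards [h1, h2] with z hz1 hz2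
  rw [hz1]
  simpa using hz2

/-- matrix entries -/
theorem U_apply {n : ℕ} (U : E n ≃ₗᵢ[ℂ] E n) (z : E n) (j : Fin n) :
    (U z) j = ∑ a, (U (EuclideanSpace.single a 1)) j * z a := by
  have hz : z = ∑ a, z a • EuclideanSpace.single a (1 : ℂ) := by
    ext i
    simp [Pi.single_apply]
  conv_lhs => rw [hz]
  rw [map_sum]
  simp [mul_comm]

theorem U_row {n : ℕ} (U : E n ≃ₗᵢ[ℂ] E n) (j k : Fin n) :
    ∑ a, (U (EuclideanSpace.single a 1)) j * conj ((U (EuclideanSpace.single a 1)) k)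
      = if j = k then 1 else 0 := by
  have key := (EuclideanSpace.basisFun (Fin n) ℂ).sum_inner_mul_inner
    (U.symm (EuclideanSpace.single k 1)) (U.symm (EuclideanSpace.single j 1))
  rw [U.symm.inner_map_map] at key
  have e1 : ∀ a : Fin n, inner ℂ (U.symm (EuclideanSpace.single k 1))
      (EuclideanSpace.basisFun (Fin n) ℂ a) = (U (EuclideanSpace.single a 1)) k := by
    intro a
    rw [← U.inner_map_map, LinearIsometryEquiv.apply_symm_apply, EuclideanSpace.basisFun_apply,
      EuclideanSpace.inner_single_left]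
    simp
  have e2 : ∀ a : Fin n, inner ℂ (EuclideanSpace.basisFun (Fin n) ℂ a)
      (U.symm (EuclideanSpace.single j 1)) = conj ((U (EuclideanSpace.single a 1)) j) := by
    intro a
    rw [← U.inner_map_map, LinearIsometryEquiv.apply_symm_apply, EuclideanSpace.basisFun_apply,
      EuclideanSpace.inner_single_right]
    simp
  simp_rw [e1, e2] at key
  have key2 := congrArg conj key
  rw [map_sum] at key2
  simp only [map_mul, Complex.conj_conj] at key2
  rw [show (∑ a, (U (EuclideanSpace.single a 1)) j * conj ((U (EuclideanSpace.single a 1)) k))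
    = ∑ a, conj ((U (EuclideanSpace.single a 1)) k) * (U (EuclideanSpace.single a 1)) j from
      Finset.sum_congr rfl (fun a _ => mul_comm _ _), key2]
  simp only [EuclideanSpace.inner_single_left, map_one, one_mul]
  by_cases h : j = k
  · subst h; simp
  · simp [h, Ne.symm h]

theorem Hp_U {n : ℕ} (U : E n ≃ₗᵢ[ℂ] E n) (i j k : Fin n) (z : E n) :
    Hp i j k (U z) = ∑ a, ∑ b, ∑ c, ((U (EuclideanSpace.single a 1)) i *
      (U (EuclideanSpace.single b 1)) j * conj ((U (EuclideanSpace.single c 1)) k)) *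
        Hp a b c z := by
  set M : Fin n → Fin n → ℂ := fun p q => (U (EuclideanSpace.single q 1)) p with hM
  have hrow : ∀ p q : Fin n, ∑ a, M p a * conj (M q a) = if p = q then 1 else 0 :=
    fun p q => U_row U p q
  have happ : ∀ p : Fin n, (U z) p = ∑ a, M p a * z a := fun p => U_apply U z p
  have hc : conj ((U z) k) = ∑ c, conj (M k c) * conj (z c) := by
    rw [happ k, map_sum]; simp
  have e1 : ∑ a, ∑ b, ∑ c, (M i a * M j b * conj (M k c)) * (z a * z b * conj (z c))
      = (U z) i * (U z) j * conj ((U z) k) := by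
    rw [hc, happ i, happ j, Finset.sum_mul_sum, Finset.sum_mul]
    refine Finset.sum_congr rfl fun a _ => ?_
    rw [Finset.sum_mul]
    refine Finset.sum_congr rfl fun b _ => ?_
    rw [Finset.mul_sum]
    refine Finset.sum_congr rfl fun c _ => ?_
    ring
  have e2 : ∑ a, ∑ b, ∑ c, (M i a * M j b * conj (M k c)) * (if b = c then z a else 0)
      = if j = k then (U z) i else 0 := by
    have : ∀ a, ∑ b, ∑ c, (M i a * M j b * conj (M k c)) * (if b = c then z a else 0)
        = (M i a * z a) * (if j = k then 1 else 0) := by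
      intro a
      rw [← hrow j k, Finset.mul_sum]
      refine Finset.sum_congr rfl fun b _ => ?_
      simp only [mul_ite, mul_zero, Finset.sum_ite_eq, Finset.mem_univ, if_true]
      ring
    simp_rw [this]
    rw [← Finset.sum_mul, ← happ i]
    simp
  have e3 : ∑ a, ∑ b, ∑ c, (M i a * M j b * conj (M k c)) * (if a = c then z b else 0)
      = if i = k then (U z) j else 0 := by
    have : ∀ b, ∑ a, ∑ c, (M i a * M j b * conj (M k c)) * (if a = c then z b else 0)
        = (M j b * z b) * (if i = k then 1 else 0) := by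
      intro b
      rw [← hrow i k, Finset.mul_sum]
      refine Finset.sum_congr rfl fun a _ => ?_
      simp only [mul_ite, mul_zero, Finset.sum_ite_eq, Finset.mem_univ, if_true]
      ring
    rw [Finset.sum_comm]
    simp_rw [this]
    rw [← Finset.sum_mul, ← happ j]
    simp
  change (U z) i * (U z) j * conj ((U z) k) - (if j = k then (U z) i else 0)
    - (if i = k then (U z) j else 0) = ∑ a, ∑ b, ∑ c, (M i a * M j b * conj (M k c)) *
      (z a * z b * conj (z c) - (if b = c then z a else 0) - (if a = c then z b else 0))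
  rw [← e1, ← e2, ← e3]
  simp only [← Finset.sum_sub_distrib]
  refine Finset.sum_congr rfl fun a _ => Finset.sum_congr rfl fun b _ =>
    Finset.sum_congr rfl fun c _ => ?_
  ring

/-- linear combinations -/
theorem cl_sum {n : ℕ} {ι : Type*} [Fintype ι] (c : ι → ℂ) (f : ι → E n → ℂ)
    (hf : ∀ i, MemLp (f i) 2 (G n)) :
    cl (fun z => ∑ i, c i * f i z) = ∑ i, c i • cl (f i) := by
  have hm : MemLp (fun z => ∑ i, c i * f i z) 2 (G n) :=
    memLp_finsetSum _ (fun i _ => (hf i).const_mul (c i))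
  apply Lp.ext
  have h1 := coeFn_cl hm
  have h2 : (↑(∑ i, c i • cl (f i)) : E n → ℂ) =ᵐ[G n] fun z => ∑ i, c i * f i z := by
    have h3 := Lp.coeFn_finsetSum (Finset.univ : Finset ι) (fun i => c i • cl (f i))
    have h4 : ∀ i, (↑(c i • cl (f i)) : E n → ℂ) =ᵐ[G n] fun z => c i * f i z := by
      intro i
      filter_upwards [Lp.coeFn_smul (c i) (cl (f i)), coeFn_cl (hf i)] with z hz1 hz2
      rw [hz1, Pi.smul_apply, hz2, smul_eq_mul]
    have h5 : ∀ᵐ z ∂(G n), ∀ i, (↑(c i • cl (f i)) : E n → ℂ) z = c i * f i z :=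
      ae_all_iff.mpr h4
    filter_upwards [h3, h5] with z hz3 hz5
    rw [hz3]
    simp [Finset.sum_apply, hz5]
  exact h1.trans h2.symm

theorem CU_S0 {n : ℕ} (U : E n ≃ₗᵢ[ℂ] E n) (f : Lp ℂ 2 (G n)) (hf : f ∈ S0 n) :
    CU U f ∈ S0 n := by
  obtain ⟨c, rfl⟩ := (Submodule.mem_span_range_iff_exists_fun ℂ).mp hf
  rw [map_sum]
  refine Submodule.sum_mem _ fun i _ => ?_
  rw [map_smul, CU_cl U (memLp_coord2 i)]
  refine Submodule.smul_mem _ _ ?_
  have : (fun z : E n => (U z) i) = fun z => ∑ a, (U (EuclideanSpace.single a 1)) i * z a := by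
    ext z; exact U_apply U z i
  rw [this, cl_sum (fun a => (U (EuclideanSpace.single a 1)) i) (fun a (z : E n) => z a)
    (fun a => memLp_coord2 a)]
  exact Submodule.sum_mem _ fun a _ => Submodule.smul_mem _ _ (Submodule.subset_span ⟨a, rfl⟩)

theorem CU_S1 {n : ℕ} (U : E n ≃ₗᵢ[ℂ] E n) (f : Lp ℂ 2 (G n)) (hf : f ∈ S1 n) :
    CU U f ∈ S1 n := by
  obtain ⟨c, rfl⟩ := (Submodule.mem_span_range_iff_exists_fun ℂ).mp hf
  rw [map_sum]
  refine Submodule.sum_mem _ fun t _ => ?_
  rw [map_smul, CU_cl U (memLp_Hp2 _ _ _)]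
  refine Submodule.smul_mem _ _ ?_
  have : (fun z : E n => Hp t.1 t.2.1 t.2.2 (U z)) = fun z => ∑ q : Fin n × Fin n × Fin n,
      ((U (EuclideanSpace.single q.1 1)) t.1 *
      (U (EuclideanSpace.single q.2.1 1)) t.2.1 * conj ((U (EuclideanSpace.single q.2.2 1)) t.2.2)) *
        Hp q.1 q.2.1 q.2.2 z := by
    ext z
    rw [Hp_U]
    simp only [Fintype.sum_prod_type]
  rw [this, cl_sum _ (fun q : Fin n × Fin n × Fin n => Hp q.1 q.2.1 q.2.2)
    (fun q => memLp_Hp2 _ _ _)]
  exact Submodule.sum_mem _ fun a _ => Submodule.smul_mem _ _ (Submodule.subset_span ⟨a, rfl⟩)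

theorem starProjection_CU {n : ℕ} (U : E n ≃ₗᵢ[ℂ] E n) (S : Submodule ℂ (Lp ℂ 2 (G n)))
    [S.HasOrthogonalProjection]
    (hS : ∀ (W : E n ≃ₗᵢ[ℂ] E n), ∀ f ∈ S, CU W f ∈ S) (f : Lp ℂ 2 (G n)) :
    S.starProjection (CU U f) = CU U (S.starProjection f) := by
  apply Submodule.eq_starProjection_of_mem_of_inner_eq_zero
  · exact hS U _ (Submodule.starProjection_apply_mem S f)
  · intro w hw
    rw [← CU_CU_symm U w, ← map_sub, LinearIsometry.inner_map_map]
    exact Submodule.starProjection_inner_eq_zero f _ (hS U.symm w hw)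

theorem T_CU {n : ℕ} (μ : ℝ) (U : E n ≃ₗᵢ[ℂ] E n) (f : Lp ℂ 2 (G n)) :
    T μ n (CU U f) = CU U (T μ n f) := by
  simp only [T, sub_apply, smul_apply, map_sub, map_smul]
  rw [starProjection_CU U (S0 n) CU_S0 f, starProjection_CU U (S1 n) CU_S1 f]

end GLB
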